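import Pool.Agent.H245.SH.U6

/-!
# The star condition along closed pseudo-orbits, one factor with a shift
-/

set_option autoImplicit false
set_option linter.unusedSectionVars false

open scoped Manifold ContDiff Topology NNReal
open Filter Set Metric

universe u v w

namespace Pool.Agent.H245.SK

open Pool.Agent.H718R2.G Pool.Agent.W564.SC Pool.Agent.TH80.OMS Pool.Agent.Y271.CP
  Pool.Agent.Y504.CO Pool.Agent.H245.SH

variable {m : ℕ} {M : Type v} [MetricSpace M] [CompactSpace M] [ChartedSpace (V m) M]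
  [IsManifold (𝓡 m) ∞ M]

/-- **The family of perturbations.** -/
theorem exists_pert (A : FAtlas m M) {F F' : V (m + m * m) × V m → V m}
    (hF : LFam (m + m * m) m F F')
    {k n T : ℕ} {Y : Type w} [TopologicalSpace Y] [T2Space Y] [SigmaCompactSpace Y]
    [ChartedSpace (V k) Y] [IsManifold (𝓡 k) ∞ Y] {N : Type u} [TopologicalSpace N] [T2Space N]
    [CompactSpace N] [ChartedSpace (V n) N] [IsManifold (𝓡 n) ∞ N]
    (E : GEmb m n (𝓡 k) M Y N) {r : ℕ∞} (hr : 1 ≤ r) (f : M → M) {h : Y → Y}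
    {K : Set Y} (G : DiffM n N r)
    (hG : ∀ x, ∀ y ∈ K, G (E.Θ (x, y)) = E.Θ (f x, h y))
    {W : Fin (T + 1) → Set Y} (hWc : ∀ i, IsCompact (W i)) (hWd : ∀ i j, i ≠ j → Disjoint (W i) (W j))
    (U : Set (DiffM n N r)) (hU : IsOpen[strongTop n N r] U) (hGU : G ∈ U) (z₀ : N) :
    ∃ κ : ℝ, 0 < κ ∧ ∀ (b : Fin T → M) (w : Fin T → Aff m),
      (∀ t, ‖sp m (w t)‖ < κ) → ∃ g ∈ U, ∀ (x : M) (y : Y) (σ : Fin (T + 1)), y ∈ K → h y ∈ W σ →
        g (E.Θ (x, y)) = E.Θ (kap A F b w σ (f x), h y) := by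
  classical
  obtain ⟨β, C, hβ, hC, hC0, hβ1, hβ0⟩ := exists_beta (k := k) hWc hWd
  -- the kicks
  obtain ⟨ΦK, hΦK⟩ : ∃ ΦK : Fin T × Fin A.J → Y →
      ((Fin T × Fin A.J → V (m + m * m)) →L[ℝ] V (m + m * m)),
    ΦK = fun q z => β q.1.succ z •
      (ContinuousLinearMap.proj q : (Fin T × Fin A.J → V (m + m * m)) →L[ℝ] V (m + m * m)) :=
    ⟨_, rfl⟩
  have hΦKs : ∀ q, ContMDiff (𝓡 k) 𝓘(ℝ, (Fin T × Fin A.J → V (m + m * m)) →L[ℝ] V (m + m * m)) ∞
      (ΦK q) := by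
    intro q
    rw [hΦK]
    exact (hβ _).smul contMDiff_const
  have hΦKK : ∀ q (z : Y), z ∉ C q.1.succ → ΦK q z = 0 := by
    intro q z hz
    rw [hΦK]
    simp only
    refine ContinuousLinearMap.ext fun p => ?_
    show β q.1.succ z • p q = 0
    rw [hC0 _ z hz, zero_smul]
  have hΦKa : ∀ q (z : Y) (p : Fin T × Fin A.J → V (m + m * m)),
      ΦK q z p = β q.1.succ z • p q := by
    intro q z p
    rw [hΦK]
    rfl
  obtain ⟨H1, H1', hH1, hH1a⟩ := exists_gpushs E (χ := fun q : Fin T × Fin A.J => A.χ q.2)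
    (fun q => A.good q.2) hF hΦKs (fun q => hC q.1.succ) hΦKK
    (Finset.univ : Finset (Fin T × Fin A.J)).toList
  obtain ⟨κ, hκ, hmem⟩ := hH1.fam_mem hr G z₀ U hU hGU
  refine ⟨κ, hκ, fun b w hw => ?_⟩
  obtain ⟨p, hp⟩ : ∃ p : Fin T × Fin A.J → V (m + m * m),
      p = (fun q => if q.2 = A.jx (b q.1) then sp m (w q.1) else 0) :=
    ⟨_, rfl⟩
  have hpn : ‖p‖ < κ := by
    rw [hp, pi_norm_lt_iff hκ]
    intro q
    split_ifs
    · exact hw q.1
    · rw [norm_zero]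
      exact hκ
  refine ⟨_, hmem p hpn, fun x y σ hy hhy => ?_⟩
  rw [hH1.fam_apply, hG x y hy, hH1a]
  -- the kick of the symbol
  have e3 : ∀ (z' : M), trs (fun q : Fin T × Fin A.J => A.χ q.2) F
      (fun q => ΦK q (h y) p) (Finset.univ : Finset (Fin T × Fin A.J)).toList z' =
      kap A F b w σ z' := by
    intro z'
    induction σ using Fin.cases with
    | zero =>
      apply trs_zero hF
      intro q _
      rw [hΦKa]
      rw [hβ0 q.1.succ 0 (Fin.succ_ne_zero _) _ hhy, zero_smul]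
    | succ t =>
      rw [trs_one hF (i₀ := (t, A.jx (b t))) z' ?_ _ (Finset.nodup_toList _)
        (Finset.mem_toList.2 (Finset.mem_univ _))]
      · rw [hΦKa]
        simp only
        rw [hβ1 t.succ _ hhy, one_smul, hp]
        simp only [if_true]
        rfl
      · intro q hq
        rw [hΦKa]
        by_cases hqt : q.1 = t
        · have hq2 : q.2 ≠ A.jx (b q.1) := by
            intro h0
            apply hq
            rw [hqt] at h0
            exact Prod.ext hqt h0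
          rw [hp]
          simp only
          rw [if_neg hq2, smul_zero]
        · rw [hβ0 q.1.succ t.succ (fun h0 => hqt (Fin.succ_injective _ h0)) _ hhy, zero_smul]
  rw [e3]

theorem fcs_zero {T : ℕ} (A : FAtlas m M) (bb : Fin A.J → M → ℝ) (f : M → M) (b : Fin T → M)
    (l : List (Fin (T + 1))) : ∀ x, fcs A bb f b 0 x l = 1 := by
  induction l with
  | nil => exact fun x => rfl
  | cons σ l ih =>
    intro x
    show fcs A bb f b 0 (stp f b x σ) l * fc A bb 0 (f x) = 1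
    rw [ih, one_mul]
    unfold fc
    simp

theorem stm_zero {T : ℕ} (A : FAtlas m M) {F F' : V (m + m * m) × V m → V m}
    (hF : LFam (m + m * m) m F F') (bb : Fin A.J → M → ℝ) (f : M → M) (b : Fin T → M)
    (w : Fin T → Aff m) (x : M) (σ : Fin (T + 1)) (z : M) :
    stm A F bb f b w 0 x σ z = kap A F b w σ (f z) := by
  unfold stm DD
  rw [trs_zero hF _ _ (fun i _ => zero_smul ℝ _)]

/-- the iterates -/
theorem pert_iter {T : ℕ} (A : FAtlas m M) {F F' : V (m + m * m) × V m → V m}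
    (hF : LFam (m + m * m) m F F') (bb : Fin A.J → M → ℝ)
    {k n : ℕ} {Y : Type w} [TopologicalSpace Y]
    [ChartedSpace (V k) Y] {N : Type u} [TopologicalSpace N] [ChartedSpace (V n) N]
    (E : GEmb m n (𝓡 k) M Y N) {f : M → M} {h : Y → Y}
    {K : Set Y} {W : Fin (T + 1) → Set Y} {g : N → N} {b : Fin T → M} {w : Fin T → Aff m}
    (hg : ∀ (x : M) (y : Y) (σ : Fin (T + 1)), y ∈ K → h y ∈ W σ →
        g (E.Θ (x, y)) = E.Θ (kap A F b w σ (f x), h y)) (l : List (Fin (T + 1))) :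
    ∀ (x z : M) (y : Y), Fol h K W y l →
      g^[l.length] (E.Θ (z, y)) = E.Θ (cms A F bb f b w 0 x l z, h^[l.length] y) := by
  induction l with
  | nil => exact fun x z y _ => rfl
  | cons σ l ih =>
    intro x z y hFo
    rw [List.length_cons, Function.iterate_succ_apply, Function.iterate_succ_apply,
      hg z y σ hFo.1 hFo.2.1, ih (stp f b x σ) _ _ hFo.2.2, ← stm_zero A hF bb f b w x σ z]
    rfl

/-- **The star condition.** -/
theorem kick_star0 (A : FAtlas m M) {r : ℕ∞} (hr : 1 ≤ r) (f : DiffM m M r) {k n T N₀ : ℕ}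
    {Y : Type w} [TopologicalSpace Y] [T2Space Y] [SigmaCompactSpace Y]
    [ChartedSpace (V k) Y] [IsManifold (𝓡 k) ∞ Y] [Nonempty M] [Nonempty Y] {h : Y → Y} {K : Set Y}
    {N : Type u} [TopologicalSpace N] [T2Space N] [CompactSpace N] [ChartedSpace (V n) N]
    [IsManifold (𝓡 n) ∞ N] (E : GEmb m n (𝓡 k) M Y N) (G : DiffM n N r)
    (hdr : Driver T N₀ h K)
    (hG : ∀ x, ∀ y ∈ K, G (E.Θ (x, y)) = E.Θ (f x, h y)) (hst : CStar n N r G) :
    ∃ ε : ℝ, 0 < ε ∧ ∀ (a b : Fin T → M) (R : Fin T → V m →L[ℝ] V m),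
      (∀ t, dist (a t) (b t) < ε) → (∀ t, ‖R t - ContinuousLinearMap.id ℝ (V m)‖ < ε) →
      ∀ bs : List (Fin T × ℕ), bs ≠ [] → (∀ q ∈ bs, N₀ ≤ q.2) → ∀ x, Val f a b x (sym bs) →
        endp f b x (sym bs) = x → NoOne (lin A f b R x (sym bs)) := by
  obtain ⟨bb, hbs, hb1, hb0, hb2⟩ := exists_bumps A
  obtain ⟨F, F', κF, hκF, hF, hlin⟩ := aff_family m
  obtain ⟨W, hWc, hWd, hW⟩ := hdr
  obtain ⟨U, hU, hGU, hhyp⟩ := hst
  obtain ⟨κ₀, hκ₀, hpert⟩ := exists_pert A hF E hr f G hG hWc hWd U hU hGU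
    (E.Θ (Classical.arbitrary M, Classical.arbitrary Y))
  -- constants
  obtain ⟨C, hC⟩ : ∃ C : ℝ, C = ‖((affE m).symm : Aff m →L[ℝ] V (m + m * m))‖ + 1 := ⟨_, rfl⟩
  have hC1 : 1 ≤ C := by
    have := norm_nonneg ((affE m).symm : Aff m →L[ℝ] V (m + m * m))
    linarith
  have hsp : ∀ w : Aff m, ‖sp m w‖ ≤ C * ‖w‖ := by
    intro w
    have h1 := ((affE m).symm : Aff m →L[ℝ] V (m + m * m)).le_opNorm w
    refine h1.trans ?_
    gcongr
    linarith
  obtain ⟨κ₁, hκ₁⟩ : ∃ κ₁, κ₁ = min κF κ₀ := ⟨_, rfl⟩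
  have hκ₁0 : 0 < κ₁ := by rw [hκ₁]; exact lt_min hκF hκ₀
  have hκ₁F : κ₁ ≤ κF := by rw [hκ₁]; exact min_le_left _ _
  have hκ₁0' : κ₁ ≤ κ₀ := by rw [hκ₁]; exact min_le_right _ _
  obtain ⟨κ, hκ⟩ : ∃ κ, κ = min (κ₁ / (4 * C)) (1 / 16) := ⟨_, rfl⟩
  have hκ0 : 0 < κ := by rw [hκ]; positivity
  have hκa : κ ≤ κ₁ / (4 * C) := by rw [hκ]; exact min_le_left _ _
  have hκb : κ ≤ 1 / 16 := by rw [hκ]; exact min_le_right _ _
  obtain ⟨ε₀, hε₀, hclose⟩ := exists_close A hκ0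
  refine ⟨min ε₀ κ, lt_min hε₀ hκ0, ?_⟩
  intro a b R hab hR bs hbs0 hbsN x hV hend
  -- the kicks
  obtain ⟨w, hw⟩ : ∃ w : Fin T → Aff m, w = fun t => (A.χ (A.jx (b t)) (b t) -
    A.χ (A.jx (b t)) (a t) - (R t - ContinuousLinearMap.id ℝ (V m)) (A.χ (A.jx (b t)) (a t)),
    R t - ContinuousLinearMap.id ℝ (V m)) := ⟨_, rfl⟩
  have hcl : ∀ t, a t ∈ (A.χ (A.jx (b t))).source ∧
      ‖A.χ (A.jx (b t)) (a t) - A.χ (A.jx (b t)) (b t)‖ < κ := fun t =>
    hclose _ _ _ ((hab t).trans_le (min_le_left _ _)) (A.src _) (A.core _).le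
  have h8 : ∀ t, ‖A.χ (A.jx (b t)) (a t)‖ ≤ 1 / 8 := by
    intro t
    have h1 := (hcl t).2
    have h2 := A.core (b t)
    have h3 : A.χ (A.jx (b t)) (a t) = (A.χ (A.jx (b t)) (a t) - A.χ (A.jx (b t)) (b t)) +
      A.χ (A.jx (b t)) (b t) := by abel
    rw [h3]
    refine (norm_add_le _ _).trans ?_
    linarith
  have hwn : ∀ t, ‖sp m (w t)‖ < κ₁ := by
    intro t
    have hRt : ‖R t - ContinuousLinearMap.id ℝ (V m)‖ ≤ κ :=
      ((hR t).trans_le (min_le_right _ _)).le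
    have h1 : ‖w t‖ ≤ 2 * κ := by
      rw [hw, Prod.norm_def, max_le_iff]
      refine ⟨?_, by linarith⟩
      refine (norm_sub_le _ _).trans ?_
      have h2 : ‖A.χ (A.jx (b t)) (b t) - A.χ (A.jx (b t)) (a t)‖ ≤ κ := by
        rw [norm_sub_rev]
        exact (hcl t).2.le
      have h3 : ‖(R t - ContinuousLinearMap.id ℝ (V m)) (A.χ (A.jx (b t)) (a t))‖ ≤ κ * (1 / 8) :=
        (ContinuousLinearMap.le_opNorm _ _).trans (mul_le_mul hRt (h8 t) (norm_nonneg _) hκ0.le)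
      linarith
    calc _ ≤ C * ‖w t‖ := hsp _
      _ ≤ C * (2 * (κ₁ / (4 * C))) := by
        gcongr
        linarith
      _ = κ₁ / 2 := by field_simp; norm_num
      _ < κ₁ := by linarith
  have hk : Kicks A F κF bb a b R w 0 := by
    refine ⟨fun c z => ?_, fun t => (hcl t).1, h8, fun t => (hwn t).trans_le hκ₁F, fun t => ?_,
      fun t => ?_⟩
    · rw [zero_smul, norm_zero]
      exact hκF
    · rw [hw]
      simp only
      abel
    · rw [hw]
      simp only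
      abel
  obtain ⟨g, hgU, hg⟩ := hpert b w (fun t => (hwn t).trans_le hκ₁0')
  obtain ⟨y, hy, hyF⟩ := hW bs hbs0 hbsN
  have hret : ∀ z, g^[(sym bs).length] (E.Θ (z, y)) =
      E.Θ (cms A F bb f b w 0 x (sym bs) z, y) := by
    intro z
    rw [pert_iter A hF bb E hg (sym bs) x z y hyF, hy]
  obtain ⟨c1, c2⟩ := chain_deriv A hκF hF hlin hb0 hr f hk (sym bs) x hV
  rw [hend] at c1 c2
  rw [fcs_zero, one_smul] at c2
  have hlen : 1 ≤ (sym bs).length := by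
    obtain ⟨q, bs', rfl⟩ := List.exists_cons_of_ne_nil hbs0
    unfold sym
    rw [List.flatMap_cons, List.length_append, List.length_append, List.length_singleton]
    omega
  refine gslice_noOne E hr g hlen hret (A.good (A.jx x)).mem (A.src x)
    (cms_cont A hF bb f.continuous b w 0 _ x).continuousAt c1 c2 (hhyp g hgU _ ?_)
  refine ⟨(sym bs).length, hlen, ?_⟩
  rw [hret, c1]

/-- the scaling of all kicks -/
theorem lin_smul {T : ℕ} (A : FAtlas m M) (f : M → M) (b : Fin T → M) (R : Fin T → V m →L[ℝ] V m)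
    (s : ℝ) : ∀ (bs : List (Fin T × ℕ)) (x : M) (v : V m),
    lin A f b (fun t => s • R t) x (sym bs) v = s ^ bs.length • lin A f b R x (sym bs) v := by
  have hrep : ∀ (R' : Fin T → V m →L[ℝ] V m) (p : ℕ) (x : M) (l : List (Fin (T + 1))) (v : V m),
      ∃ w : V m, lin A f b R x (List.replicate p 0 ++ l) v = lin A f b R (f^[p] x) l w ∧
      lin A f b (fun t => s • R t) x (List.replicate p 0 ++ l) v =
        lin A f b (fun t => s • R t) (f^[p] x) l w := by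
    intro R' p
    induction p with
    | zero => exact fun x l v => ⟨v, rfl, rfl⟩
    | succ p ih =>
      intro x l v
      obtain ⟨w, h1, h2⟩ := ih (f x) l (Dm A f x (f x) v)
      exact ⟨w, h1, h2⟩
  intro bs
  induction bs with
  | nil =>
    intro x v
    show v = (1 : ℝ) • v
    rw [one_smul]
  | cons q bs ih =>
    intro x v
    rw [sym_cons]
    obtain ⟨w, h1, h2⟩ := hrep R q.2 x (q.1.succ :: sym bs) v
    rw [h1, h2]
    show lin A f b (fun t => s • R t) (b q.1) (sym bs) (s • R q.1 (Dm A f (f^[q.2] x) (b q.1) w)) =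
      s ^ (bs.length + 1) • lin A f b R (b q.1) (sym bs) (R q.1 (Dm A f (f^[q.2] x) (b q.1) w))
    rw [ih, map_smul, smul_smul, pow_succ]

/-- the star condition with a scalar for every block -/
def KStarB (T : ℕ) (A : FAtlas m M) (f : M → M) (N₀ : ℕ) (ε ρ : ℝ) : Prop :=
  ∀ (a b : Fin T → M) (R : Fin T → V m →L[ℝ] V m),
    (∀ t, dist (a t) (b t) < ε) → (∀ t, ‖R t - ContinuousLinearMap.id ℝ (V m)‖ < ε) →
    ∀ bs : List (Fin T × ℕ), bs ≠ [] → (∀ q ∈ bs, N₀ ≤ q.2) → ∀ x, Val f a b x (sym bs) →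
      endp f b x (sym bs) = x → ∀ s : ℝ, (ρ ^ bs.length)⁻¹ ≤ s →
      s ≤ ρ ^ bs.length → NoOne (s • lin A f b R x (sym bs))

theorem kstarB_of {T : ℕ} {A : FAtlas m M} {f : M → M} {N₀ : ℕ} {ε : ℝ} (hε : 0 < ε)
    (h : ∀ (a b : Fin T → M) (R : Fin T → V m →L[ℝ] V m),
      (∀ t, dist (a t) (b t) < ε) → (∀ t, ‖R t - ContinuousLinearMap.id ℝ (V m)‖ < ε) →
      ∀ bs : List (Fin T × ℕ), bs ≠ [] → (∀ q ∈ bs, N₀ ≤ q.2) → ∀ x, Val f a b x (sym bs) →
        endp f b x (sym bs) = x → NoOne (lin A f b R x (sym bs))) :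
    ∃ ε' ρ : ℝ, 0 < ε' ∧ 1 < ρ ∧ KStarB T A f N₀ ε' ρ := by
  obtain ⟨ε₁, hε₁⟩ : ∃ ε₁, ε₁ = min 1 ε := ⟨_, rfl⟩
  have h1 : 0 < ε₁ := by rw [hε₁]; exact lt_min one_pos hε
  have h2 : ε₁ ≤ 1 := by rw [hε₁]; exact min_le_left _ _
  have h3 : ε₁ ≤ ε := by rw [hε₁]; exact min_le_right _ _
  refine ⟨ε₁ / 4, 1 + ε₁ / 4, by positivity, by linarith, ?_⟩
  intro a b R hab hR bs hbs hN x hV hend s hs hs'
  obtain ⟨n, hn⟩ : ∃ n, n = bs.length := ⟨_, rfl⟩
  have hn0 : n ≠ 0 := by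
    rw [hn]
    intro h0
    exact hbs (List.length_eq_zero_iff.1 h0)
  rw [← hn] at hs hs'
  have hρ0 : (0 : ℝ) < 1 + ε₁ / 4 := by linarith
  have hs0 : 0 < s := lt_of_lt_of_le (by positivity) hs
  obtain ⟨t, ht⟩ : ∃ t : ℝ, t = s ^ ((n : ℝ)⁻¹) := ⟨_, rfl⟩
  have ht0 : 0 < t := by rw [ht]; positivity
  have htn : t ^ n = s := by
    rw [ht]
    exact Real.rpow_inv_natCast_pow hs0.le hn0
  have ht1 : t ≤ 1 + ε₁ / 4 := by
    rw [← htn] at hs'
    exact le_of_pow_le_pow_left₀ hn0 hρ0.le hs'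
  have ht2 : (1 + ε₁ / 4)⁻¹ ≤ t := by
    rw [← htn, ← inv_pow] at hs
    exact le_of_pow_le_pow_left₀ hn0 ht0.le hs
  have ht3 : 1 - ε₁ / 4 ≤ t := by
    refine le_trans ?_ ht2
    rw [le_inv_comm₀ (by linarith) hρ0, inv_eq_one_div, le_div_iff₀ (by linarith)]
    nlinarith
  have htabs : |t - 1| ≤ ε₁ / 4 := abs_le.2 ⟨by linarith, by linarith⟩
  have h4 := h a b (fun i => t • R i) (fun i => (hab i).trans_le (by linarith)) (fun i => ?_) bs hbs
    hN x hV hend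
  · have e1 : lin A f b (fun i => t • R i) x (sym bs) = s • lin A f b R x (sym bs) := by
      ext1 v
      rw [lin_smul, ← hn, htn]
      rfl
    rwa [e1] at h4
  · have e2 : t • R i - ContinuousLinearMap.id ℝ (V m) = t • (R i - ContinuousLinearMap.id ℝ (V m)) +
        (t - 1) • ContinuousLinearMap.id ℝ (V m) := by
      ext1 v
      show t • R i v - v = t • (R i v - v) + (t - 1) • v
      rw [smul_sub, sub_smul, one_smul]
      abel
    rw [e2]
    have e3 := (hR i).le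
    have e4 : ‖ContinuousLinearMap.id ℝ (V m)‖ ≤ 1 := ContinuousLinearMap.norm_id_le
    calc _ ≤ ‖t • (R i - ContinuousLinearMap.id ℝ (V m))‖ + ‖(t - 1) • ContinuousLinearMap.id ℝ (V m)‖ :=
          norm_add_le _ _
      _ ≤ (1 + ε₁ / 4) * (ε₁ / 4) + ε₁ / 4 * 1 := by
        rw [norm_smul, norm_smul, Real.norm_eq_abs, Real.norm_eq_abs, abs_of_pos ht0]
        gcongr
      _ < ε₁ := by nlinarith
      _ ≤ ε := h3

end Pool.Agent.H245.SK
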