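import Pool.Agent.H245.SK.S9

/-!
# Products `f × h`: both factors
-/

set_option autoImplicit false
set_option linter.unusedSectionVars false

open scoped Manifold ContDiff Topology NNReal
open Filter Set Metric

universe u v w

namespace Pool.Agent.H245.SK

open Pool.Agent.H718R2.G Pool.Agent.W564.SC Pool.Agent.TH80.OMS Pool.Agent.Y271.CP
  Pool.Agent.Y504.CO Pool.Agent.H245.SH

theorem swap_local {m k n : ℕ} {M : Type v} [TopologicalSpace M] [ChartedSpace (V m) M]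
    {Y : Type w} [TopologicalSpace Y] [ChartedSpace (V k) Y]
    {N : Type u} [TopologicalSpace N] [ChartedSpace (V n) N] {Θ : M × Y → N}
    (hΘ : IsLocalDiffeomorph ((𝓡 m).prod (𝓡 k)) (𝓡 n) ∞ Θ) :
    IsLocalDiffeomorph ((𝓡 k).prod (𝓡 m)) (𝓡 n) ∞ (Θ ∘ (Prod.swap : Y × M → M × Y)) := by
  intro p
  have h1 := (Diffeomorph.prodComm (𝓡 k) (𝓡 m) Y M ∞).isLocalDiffeomorph p
  rw [Diffeomorph.coe_prodComm] at h1
  exact h1.comp (𝓡 n) N (hΘ (Prod.swap p))

theorem compact_factor {m k n : ℕ} {M : Type v} [TopologicalSpace M] [ChartedSpace (V m) M]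
    [Nonempty M] {Y : Type w} [TopologicalSpace Y] [ChartedSpace (V k) Y]
    {N : Type u} [TopologicalSpace N] [ChartedSpace (V n) N] [CompactSpace N] {Θ : M × Y → N}
    (hΘ : IsLocalDiffeomorph ((𝓡 m).prod (𝓡 k)) (𝓡 n) ∞ Θ) (hinj : Function.Injective Θ)
    (hsurj : Function.Surjective Θ) : CompactSpace Y := by
  let Θ' : M × Y ≃ₜ N := (Equiv.ofBijective Θ ⟨hinj, hsurj⟩).toHomeomorphOfContinuousOpen
    hΘ.contMDiff.continuous hΘ.isLocalHomeomorph.isOpenMap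
  have h1 : CompactSpace (M × Y) := Θ'.symm.compactSpace
  obtain ⟨x⟩ := ‹Nonempty M›
  refine ⟨?_⟩
  have h2 : (univ : Set Y) = Prod.snd '' (univ : Set (M × Y)) := by
    ext y
    exact ⟨fun _ => ⟨(x, y), mem_univ _, rfl⟩, fun _ => mem_univ _⟩
  rw [h2]
  exact isCompact_univ.image continuous_snd

theorem sp1_nonempty {Y : Type w} [TopologicalSpace Y] {h : Y → Y} {K : Set Y} (hh : Sp1 h K) :
    Nonempty Y := by
  obtain ⟨g, W₀, W₁, -, -, -, h1⟩ := hh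
  obtain ⟨y, -⟩ := h1 1 ∅ le_rfl (fun i => by simp) (fun i hi => hi.elim)
  exact ⟨y⟩

/-- **Products with one factor with a sparse shift.** -/
theorem one_factor {m k n : ℕ} {M : Type v} [MetricSpace M] [CompactSpace M] [ChartedSpace (V m) M]
    [IsManifold (𝓡 m) ∞ M] {Y : Type w} [MetricSpace Y] [SigmaCompactSpace Y]
    [ChartedSpace (V k) Y] [IsManifold (𝓡 k) ∞ Y] {N : Type u} [MetricSpace N] [CompactSpace N]
    [ChartedSpace (V n) N] [IsManifold (𝓡 n) ∞ N] {r : ℕ∞} (hr : 2 ≤ r) (f : DiffM m M r)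
    {h : Y → Y} (hc : Continuous h) {K : Set Y} (hh : Sp1 h K) {Θ : M × Y → N}
    (hΘ : IsLocalDiffeomorph ((𝓡 m).prod (𝓡 k)) (𝓡 n) ∞ Θ) (hinj : Function.Injective Θ)
    (F : DiffM n N r) (hF : ∀ x, ∀ y ∈ K, F (Θ (x, y)) = Θ (f x, h y)) (hst : CStar n N r F) :
    Q263.HS.AxiomA (V m) f.toHomeomorph ∧ Pool.Agent.H728R2.OS.NoCycle f.toHomeomorph ∧
      CycPer f.toHomeomorph := by
  have hr1 : (1 : ℕ∞) ≤ r := le_trans (by norm_num) hr
  have H := exists_kstarB hr1 f hc hh F hΘ hinj hF hst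
  obtain ⟨h1, h2⟩ := u3_of_kstarB hr f H
  exact ⟨h1, h2, fun l w hw i => cyc_memB hr f H hw i⟩

/-- **Products with two factors with sparse shifts.** -/
theorem two_factors {m k n : ℕ} {M : Type v} [MetricSpace M] [CompactSpace M]
    [ChartedSpace (V m) M] [IsManifold (𝓡 m) ∞ M] {Y : Type w} [MetricSpace Y]
    [SigmaCompactSpace Y] [ChartedSpace (V k) Y] [IsManifold (𝓡 k) ∞ Y] {N : Type u}
    [MetricSpace N] [CompactSpace N] [ChartedSpace (V n) N] [IsManifold (𝓡 n) ∞ N] {r : ℕ∞}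
    (hr : 2 ≤ r) (f : DiffM m M r) (g : DiffM k Y r) {K : Set M} (hh' : Sp1 f K)
    {Θ : M × Y → N}
    (hΘ : IsLocalDiffeomorph ((𝓡 m).prod (𝓡 k)) (𝓡 n) ∞ Θ) (hinj : Function.Injective Θ)
    (hsurj : Function.Surjective Θ) (F : DiffM n N r) (hF : ∀ x y, F (Θ (x, y)) = Θ (f x, g y))
    (hst : CStar n N r F) :
    Q263.HS.AxiomA (V k) g.toHomeomorph ∧ Pool.Agent.H728R2.OS.NoCycle g.toHomeomorph ∧
      CycPer g.toHomeomorph := by
  have hM : Nonempty M := sp1_nonempty hh'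
  have hY := compact_factor hΘ hinj hsurj
  have hcf : Continuous (f : M → M) := f.contMDiff.continuous
  refine one_factor hr g hcf hh' (swap_local hΘ) (hinj.comp Prod.swap_injective) F
    (fun y x _ => ?_) hst
  exact hF x y

/-- the product -/
theorem product_u3 {m k n : ℕ} {M : Type v} [MetricSpace M] [CompactSpace M]
    [ChartedSpace (V m) M] [IsManifold (𝓡 m) ∞ M] {Y : Type w} [MetricSpace Y]
    [ChartedSpace (V k) Y] [IsManifold (𝓡 k) ∞ Y] {N : Type u}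
    [MetricSpace N] [CompactSpace N] [ChartedSpace (V n) N] [IsManifold (𝓡 n) ∞ N] {r : ℕ∞}
    (hr : 1 ≤ r) (f : DiffM m M r) (g : DiffM k Y r) {Θ : M × Y → N}
    (hΘ : IsLocalDiffeomorph ((𝓡 m).prod (𝓡 k)) (𝓡 n) ∞ Θ) (hinj : Function.Injective Θ)
    (hsurj : Function.Surjective Θ) (F : DiffM n N r) (hF : ∀ x y, F (Θ (x, y)) = Θ (f x, g y))
    (h₁ : Q263.HS.AxiomA (V m) f.toHomeomorph) (h₂ : Q263.HS.AxiomA (V k) g.toHomeomorph)
    (h₃ : CycPer f.toHomeomorph) (h₄ : CycPer g.toHomeomorph) :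
    Q263.HS.AxiomA (V n) F.toHomeomorph ∧ Pool.Agent.H728R2.OS.NoCycle F.toHomeomorph := by
  obtain ⟨h5, h6⟩ := axiomA_prod2 hr f g F hΘ hinj hsurj hF h₁ h₂
  exact ⟨h5, u3_of_cycPer h5 (h6 h₃ h₄)⟩

end Pool.Agent.H245.SK
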