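import Pool.Agent.H245.SK.S6

/-!
# Uniform hyperbolicity from the closed words at normal positions
-/

set_option autoImplicit false
set_option linter.unusedSectionVars false

open Filter Set Metric
open scoped Topology

namespace Pool.Agent.H245.SK

open Pool.Agent.H245.SH

universe u

variable {X : Type u} {E : Type} [NormedAddCommGroup E] [InnerProductSpace ℝ E]
  [FiniteDimensional ℝ E]

/-- no small perturbation has a fixed vector -/
theorem star_of_hl {δ ρ : ℝ} (hδ : 0 < δ) (hδ1 : δ ≤ 1) {W : E ≃L[ℝ] E} (h : HL δ ρ 1 W)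
    {s : ℝ} (h1 : ρ⁻¹ ≤ s) (h2 : s ≤ ρ) (v : E) : δ / 4 * ‖v‖ ≤ ‖s • W v - v‖ := by
  by_contra hcon
  push Not at hcon
  rw [← norm_neg, neg_sub] at hcon
  obtain ⟨e, he, hev⟩ := Coc.exists_near_map hδ hδ1 hcon
  have h3 := h (e : E →L[ℝ] E) (near_norm' hδ.le he) s (by rwa [pow_one]) (by rwa [pow_one])
  have h4 : (s • ((e : E →L[ℝ] E) ∘L (W : E →L[ℝ] E))) v = v := by
    show s • e (W v) = v
    rw [← map_smul]
    exact hev
  have h5 := noOne_fix h3 h4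
  rw [h5, norm_zero, mul_zero] at hcon
  exact absurd hcon (not_lt.2 (norm_nonneg _))
where
  near_norm' {δ : ℝ} (hδ : 0 ≤ δ) {e : E ≃L[ℝ] E} (he : Near δ e) :
      ‖(e : E →L[ℝ] E) - ContinuousLinearMap.id ℝ E‖ ≤ δ :=
    ContinuousLinearMap.opNorm_le_bound _ hδ fun v => he.1 v

variable {c : Coc X E} {δ ρ : ℝ} {N₁ K₀ : ℕ} {NP : X → Prop} {near : X → X → Prop}

/-- **Uniform hyperbolicity.** -/
theorem ClN.uniform (h : ClN c δ ρ N₁ NP near) (hδ : 0 < δ) (hδ1 : δ ≤ 1) (hρ : 1 < ρ)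
    (hper : ∀ x, ∃ n, 1 ≤ n ∧ c.f^[n] x = x) (hnr : ∀ x, ∃ a ≤ K₀, NP (c.f^[a] x)) {K : ℕ}
    (col : X → Fin K) (hcol : ∀ x y, NP x → NP y → (∃ s, c.f^[s] x = y) → col x = col y → near x y) :
    ∃ C₇ ≥ 1, ∃ q : ℝ, 0 < q ∧ q < 1 ∧ ∀ x, IsCompl (c.Bd x) (c.inv.Bd x) ∧
      (∀ v ∈ c.Bd x, ∀ n, ‖c.word x (ids E) n v‖ ≤ C₇ * q ^ n * ‖v‖) ∧
      ∀ w ∈ c.inv.Bd x, ∀ n, ‖c.inv.word x (ids E) n w‖ ≤ C₇ * q ^ n * ‖w‖ := by
  classical
  obtain ⟨C₄, hC₄, hbd⟩ := h.bounded hδ hδ1 hρ hnr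
  have hcl := h.toCl hδ.le hnr
  have hΛ := c.one_le
  have hB : 1 ≤ c.Λ ^ K₀ := one_le_pow₀ hΛ
  have hB2 : 1 ≤ (c.Λ ^ K₀) ^ 2 := one_le_pow₀ hB
  have hδ'1 : δ / (c.Λ ^ K₀) ^ 2 ≤ 1 := (div_le_one (by positivity)).2 (hδ1.trans hB2)
  have hcompl : ∀ x, IsCompl (c.Bd x) (c.inv.Bd x) := by
    intro x
    obtain ⟨n, hn, hx⟩ := hper x
    exact hcl.compl (by positivity) hδ'1 hρ hn hx
  have hnr' := hnr
  choose nr hnr1 hnr2 using hnr'
  have hpi : ∀ (a : ℕ) (x : X), ∃ n, 1 ≤ n ∧ c.f^[n] (c.f^[a] x) = c.f^[a] x := fun a x => hper _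
  -- the colours
  let C := Fin (K₀ + 1) × Fin K
  let col' : X → Fin (Fintype.card C) := fun x => Fintype.equivFin C
    (⟨nr x, Nat.lt_succ_of_le (hnr1 x)⟩, col (c.f^[nr x] x))
  have hcol' : ∀ x y, col' x = col' y → nr x = nr y ∧ col (c.f^[nr x] x) = col (c.f^[nr y] y) := by
    intro x y hxy
    have h1 := (Fintype.equivFin C).injective hxy
    exact ⟨congrArg (fun q : C => (q.1 : ℕ)) h1, congrArg Prod.snd h1⟩
  obtain ⟨C₅, hC₅⟩ : ∃ C₅, C₅ = (c.Λ ^ K₀) ^ 2 * C₄ := ⟨_, rfl⟩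
  have hC₅1 : 1 ≤ C₅ := by rw [hC₅]; nlinarith
  -- loops between all positions
  have hloop : ∀ x m, col' x = col' (c.f^[m] x) →
      (∀ v ∈ c.Bd x, ‖c.word x (ids E) m v‖ ≤ C₅ * ‖v‖) ∧
      ∀ w ∈ c.inv.Bd x, ‖w‖ ≤ C₅ * ‖c.word x (ids E) m w‖ := by
    intro x m hm
    obtain ⟨y, hy⟩ : ∃ y, y = c.f^[m] x := ⟨_, rfl⟩
    rw [← hy] at hm
    obtain ⟨e1, e2⟩ := hcol' x y hm
    obtain ⟨a, ha⟩ : ∃ a, a = nr x := ⟨_, rfl⟩
    have haK : a ≤ K₀ := by rw [ha]; exact hnr1 x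
    have hNx : NP (c.f^[a] x) := by rw [ha]; exact hnr2 x
    have hNy : NP (c.f^[a] y) := by rw [ha, e1]; exact hnr2 y
    rw [← e1, ← ha] at e2
    have hxy : c.f^[m] (c.f^[a] x) = c.f^[a] y := by
      rw [hy, ← Function.iterate_add_apply, ← Function.iterate_add_apply, add_comm]
    obtain ⟨n, hn, hx⟩ := hpi a x
    have hb := hbd _ n hNx hn hx m (by rw [hxy]; exact hNy) (by
      rw [hxy]
      exact hcol _ _ hNx hNy ⟨m, hxy⟩ e2)
    have hsw : ∀ v, c.word y (ids E) a (c.word x (ids E) m v) =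
        c.word (c.f^[a] x) (ids E) m (c.word x (ids E) a v) := by
      intro v
      rw [hy, ← Coc.word_ids_add, ← Coc.word_ids_add, add_comm]
    have hΛa : c.Λ ^ a ≤ c.Λ ^ K₀ := pow_le_pow_right₀ hΛ haK
    have hw1 : ∀ (z : X) (v : E), ‖c.word z (ids E) a v‖ ≤ c.Λ ^ K₀ * ‖v‖ := fun z v =>
      (c.word_norm z a v).trans (by gcongr)
    have hw2 : ∀ (z : X) (v : E), ‖v‖ ≤ c.Λ ^ K₀ * ‖c.word z (ids E) a v‖ := fun z v =>
      (c.word_norm' z a v).trans (by gcongr)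
    refine ⟨fun v hv => ?_, fun w hw => ?_⟩
    · have h1 := hb.1 _ ((c.word_mem_Bd a).2 hv)
      rw [← hsw] at h1
      calc _ ≤ c.Λ ^ K₀ * ‖c.word y (ids E) a (c.word x (ids E) m v)‖ := hw2 _ _
        _ ≤ c.Λ ^ K₀ * (C₄ * (c.Λ ^ K₀ * ‖v‖)) := by
          gcongr
          exact h1.trans (by gcongr; exact hw1 _ _)
        _ = C₅ * ‖v‖ := by rw [hC₅]; ring
    · have h1 := hb.2 _ ((c.word_mem_inv_Bd a).2 hw)
      rw [← hsw] at h1
      calc _ ≤ c.Λ ^ K₀ * ‖c.word x (ids E) a w‖ := hw2 _ _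
        _ ≤ c.Λ ^ K₀ * (C₄ * (c.Λ ^ K₀ * ‖c.word x (ids E) m w‖)) := by
          gcongr
          exact h1.trans (by gcongr; exact hw1 _ _)
        _ = C₅ * ‖c.word x (ids E) m w‖ := by rw [hC₅]; ring
  -- boundedness
  have hBs : ∀ x, ∀ v ∈ c.Bd x, c.A x v ∈ c.Bd (c.f x) := fun x v hv => c.A_mem_Bd.2 hv
  have hBu : ∀ x, ∀ v ∈ c.inv.Bd x, c.inv.A x v ∈ c.inv.Bd (c.inv.f x) := fun x v hv =>
    c.inv.A_mem_Bd.2 hv
  have hit : ∀ (d : Coc X E) (B : X → Submodule ℝ E), (∀ x, ∀ v ∈ B x, d.A x v ∈ B (d.f x)) →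
      ∀ x, ∀ v ∈ B x, ∀ i, d.word x (ids E) i v ∈ B (d.f^[i] x) := by
    intro d B hB x v hv i
    induction i with
    | zero => exact hv
    | succ i ih =>
      rw [Function.iterate_succ_apply', Coc.word_ids_succ']
      exact hB _ _ ih
  have hbS := loops_bounded c hBs col' hC₅1 (fun x m hm v hv => (hloop x m hm).1 v hv)
  have hback : ∀ (x : X) (m : ℕ), ∃ y, y = c.inv.f^[m] x ∧ c.f^[m] y = x := by
    intro x m
    exact ⟨_, rfl, (Function.LeftInverse.iterate c.f.apply_symm_apply m) x⟩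
  have hbU := loops_bounded c.inv hBu col' hC₅1 (fun x m hm w hw => by
    obtain ⟨y, hy, hfy⟩ := hback x m
    rw [← hy] at hm
    have h2 := (hloop y m (by rw [hfy]; exact hm.symm)).2 (c.inv.word x (ids E) m w) (by
      have h3 := (c.inv.word_mem_Bd (x := x) (v := w) m).2 hw
      rwa [← hy] at h3)
    have h5 := Coc.inv_word_cancel (c := c) x m w
    have h6 : c.f.symm^[m] x = y := hy.symm
    rw [h6] at h5
    rw [h5] at h2
    exact h2)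
  have hC6 : 1 ≤ (C₅ * c.Λ) ^ Fintype.card C := one_le_pow₀ (by nlinarith)
  -- the star condition
  have hHL : ∀ x m, NP x → NP (c.f^[m] x) → N₁ ≤ m → col x = col (c.f^[m] x) →
      HL δ ρ 1 (c.word x (ids E) m) := by
    intro x m hx hy hm hxy
    obtain ⟨n, hn, hxn⟩ := hper x
    have hn' : N₁ ≤ n * (N₁ + 1) := by
      have : N₁ + 1 ≤ n * (N₁ + 1) := Nat.le_mul_of_pos_left _ hn
      omega
    exact (h.three x _ _ m hx hy (c.iter_mul hxn (N₁ + 1)) rfl hn' hm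
      (hcol _ _ hx hy ⟨m, rfl⟩ hxy)).1
  have hstar : ∀ x m, NP x → NP (c.f^[m] x) → N₁ ≤ m →
      col x = col (c.f^[m] x) → ∀ s, ρ⁻¹ ≤ s → s ≤ ρ → ∀ v,
        δ / 8 * ‖v‖ ≤ ‖s • c.word x (ids E) m v - v‖ := by
    intro x m hx hy hm hxy s h1 h2 v
    have h3 := star_of_hl hδ hδ1 (hHL x m hx hy hm hxy) h1 h2 v
    have h4 : δ / 8 * ‖v‖ ≤ δ / 4 * ‖v‖ := by
      gcongr
      norm_num
    linarith
  have hρ0 : 0 < ρ := by linarith
  have hstar' : ∀ x m, NP x → NP (c.inv.f^[m] x) → N₁ ≤ m →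
      col x = col (c.inv.f^[m] x) → ∀ s, ρ⁻¹ ≤ s → s ≤ ρ → ∀ v,
        δ / 8 * ‖v‖ ≤ ‖s • c.inv.word x (ids E) m v - v‖ := by
    intro x m hx hy hm hxy s h1 h2 v
    obtain ⟨y, hyd, hfy⟩ := hback x m
    rw [← hyd] at hy hxy
    have hs0 : 0 < s := lt_of_lt_of_le (by positivity) h1
    obtain ⟨z, hz⟩ : ∃ z, z = s • c.inv.word x (ids E) m v := ⟨_, rfl⟩
    have h5 := Coc.inv_word_cancel (c := c) x m v
    have h6 : c.f.symm^[m] x = y := hyd.symm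
    rw [h6] at h5
    have h7 : s⁻¹ • c.word y (ids E) m z = v := by
      rw [hz, map_smul, h5, smul_smul, inv_mul_cancel₀ hs0.ne', one_smul]
    have h3 := star_of_hl hδ hδ1 (hHL y m hy (by rw [hfy]; exact hx) hm (by rw [hfy]; exact hxy.symm))
      (inv_anti₀ hs0 h2) (by
        rw [inv_le_comm₀ hs0 hρ0]
        exact h1) z
    rw [h7] at h3
    rw [← hz, norm_sub_rev]
    have h8 : ‖v‖ ≤ ‖v - z‖ + ‖z‖ := by
      have : v = (v - z) + z := by abel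
      calc ‖v‖ = ‖(v - z) + z‖ := by rw [← this]
        _ ≤ _ := norm_add_le _ _
    have h9 := norm_nonneg (v - z)
    have h10 := norm_nonneg z
    have h11 : δ / 8 * ‖v‖ ≤ δ / 8 * ‖v - z‖ + δ / 8 * ‖z‖ := by
      rw [← mul_add]
      gcongr
    nlinarith
  -- normal positions backwards
  have hnrU : ∀ x, ∃ a ≤ K₀, NP (c.inv.f^[a] x) := by
    intro x
    obtain ⟨y, hyd, hfy⟩ := hback x K₀
    obtain ⟨a, ha, h1⟩ := hnr y
    refine ⟨K₀ - a, Nat.sub_le _ _, ?_⟩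
    have h2 : c.inv.f^[K₀ - a] x = c.f^[a] y := by
      have h3 : c.f^[K₀ - a] (c.f^[a] y) = x := by
        rw [← Function.iterate_add_apply, Nat.sub_add_cancel ha]
        exact hfy
      rw [← h3]
      exact (Function.LeftInverse.iterate c.f.symm_apply_apply (K₀ - a)) _
    rw [h2]
    exact h1
  obtain ⟨C₇, hC₇, q, hq0, hq1, hS⟩ := star_contract c (hit c c.Bd hBs) hC6
    (fun x v hv m => hbS x m v hv) hnr col (by positivity : 0 < δ / 8) hρ hstar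
  obtain ⟨C₈, hC₈, q', hq0', hq1', hU⟩ := star_contract c.inv (hit c.inv c.inv.Bd hBu) hC6
    (fun x v hv m => hbU x m v hv) hnrU col (by positivity : 0 < δ / 8) hρ hstar'
  refine ⟨max C₇ C₈, hC₇.trans (le_max_left _ _), max q q', lt_max_of_lt_left hq0,
    max_lt hq1 hq1', fun x => ⟨hcompl x, fun v hv n => (hS x v hv n).trans ?_,
      fun w hw n => (hU x w hw n).trans ?_⟩⟩
  · gcongr
    · exact le_max_left _ _
    · exact le_max_left _ _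
  · gcongr
    · exact le_max_right _ _
    · exact le_max_right _ _

end Pool.Agent.H245.SK
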