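import Pool.Agent.H245.SK.S1
import Pool.Agent.H245.SK.S7
import Pool.Agent.H245.SH.Y7

/-!
# Paths of blocks with the number of blocks
-/

set_option autoImplicit false
set_option linter.unusedSectionVars false

open scoped Manifold ContDiff Topology NNReal
open Filter Set Metric

universe u v w

namespace Pool.Agent.H245.SK

open Pool.Agent.H718R2.G Pool.Agent.W564.SC Pool.Agent.TH80.OMS Pool.Agent.H245.SH

section

variable {m : ℕ} {M : Type v} [MetricSpace M] [CompactSpace M] [ChartedSpace (V m) M]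
  [IsManifold (𝓡 m) ∞ M]

variable {T : ℕ}

/-- there is a path from `x` to `y` with at least `k` blocks and linear map `W` -/
def PthB (A : FAtlas m M) (f : M → M) (N₀ : ℕ) (a b : Fin T → M) (R : Fin T → V m →L[ℝ] V m)
    (x y : M) (k : ℕ) (W : V m →L[ℝ] V m) : Prop :=
  ∃ bs : List (Fin T × ℕ), (∀ q ∈ bs, N₀ ≤ q.2) ∧ Val f a b x (sym bs) ∧
    endp f b x (sym bs) = y ∧ lin A f b R x (sym bs) = W ∧ k ≤ bs.length

variable {A : FAtlas m M} {f : M → M} {N₀ : ℕ} {a b : Fin T → M} {R : Fin T → V m →L[ℝ] V m}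

theorem PthB.nil (x : M) : PthB A f N₀ a b R x x 0 (ContinuousLinearMap.id ℝ (V m)) :=
  ⟨[], by simp, trivial, rfl, rfl, le_rfl⟩

theorem PthB.trans {x y z : M} {n n' : ℕ} {W W' : V m →L[ℝ] V m}
    (h : PthB A f N₀ a b R x y n W) (h' : PthB A f N₀ a b R y z n' W') :
    PthB A f N₀ a b R x z (n + n') (W' ∘L W) := by
  obtain ⟨bs, h1, h2, h3, h4, h5⟩ := h
  obtain ⟨bs', k1, k2, k3, k4, k5⟩ := h'
  refine ⟨bs ++ bs', fun q hq => ?_, ?_, ?_, ?_, ?_⟩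
  · rcases List.mem_append.1 hq with hq | hq
    · exact h1 q hq
    · exact k1 q hq
  · rw [sym_append]
    exact val_append _ _ _ _ _ _ h2 (by rw [h3]; exact k2)
  · rw [sym_append, endp_append, h3, k3]
  · rw [sym_append, lin_append, h3, h4, k4]
  · rw [List.length_append]
    omega

theorem PthB.pow {x : M} {n : ℕ} {W : V m →L[ℝ] V m} (h : PthB A f N₀ a b R x x n W) (k : ℕ) :
    PthB A f N₀ a b R x x (k * n) (W ^ k) := by
  induction k with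
  | zero =>
    rw [Nat.zero_mul, pow_zero]
    exact PthB.nil x
  | succ k ih =>
    rw [Nat.succ_mul, pow_succ']
    exact ih.trans h

theorem PthB.congr {x y y' : M} {n n' : ℕ} {W W' : V m →L[ℝ] V m}
    (h : PthB A f N₀ a b R x y n W) (hy : y = y') (hn : n' ≤ n) (hW : W = W') :
    PthB A f N₀ a b R x y' n' W' := by
  rw [← hy, ← hW]
  obtain ⟨bs, h1, h2, h3, h4, h5⟩ := h
  exact ⟨bs, h1, h2, h3, h4, hn.trans h5⟩

/-- a path with one block -/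
theorem PthB.block {c : Coc M (V m)} (hc : IsDc A f c) {x : M} {p : ℕ} (hp : N₀ ≤ p) (t : Fin T)
    (ha : f^[p + 1] x = a t) : PthB A f N₀ a b R x (b t) 1
      (R t ∘L (Dm A f (f^[p] x) (b t) ∘L (c.word x (ids (V m)) p : V m →L[ℝ] V m))) := by
  refine ⟨[(t, p)], fun q hq => ?_, ?_, ?_, ?_, ?_⟩
  · rw [List.mem_singleton.1 hq]
    exact hp
  · rw [val_cons]
    exact ⟨ha, val_nil _ _ _⟩
  · rw [endp_cons, endp_nil]
  · refine ContinuousLinearMap.ext fun v => ?_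
    rw [lin_cons hc, lin_nil]
    rfl
  · rfl

/-- the star condition for closed paths -/
theorem KStarB.noOne {ε ρ : ℝ} (h : KStarB T A f N₀ ε ρ) (hρ : 1 < ρ)
    (hab : ∀ t, dist (a t) (b t) < ε)
    (hR : ∀ t, ‖R t - ContinuousLinearMap.id ℝ (V m)‖ < ε) {x : M} {n : ℕ} (hn : 1 ≤ n)
    {W : V m →L[ℝ] V m} (hp : PthB A f N₀ a b R x x n W) {s : ℝ} (hs : (ρ ^ n)⁻¹ ≤ s)
    (hs' : s ≤ ρ ^ n) : NoOne (s • W) := by
  obtain ⟨bs, h1, h2, h3, h4, h5⟩ := hp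
  have h6 : bs ≠ [] := by
    rintro rfl
    simp at h5
    omega
  have h7 : ρ ^ n ≤ ρ ^ bs.length := pow_le_pow_right₀ hρ.le h5
  have h8 : 0 < ρ ^ n := by positivity
  have := h a b R hab hR bs h6 h1 x h2 h3 s ((inv_anti₀ h8 h7).trans hs) (hs'.trans h7)
  rwa [h4] at this

/-- from paths to `HL` -/
theorem hl_pth {ε ρ δ : ℝ} (hρ : 1 < ρ) (hδε : δ < ε) (h : KStarB T A f N₀ ε ρ)
    (hab : ∀ t, dist (a t) (b t) < ε) {Q : (V m →L[ℝ] V m) → Fin T → V m →L[ℝ] V m}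
    (hQ : ∀ R, ‖R - ContinuousLinearMap.id ℝ (V m)‖ ≤ δ → ∀ t,
      ‖Q R t - ContinuousLinearMap.id ℝ (V m)‖ ≤ δ) {x : M} {n : ℕ} (hn : 1 ≤ n)
    {W : V m ≃L[ℝ] V m} (hW : ∀ R, ‖R - ContinuousLinearMap.id ℝ (V m)‖ ≤ δ →
      PthB A f N₀ a b (Q R) x x n (R ∘L (W : V m →L[ℝ] V m))) : HL δ ρ n W := by
  intro R hR s h1 h2
  exact h.noOne hρ hab (fun t => (hQ R hR t).trans_lt hδε) hn (hW R hR) h1 h2

end

section

variable {m : ℕ} {M : Type v} [MetricSpace M] [CompactSpace M] [ChartedSpace (V m) M]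
  [IsManifold (𝓡 m) ∞ M] {A : FAtlas m M} {f : M → M} {ι : Type} {nx : ι ≃ ι} {G : ℕ} {η : ℝ}
  {d : Coc (PX f nx G η) (V m)} {T : ℕ}

/-- **Paths between positions far from the jumps.** -/
theorem path_gen (hd : IsPc A d) {c : Coc M (V m)} (hc : IsDc A f c) {N₀ : ℕ}
    (hG : 2 * N₀ + 1 ≤ G) {a b : Fin T → M} {R : Fin T → V m →L[ℝ] V m} {tp : ι → Fin T}
    (τ : Fin T) : ∀ (p : ℕ) (x : PX f nx G η), Typ x a b R tp → x.i + N₀ < x.ℓ x.j →
    PX.NP N₀ (PX.nxt^[p + 1] x) → N₀ ≤ p → f (PX.nxt^[p] x).pt = a τ →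
    PthB A f N₀ a b R x.pt (b τ) 1 (R τ ∘L (Dm A f (PX.nxt^[p] x).pt (b τ) ∘L
      (d.word x (ids (V m)) p : V m →L[ℝ] V m))) := by
  intro p
  induction p using Nat.strong_induction_on with
  | _ p ih =>
  intro x hT hx hy hp ha
  rcases Nat.lt_or_ge (x.i + p) (x.ℓ x.j) with h | h
  · -- one segment
    rw [PX.pt_iter_lt h] at ha ⊢
    have h1 := PthB.block (A := A) (a := a) (b := b) (R := R) hc (x := x.pt) hp τ
      (by rw [Function.iterate_succ_apply']; exact ha)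
    refine h1.congr rfl le_rfl ?_
    refine ContinuousLinearMap.ext fun v => ?_
    show R τ (Dm A f (f^[p] x.pt) (b τ) (c.word x.pt (ids (V m)) p v)) =
      R τ (Dm A f (f^[p] x.pt) (b τ) (d.word x (ids (V m)) p v))
    rw [hd.word_lt hc h]
  · -- the first block
    obtain ⟨e, he⟩ : ∃ e, x.i + (e + 1) = x.ℓ x.j := ⟨x.ℓ x.j - x.i - 1, by
      have := x.hi
      omega⟩
    have he0 : x.i + e < x.ℓ x.j := by omega
    obtain ⟨k1, k2, k3, k4⟩ := PX.iter_eq he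
    have hlast : (PX.nxt^[e] x).i + 1 = (PX.nxt^[e] x).ℓ (PX.nxt^[e] x).j := by
      obtain ⟨j1, j2, j3, j4⟩ := PX.iter_lt e x he0
      rw [j2, j3, j4]
      omega
    have hpt : (PX.nxt^[e + 1] x).pt = x.z (nx x.j) := by
      rw [Function.iterate_succ_apply', PX.pt_nxt_eq hlast]
      obtain ⟨j1, j2, j3, j4⟩ := PX.iter_lt e x he0
      rw [j1, j3]
    have h1 := PthB.block (A := A) (b := b) (R := R) (N₀ := N₀) hc (x := x.pt) (p := e) (by omega)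
      (tp x.j) (a := a) (by
        rw [hT.a_eq]
        show f^[e + 1] (f^[x.i] (x.z x.j)) = _
        rw [← Function.iterate_add_apply, ← he, add_comm])
    have h2 : PthB A f N₀ a b R x.pt (PX.nxt^[e + 1] x).pt 1
        (d.word x (ids (V m)) (e + 1) : V m →L[ℝ] V m) := by
      refine h1.congr ?_ le_rfl ?_
      · rw [hT.b_eq, hpt]
      · refine ContinuousLinearMap.ext fun v => ?_
        show R (tp x.j) (Dm A f (f^[e] x.pt) (b (tp x.j)) (c.word x.pt (ids (V m)) e v)) =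
          d.word x (ids (V m)) (e + 1) v
        rw [hT.R_eq, hT.b_eq, Coc.word_ids_succ', hd.A_eq, hd.iter, hd.word_lt hc he0,
          ← PX.pt_iter_lt he0, ← Function.iterate_succ_apply' PX.nxt, hpt]
        rfl
    -- the rest
    obtain ⟨q, rfl⟩ : ∃ q, p = e + 1 + q := ⟨p - (e + 1), by omega⟩
    obtain ⟨x', hx'⟩ : ∃ x', x' = PX.nxt^[e + 1] x := ⟨_, rfl⟩
    have hT' : Typ x' a b R tp := by rw [hx']; exact hT.iter _
    have hit : ∀ n, PX.nxt^[e + 1 + n] x = PX.nxt^[n] x' := by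
      intro n
      rw [hx', ← Function.iterate_add_apply, add_comm]
    have hxi : x'.i = 0 := by rw [hx']; exact k4
    have hℓ' := x'.hℓ x'.j
    have hq : N₀ ≤ q := by
      by_contra hcon
      have h3 : x'.i + (q + 1) < x'.ℓ x'.j := by omega
      obtain ⟨j1, j2, j3, j4⟩ := PX.iter_lt (q + 1) x' h3
      rw [show e + 1 + q + 1 = e + 1 + (q + 1) by omega, hit] at hy
      have h4 := hy.1
      rw [j4] at h4
      omega
    rw [show e + 1 + q + 1 = e + 1 + (q + 1) by omega, hit] at hy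
    rw [hit] at ha ⊢
    have h5 := ih q (by omega) x' hT' (by omega) hy hq ha
    rw [← hx'] at h2
    refine (h2.trans h5).congr rfl (by omega) ?_
    refine ContinuousLinearMap.ext fun v => ?_
    show R τ (Dm A f (PX.nxt^[q] x').pt (b τ) (d.word x' (ids (V m)) q
      (d.word x (ids (V m)) (e + 1) v))) = R τ (Dm A f (PX.nxt^[q] x').pt (b τ)
        (d.word x (ids (V m)) (e + 1 + q) v))
    rw [d.word_ids_add x (e + 1) q, hd.iter, ← hx']

/-- paths with a kick at the end -/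
theorem path_to (hd : IsPc A d) {c : Coc M (V m)} (hc : IsDc A f c) {N₀ : ℕ}
    (hG : 2 * N₀ + 1 ≤ G) {a b : Fin T → M} {R : Fin T → V m →L[ℝ] V m} {tp : ι → Fin T}
    (τ : Fin T) {n : ℕ} {x : PX f nx G η} (hT : Typ x a b R tp) (hx : x.i + N₀ < x.ℓ x.j)
    (hn : N₀ + 1 ≤ n) (hy : PX.NP N₀ (PX.nxt^[n] x)) (ha : f (PX.nxt^[n - 1] x).pt = a τ)
    {y : M} (hb : b τ = y) (hj : A.jx y = A.jx (PX.nxt^[n] x).pt) :
    PthB A f N₀ a b R x.pt y 1
      (R τ ∘L (d.word x (ids (V m)) n : V m →L[ℝ] V m)) := by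
  obtain ⟨p, rfl⟩ : ∃ p, n = p + 1 := ⟨n - 1, by omega⟩
  rw [Nat.add_sub_cancel] at ha
  have h1 := path_gen hd hc hG τ p x hT hx hy (by omega) ha
  refine h1.congr hb le_rfl ?_
  refine ContinuousLinearMap.ext fun v => ?_
  show R τ (Dm A f (PX.nxt^[p] x).pt (b τ) (d.word x (ids (V m)) p v)) =
    R τ (d.word x (ids (V m)) (p + 1) v)
  rw [Coc.word_ids_succ', hd.A_eq, hd.iter, hb]
  have h2 : Dm A f (PX.nxt^[p] x).pt y = Dm A f (PX.nxt^[p] x).pt (PX.nxt^[p] x).nxt.pt := by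
    unfold Dm
    rw [hj, Function.iterate_succ_apply' PX.nxt]
  rw [h2]

variable [Fintype ι]

/-- the kinds of the jumps at the ends of the segments -/
noncomputable def tp5 (ι : Type) [Fintype ι] (j : ι) : Fin (Fintype.card ι + 5) :=
  Fin.castAdd 5 (Fintype.equivFin ι j)

/-- the additional kinds -/
def ex5 (ι : Type) [Fintype ι] (k : Fin 5) : Fin (Fintype.card ι + 5) := Fin.natAdd _ k

/-- the jumps, with additional ones -/
noncomputable def a5 (x : PX f nx G η) (a₁ : Fin 5 → M) : Fin (Fintype.card ι + 5) → M :=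
  Fin.append (fun t => f^[x.ℓ ((Fintype.equivFin ι).symm t)] (x.z ((Fintype.equivFin ι).symm t))) a₁

/-- the jumps, with additional ones -/
noncomputable def b5 (x : PX f nx G η) (b₁ : Fin 5 → M) : Fin (Fintype.card ι + 5) → M :=
  Fin.append (fun t => x.z (nx ((Fintype.equivFin ι).symm t))) b₁

/-- the additional kicks -/
noncomputable def R5 (ι : Type) [Fintype ι] (R₁ : Fin 5 → V m →L[ℝ] V m) :
    Fin (Fintype.card ι + 5) → V m →L[ℝ] V m :=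
  Fin.append (fun _ => ContinuousLinearMap.id ℝ (V m)) R₁

theorem a5_ex (x : PX f nx G η) (a₁ : Fin 5 → M) (k : Fin 5) : a5 x a₁ (ex5 ι k) = a₁ k :=
  Fin.append_right _ _ _

theorem b5_ex (x : PX f nx G η) (b₁ : Fin 5 → M) (k : Fin 5) : b5 x b₁ (ex5 ι k) = b₁ k :=
  Fin.append_right _ _ _

theorem R5_ex (R₁ : Fin 5 → V m →L[ℝ] V m) (k : Fin 5) : R5 ι R₁ (ex5 ι k) = R₁ k :=
  Fin.append_right _ _ _

theorem typ5 (x : PX f nx G η) (a₁ b₁ : Fin 5 → M) (R₁ : Fin 5 → V m →L[ℝ] V m) :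
    Typ x (a5 x a₁) (b5 x b₁) (R5 ι R₁) (tp5 ι) := by
  refine ⟨fun j => ?_, fun j => ?_, fun j => ?_⟩
  · unfold a5 tp5
    rw [Fin.append_left, Equiv.symm_apply_apply]
  · unfold b5 tp5
    rw [Fin.append_left, Equiv.symm_apply_apply]
  · unfold R5 tp5
    rw [Fin.append_left]

theorem dist5 {ε : ℝ} (x : PX f nx G η) (hη : η ≤ ε) {a₁ b₁ : Fin 5 → M}
    (h : ∀ k, dist (a₁ k) (b₁ k) < ε) (t : Fin (Fintype.card ι + 5)) :
    dist (a5 x a₁ t) (b5 x b₁ t) < ε := by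
  unfold a5 b5
  induction t using Fin.addCases with
  | left t =>
    rw [Fin.append_left, Fin.append_left]
    exact (x.hη _).trans_le hη
  | right k =>
    rw [Fin.append_right, Fin.append_right]
    exact h k

theorem r5_app {δ : ℝ} (hδ : 0 ≤ δ) {R₁ : Fin 5 → V m →L[ℝ] V m}
    (h : ∀ k, ‖R₁ k - ContinuousLinearMap.id ℝ (V m)‖ ≤ δ) (t : Fin (Fintype.card ι + 5)) :
    ‖R5 ι R₁ t - ContinuousLinearMap.id ℝ (V m)‖ ≤ δ := by
  unfold R5
  induction t using Fin.addCases with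
  | left t =>
    rw [Fin.append_left]
    exact id_bound hδ
  | right k =>
    rw [Fin.append_right]
    exact h k

theorem q5 {δ : ℝ} {e₀ e₁ e₂ e₃ e₄ : V m →L[ℝ] V m}
    (h0 : ‖e₀ - ContinuousLinearMap.id ℝ (V m)‖ ≤ δ) (h1 : ‖e₁ - ContinuousLinearMap.id ℝ (V m)‖ ≤ δ)
    (h2 : ‖e₂ - ContinuousLinearMap.id ℝ (V m)‖ ≤ δ) (h3 : ‖e₃ - ContinuousLinearMap.id ℝ (V m)‖ ≤ δ)
    (h4 : ‖e₄ - ContinuousLinearMap.id ℝ (V m)‖ ≤ δ) (t : Fin 5) :
    ‖(![e₀, e₁, e₂, e₃, e₄] : Fin 5 → V m →L[ℝ] V m) t - ContinuousLinearMap.id ℝ (V m)‖ ≤ δ := by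
  fin_cases t
  · exact h0
  · exact h1
  · exact h2
  · exact h3
  · exact h4

/-- the data of the closed words at a pseudo-orbit -/
structure DatB (A : FAtlas m M) (d : Coc (PX f nx G η) (V m)) (c : Coc M (V m)) (N₀ : ℕ)
    (ε ρ δ : ℝ) : Prop where
  hd : IsPc A d
  hc : IsDc A f c
  hG : 2 * N₀ + 1 ≤ G
  h : KStarB (Fintype.card ι + 5) A f N₀ ε ρ
  hρ : 1 < ρ
  hδ : 0 < δ
  hδε : δ < ε
  hη : 0 < η
  hηε : η ≤ ε

variable {c : Coc M (V m)} {N₀ : ℕ} {ε ρ δ : ℝ}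

/-- paths with additional kicks at the end -/
theorem DatB.path (D : DatB A d c N₀ ε ρ δ) {x₀ : PX f nx G η} {a₁ b₁ : Fin 5 → M}
    {R₁ : Fin 5 → V m →L[ℝ] V m} (k : Fin 5) {x y : PX f nx G η}
    (hT : Typ x (a5 x₀ a₁) (b5 x₀ b₁) (R5 ι R₁) (tp5 ι)) {n : ℕ} (hxy : PX.nxt^[n] x = y)
    (hx : PX.NP N₀ x) (hy : PX.NP N₀ y) (hn : N₀ + 1 ≤ n) (ha : a₁ k = y.arr) {z : M}
    (hb : b₁ k = z) (hj : A.jx z = A.jx y.pt) :
    PthB A f N₀ (a5 x₀ a₁) (b5 x₀ b₁) (R5 ι R₁) x.pt z 1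
      (R₁ k ∘L (d.word x (ids (V m)) n : V m →L[ℝ] V m)) := by
  obtain ⟨p, rfl⟩ : ∃ p, n = p + 1 := ⟨n - 1, by omega⟩
  have h1 := path_to D.hd D.hc D.hG (ex5 ι k) hT hx.2 hn (by rw [hxy]; exact hy) (by
    rw [Nat.add_sub_cancel, PX.prv_of hxy, a5_ex, ha]
    rfl) (by rw [b5_ex, hb]) (by rw [hxy]; exact hj)
  rw [R5_ex] at h1
  exact h1

/-- `HL` from closed paths -/
theorem DatB.hl (D : DatB A d c N₀ ε ρ δ) (x₀ : PX f nx G η) {a₁ b₁ : Fin 5 → M}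
    (hab : ∀ k, dist (a₁ k) (b₁ k) < ε) {Q : (V m →L[ℝ] V m) → Fin 5 → V m →L[ℝ] V m}
    (hQ : ∀ R, ‖R - ContinuousLinearMap.id ℝ (V m)‖ ≤ δ → ∀ t,
      ‖Q R t - ContinuousLinearMap.id ℝ (V m)‖ ≤ δ) {x : M} {n : ℕ} (hn : 1 ≤ n)
    {W : V m ≃L[ℝ] V m} (hW : ∀ R, ‖R - ContinuousLinearMap.id ℝ (V m)‖ ≤ δ →
      PthB A f N₀ (a5 x₀ a₁) (b5 x₀ b₁) (R5 ι (Q R)) x x n (R ∘L (W : V m →L[ℝ] V m))) :
    HL δ ρ n W :=
  hl_pth D.hρ D.hδε D.h (dist5 x₀ D.hηε hab) (Q := fun R => R5 ι (Q R))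
    (fun R hR => r5_app D.hδ.le (hQ R hR)) hn hW

end

end Pool.Agent.H245.SK
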