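import Pool.Agent.H245.SK.S2

/-!
# Closed pseudo-orbits are uniformly hyperbolic
-/

set_option autoImplicit false
set_option linter.unusedSectionVars false

open scoped Manifold ContDiff Topology NNReal
open Filter Set Metric

universe u v w

namespace Pool.Agent.H245.SK

open Pool.Agent.H718R2.G Pool.Agent.W564.SC Pool.Agent.TH80.OMS Pool.Agent.H245.SH

section

variable {m : ℕ} {M : Type v} [MetricSpace M] [CompactSpace M] [ChartedSpace (V m) M]
  [IsManifold (𝓡 m) ∞ M]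

theorem PthB.pw {T : ℕ} {A : FAtlas m M} {f : M → M} {N₀ : ℕ} {a b : Fin T → M}
    {R : Fin T → V m →L[ℝ] V m} {x : M} {W : V m ≃L[ℝ] V m} {R' : V m →L[ℝ] V m}
    (h : PthB A f N₀ a b R x x 1 (ContinuousLinearMap.id ℝ (V m) ∘L (W : V m →L[ℝ] V m)))
    (h' : PthB A f N₀ a b R x x 1 (R' ∘L (W : V m →L[ℝ] V m))) {k : ℕ} (hk : 1 ≤ k) :
    PthB A f N₀ a b R x x k (R' ∘L ((W ^ k : V m ≃L[ℝ] V m) : V m →L[ℝ] V m)) := by
  obtain ⟨k, rfl⟩ : ∃ l, k = l + 1 := ⟨k - 1, by omega⟩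
  refine ((h.pow k).trans h').congr rfl (by omega) ?_
  rw [ContinuousLinearMap.id_comp, coe_pow, pow_succ']
  rfl

theorem PthB.pw0 {T : ℕ} {A : FAtlas m M} {f : M → M} {N₀ : ℕ} {a b : Fin T → M}
    {R : Fin T → V m →L[ℝ] V m} {x : M} {W : V m ≃L[ℝ] V m}
    (h : PthB A f N₀ a b R x x 1 (ContinuousLinearMap.id ℝ (V m) ∘L (W : V m →L[ℝ] V m)))
    (k : ℕ) : PthB A f N₀ a b R x x k ((W ^ k : V m ≃L[ℝ] V m) : V m →L[ℝ] V m) := by
  refine (h.pow k).congr rfl (by omega) ?_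
  rw [ContinuousLinearMap.id_comp, coe_pow]

variable {A : FAtlas m M} {f : M → M} {ι : Type} [Fintype ι] {nx : ι ≃ ι} {G : ℕ}
  {η : ℝ} {d : Coc (PX f nx G η) (V m)} {c : Coc M (V m)} {N₀ : ℕ} {ε ρ δ : ℝ}

theorem DatB.one (D : DatB A d c N₀ ε ρ δ) {x : PX f nx G η} {n : ℕ} (hx : d.f^[n] x = x)
    (hnp : PX.NP N₀ x) (hn : N₀ + 1 ≤ n) : Loop δ ρ (d.word x (ids (V m)) n) := by
  have hx' : PX.nxt^[n] x = x := by rw [← D.hd.iter]; exact hx
  have hpath : ∀ (R₁ : Fin 5 → V m →L[ℝ] V m) (k : Fin 5),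
      PthB A f N₀ (a5 x fun _ => x.arr) (b5 x fun _ => x.pt) (R5 ι R₁) x.pt x.pt 1
        (R₁ k ∘L (d.word x (ids (V m)) n : V m →L[ℝ] V m)) := fun R₁ k =>
    D.path k (typ5 x _ _ _) hx' hnp hnp hn rfl rfl rfl
  refine ⟨fun k hk => ?_, fun k l hk hl e he => ?_⟩
  · refine D.hl x (a₁ := fun _ => x.arr) (b₁ := fun _ => x.pt)
      (fun _ => (x.dist_arr D.hη).trans_le D.hηε)
      (Q := fun R => ![ContinuousLinearMap.id ℝ (V m), ContinuousLinearMap.id ℝ (V m), R,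
        ContinuousLinearMap.id ℝ (V m), ContinuousLinearMap.id ℝ (V m)])
      (fun R hR => q5 (id_bound D.hδ.le) (id_bound D.hδ.le) hR (id_bound D.hδ.le)
        (id_bound D.hδ.le)) (x := x.pt) hk fun R hR => ?_
    exact (hpath _ 3).pw (hpath _ 2) hk
  · refine D.hl x (a₁ := fun _ => x.arr) (b₁ := fun _ => x.pt)
      (fun _ => (x.dist_arr D.hη).trans_le D.hηε)
      (Q := fun R => ![(e : V m →L[ℝ] V m), ContinuousLinearMap.id ℝ (V m), R,
        ContinuousLinearMap.id ℝ (V m), ContinuousLinearMap.id ℝ (V m)])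
      (fun R hR => q5 (near_norm D.hδ.le he) (id_bound D.hδ.le) hR (id_bound D.hδ.le)
        (id_bound D.hδ.le)) (x := x.pt) (by omega) fun R hR => ?_
    exact ((hpath _ 3).pw (hpath _ 0) hk).trans ((hpath _ 3).pw (hpath _ 2) hl)

theorem DatB.two (D : DatB A d c N₀ ε ρ δ) {x y : PX f nx G η} {p l : ℕ}
    (hxy : d.f^[p] x = y) (hyx : d.f^[l] y = x) (hnx : PX.NP N₀ x) (hny : PX.NP N₀ y)
    (hp : N₀ + 1 ≤ p) (hl : N₀ + 1 ≤ l) {e₁ e₂ : V m ≃L[ℝ] V m}
    (he₁ : Near δ e₁) (he₂ : Near δ e₂) {i j : ℕ} (hi : 1 ≤ i) :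
    HL δ ρ (i + 1 + j) (d.word x (ids (V m)) (p + l) ^ j *
      (d.word y (ids (V m)) l * e₂ * d.word x (ids (V m)) p * e₁) *
        d.word x (ids (V m)) (p + l) ^ i) := by
  have hx : d.f^[p + l] x = x := by
    rw [add_comm, Function.iterate_add_apply, hxy, hyx]
  have hy : d.f^[p + l] y = y := by
    rw [Function.iterate_add_apply, hyx, hxy]
  have hx' : PX.nxt^[p + l] x = x := by rw [← D.hd.iter]; exact hx
  have hy' : PX.nxt^[p + l] y = y := by rw [← D.hd.iter]; exact hy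
  have hxy' : PX.nxt^[p] x = y := by rw [← D.hd.iter]; exact hxy
  have hyx' : PX.nxt^[l] y = x := by rw [← D.hd.iter]; exact hyx
  refine HL.less D.hρ (N := i + 1 + j + 1) ?_ (by omega)
  refine D.hl x (a₁ := ![x.arr, y.arr, x.arr, x.arr, y.arr]) (b₁ := ![x.pt, y.pt, x.pt, x.pt, y.pt])
    (fun k => by
      fin_cases k
      · exact (x.dist_arr D.hη).trans_le D.hηε
      · exact (y.dist_arr D.hη).trans_le D.hηε
      · exact (x.dist_arr D.hη).trans_le D.hηε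
      · exact (x.dist_arr D.hη).trans_le D.hηε
      · exact (y.dist_arr D.hη).trans_le D.hηε)
    (Q := fun R => ![(e₁ : V m →L[ℝ] V m), (e₂ : V m →L[ℝ] V m), R,
      ContinuousLinearMap.id ℝ (V m), ContinuousLinearMap.id ℝ (V m)])
    (fun R hR => q5 (near_norm D.hδ.le he₁) (near_norm D.hδ.le he₂) hR (id_bound D.hδ.le)
      (id_bound D.hδ.le)) (x := x.pt) (by omega) fun R hR => ?_
  have hTx := typ5 x ![x.arr, y.arr, x.arr, x.arr, y.arr] ![x.pt, y.pt, x.pt, x.pt, y.pt]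
    (![(e₁ : V m →L[ℝ] V m), (e₂ : V m →L[ℝ] V m), R,
      ContinuousLinearMap.id ℝ (V m), ContinuousLinearMap.id ℝ (V m)])
  have hTy := hTx.iter p
  rw [hxy'] at hTy
  have h0 := D.path 0 hTx hx' hnx hnx (by omega) rfl rfl rfl
  have h3 := D.path 3 hTx hx' hnx hnx (by omega) rfl rfl rfl
  have h1 := D.path 1 hTx hxy' hnx hny hp rfl rfl rfl
  have h4 := D.path 4 hTy hy' hny hny (by omega) rfl rfl rfl
  have h2 := D.path 2 hTy hyx' hny hnx hl rfl rfl rfl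
  have hj : (x.pt = (![x.pt, y.pt, x.pt, x.pt, y.pt] : Fin 5 → M) 0) := rfl
  have k1 := PthB.pw (R' := (e₁ : V m →L[ℝ] V m)) h3 h0 hi
  have k2 := (((k1.trans h1).trans (PthB.pw0 h4 j))).trans h2
  refine k2.congr rfl (by omega) ?_
  refine ContinuousLinearMap.ext fun v => ?_
  show R (d.word y (ids (V m)) l ((d.word y (ids (V m)) (p + l) ^ j) (e₂ (d.word x (ids (V m)) p
    (e₁ ((d.word x (ids (V m)) (p + l) ^ i) v)))))) = R ((d.word x (ids (V m)) (p + l) ^ j)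
      (d.word y (ids (V m)) l (e₂ (d.word x (ids (V m)) p
        (e₁ ((d.word x (ids (V m)) (p + l) ^ i) v))))))
  have h5 : ∀ u, d.word y (ids (V m)) l ((d.word y (ids (V m)) (p + l) ^ j) u) =
      (d.word x (ids (V m)) (p + l) ^ j) (d.word y (ids (V m)) l u) := by
    intro u
    have e1 := d.word_ids_add y ((p + l) * j) l u
    have e2 := d.word_ids_add y l ((p + l) * j) u
    rw [d.iter_mul hy, d.word_mul hy] at e1
    rw [hyx, d.word_mul hx] at e2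
    rw [← e1, ← e2, add_comm]
  rw [h5]

theorem DatB.three (D : DatB A d c N₀ ε ρ δ)
    {x y : PX f nx G η} {n n' : ℕ} (hx : d.f^[n] x = x) (hxy : d.f^[n'] x = y)
    (hnx : PX.NP N₀ x) (hny : PX.NP N₀ y) (hn : N₀ + 1 ≤ n) (hn' : N₀ + 1 ≤ n')
    (hnear : dist y.arr x.pt < ε) (hj : A.jx x.pt = A.jx y.pt) :
    HL δ ρ 1 (d.word x (ids (V m)) n') ∧
      (∀ k l, 1 ≤ k + l → HL δ ρ (l + k)
        (d.word x (ids (V m)) n ^ k * d.word x (ids (V m)) n' ^ l)) ∧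
      ∀ k l, 1 ≤ k + l → HL δ ρ (k + l)
        (d.word x (ids (V m)) n' ^ l * d.word x (ids (V m)) n ^ k) := by
  have hε : 0 < ε := D.hδ.trans D.hδε
  have hx' : PX.nxt^[n] x = x := by rw [← D.hd.iter]; exact hx
  have hxy' : PX.nxt^[n'] x = y := by rw [← D.hd.iter]; exact hxy
  set a₁ : Fin 5 → M := ![y.arr, y.arr, x.arr, x.arr, x.arr] with ha₁
  set b₁ : Fin 5 → M := fun _ => x.pt with hb₁
  have hab : ∀ t, dist (a₁ t) (b₁ t) < ε := by
    intro t
    fin_cases t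
    · exact hnear
    · exact hnear
    · exact (x.dist_arr D.hη).trans_le D.hηε
    · exact (x.dist_arr D.hη).trans_le D.hηε
    · exact (x.dist_arr D.hη).trans_le D.hηε
  set Q : (V m →L[ℝ] V m) → Fin 5 → V m →L[ℝ] V m :=
    fun R => ![ContinuousLinearMap.id ℝ (V m), R, R, ContinuousLinearMap.id ℝ (V m),
      ContinuousLinearMap.id ℝ (V m)] with hQ
  have hQb : ∀ R, ‖R - ContinuousLinearMap.id ℝ (V m)‖ ≤ δ → ∀ t,
      ‖Q R t - ContinuousLinearMap.id ℝ (V m)‖ ≤ δ := fun R hR =>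
    q5 (id_bound D.hδ.le) hR hR (id_bound D.hδ.le) (id_bound D.hδ.le)
  have hT : ∀ R, Typ x (a5 x a₁) (b5 x b₁) (R5 ι (Q R)) (tp5 ι) := fun R => typ5 x _ _ _
  have hW0 : ∀ R, PthB A f N₀ (a5 x a₁) (b5 x b₁) (R5 ι (Q R)) x.pt x.pt 1
      (ContinuousLinearMap.id ℝ (V m) ∘L (d.word x (ids (V m)) n' : V m →L[ℝ] V m)) := fun R =>
    D.path 0 (hT R) hxy' hnx hny hn' rfl rfl hj
  have hW1 : ∀ R, PthB A f N₀ (a5 x a₁) (b5 x b₁) (R5 ι (Q R)) x.pt x.pt 1
      (R ∘L (d.word x (ids (V m)) n' : V m →L[ℝ] V m)) := fun R =>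
    D.path 1 (hT R) hxy' hnx hny hn' rfl rfl hj
  have hM2 : ∀ R, PthB A f N₀ (a5 x a₁) (b5 x b₁) (R5 ι (Q R)) x.pt x.pt 1
      (R ∘L (d.word x (ids (V m)) n : V m →L[ℝ] V m)) := fun R =>
    D.path 2 (hT R) hx' hnx hnx hn rfl rfl rfl
  have hM3 : ∀ R, PthB A f N₀ (a5 x a₁) (b5 x b₁) (R5 ι (Q R)) x.pt x.pt 1
      (ContinuousLinearMap.id ℝ (V m) ∘L (d.word x (ids (V m)) n : V m →L[ℝ] V m)) := fun R =>
    D.path 3 (hT R) hx' hnx hnx hn rfl rfl rfl
  refine ⟨D.hl x hab hQb le_rfl fun R _ => hW1 R, fun k l hkl => ?_, fun k l hkl => ?_⟩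
  · rcases Nat.eq_zero_or_pos k with rfl | hk
    · rw [pow_zero, one_mul, add_zero]
      exact D.hl x hab hQb (by omega) fun R _ => (hW0 R).pw (hW1 R) (by omega)
    · exact D.hl x hab hQb (by omega) fun R _ => ((hW0 R).pw0 l).trans ((hM3 R).pw (hM2 R) hk)
  · rcases Nat.eq_zero_or_pos l with rfl | hl
    · rw [pow_zero, one_mul, add_zero]
      exact D.hl x hab hQb (by omega) fun R _ => (hM3 R).pw (hM2 R) (by omega)
    · exact D.hl x hab hQb (by omega) fun R _ => ((hM3 R).pw0 k).trans ((hW0 R).pw (hW1 R) hl)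

/-- **The closed pseudo-orbits are uniformly hyperbolic.** -/
theorem DatB.uniform (D : DatB A d c N₀ ε ρ δ) (hδ1 : δ ≤ 1) :
    ∃ C₇ ≥ 1, ∃ q : ℝ, 0 < q ∧ q < 1 ∧ ∀ x : PX f nx G η, IsCompl (d.Bd x) (d.inv.Bd x) ∧
      (∀ v ∈ d.Bd x, ∀ n, ‖d.word x (ids (V m)) n v‖ ≤ C₇ * q ^ n * ‖v‖) ∧
      ∀ w ∈ d.inv.Bd x, ∀ n, ‖d.inv.word x (ids (V m)) n w‖ ≤ C₇ * q ^ n * ‖w‖ := by
  classical
  have hε : 0 < ε := D.hδ.trans D.hδε
  -- the colours
  obtain ⟨t, ht, hcov⟩ := Metric.totallyBounded_iff.1 (isCompact_univ (X := M)).totallyBounded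
    (ε / 2) (by positivity)
  have hcov' : ∀ x : M, ∃ y : t, dist x y < ε / 2 := by
    intro x
    obtain ⟨y, hy, hxy⟩ := Set.mem_iUnion₂.1 (hcov (Set.mem_univ x))
    exact ⟨⟨y, hy⟩, hxy⟩
  choose col0 hcol0 using hcov'
  have : Finite t := ht
  have : Fintype t := Fintype.ofFinite t
  let C := (t × Fin A.J) ⊕ ι
  let cls : PX f nx G η → C := fun x =>
    if x.i = 0 then Sum.inr x.j else Sum.inl (col0 x.pt, A.jx x.pt)
  have h : ClN d δ ρ (N₀ + 1) (PX.NP N₀)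
      (fun x y => dist y.arr x.pt < ε ∧ A.jx x.pt = A.jx y.pt) := by
    refine ⟨fun x n hnp hx hn => D.one hx hnp hn, ?_, ?_⟩
    · intro x y p l hnx hny hxy hyx hp hl e₁ e₂ he₁ he₂ i j hi
      exact D.two hxy hyx hnx hny hp hl he₁ he₂ hi
    · intro x y n n' hnx hny hx hxy hn hn' hnear
      exact D.three hx hxy hnx hny hn hn' hnear.1 hnear.2
  refine h.uniform D.hδ hδ1 D.hρ (K₀ := N₀) (fun x => ?_) (fun x => ?_) (K := Fintype.card C)
    (fun x => Fintype.equivFin C (cls x)) ?_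
  · obtain ⟨n, hn, hx⟩ := x.periodic
    exact ⟨n, hn, by rw [D.hd.iter]; exact hx⟩
  · exact ⟨PX.nr N₀ x, x.nr_le N₀, by rw [D.hd.iter]; exact x.np_nr D.hG⟩
  · rintro x y - - ⟨s, hs⟩ hxy
    have h3 : cls x = cls y := (Fintype.equivFin C).injective hxy
    rw [D.hd.iter] at hs
    obtain ⟨z1, z2⟩ := x.iter_zl s
    rw [hs] at z1 z2
    by_cases hx0 : x.i = 0
    · by_cases hy0 : y.i = 0
      · have h4 : cls x = Sum.inr x.j := if_pos hx0
        have h5 : cls y = Sum.inr y.j := if_pos hy0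
        rw [h4, h5] at h3
        have h6 : x.j = y.j := Sum.inr.inj h3
        have h7 : x = y := PX.ext z1.symm z2.symm h6 (hx0.trans hy0.symm)
        rw [h7]
        exact ⟨(y.dist_arr D.hη).trans_le D.hηε, rfl⟩
      · have h4 : cls x = Sum.inr x.j := if_pos hx0
        have h5 : cls y = Sum.inl (col0 y.pt, A.jx y.pt) := if_neg hy0
        rw [h4, h5] at h3
        exact absurd h3 (by simp)
    · by_cases hy0 : y.i = 0
      · have h4 : cls x = Sum.inl (col0 x.pt, A.jx x.pt) := if_neg hx0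
        have h5 : cls y = Sum.inr y.j := if_pos hy0
        rw [h4, h5] at h3
        exact absurd h3 (by simp)
      · have h4 : cls x = Sum.inl (col0 x.pt, A.jx x.pt) := if_neg hx0
        have h5 : cls y = Sum.inl (col0 y.pt, A.jx y.pt) := if_neg hy0
        rw [h4, h5] at h3
        have h6 := Sum.inl.inj h3
        have h6a : col0 x.pt = col0 y.pt := congrArg Prod.fst h6
        have h6b : A.jx x.pt = A.jx y.pt := congrArg Prod.snd h6
        refine ⟨?_, h6b⟩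
        have h7 := hcol0 x.pt
        have h8 := hcol0 y.pt
        rw [← h6a] at h8
        rw [PX.arr_eq (Nat.pos_of_ne_zero hy0)]
        calc dist y.pt x.pt ≤ dist y.pt (col0 x.pt) +
              dist x.pt (col0 x.pt) := dist_triangle_right _ _ _
          _ < ε := by linarith

end

end Pool.Agent.H245.SK
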