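import Pool.Agent.H245.SH.V6

/-!
# A matrix with robustly no eigenvalues of modulus one: splitting by the index
-/

set_option autoImplicit false
set_option linter.unusedSectionVars false

open Filter Set Metric Polynomial
open scoped Topology

namespace Pool.Agent.H245.SK

open Pool.Agent.H245.SH

theorem roots_smul {ι : Type} [Fintype ι] [DecidableEq ι] (B : Matrix ι ι ℂ) {τ : ℂ} (hτ : τ ≠ 0) :
    (τ • B).charpoly.roots = B.charpoly.roots.map fun l => τ * l := by
  have hcard : B.charpoly.roots.card = Fintype.card ι := by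
    rw [← Matrix.charpoly_natDegree_eq_dim B]
    exact (IsAlgClosed.splits _).natDegree_eq_card_roots.symm
  have h1 : (τ • B).charpoly = (B.charpoly.roots.map fun l => X - C (τ * l)).prod := by
    apply Polynomial.funext
    intro w
    have h2 := det_aeval B (X - C (w / τ)) (monic_X_sub_C _)
    have h3 : Matrix.scalar ι w - τ • B = (-τ) • (aeval B (X - C (w / τ))) := by
      rw [map_sub, aeval_X, aeval_C, smul_sub, neg_smul, neg_smul]
      have h4 : (algebraMap ℂ (Matrix ι ι ℂ)) (w / τ) = Matrix.scalar ι (w / τ) := rfl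
      rw [h4]
      have h5 : τ • Matrix.scalar ι (w / τ) = Matrix.scalar ι w := by
        ext i j
        rw [Matrix.smul_apply, Matrix.scalar_apply, Matrix.scalar_apply, Matrix.diagonal_apply,
          Matrix.diagonal_apply]
        split_ifs
        · rw [smul_eq_mul, mul_div_cancel₀ _ hτ]
        · exact smul_zero _
      rw [h5]
      abel
    rw [Matrix.eval_charpoly, h3, Matrix.det_smul, h2, ← hcard, eval_multiset_prod,
      Multiset.map_map]
    have h6 : ∀ s : Multiset ℂ, (-τ) ^ s.card * (s.map fun l => (X - C (w / τ)).eval l).prod =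
        (s.map (eval w ∘ fun l => X - C (τ * l))).prod := by
      intro s
      induction s using Multiset.induction_on with
      | empty => simp
      | cons a s ih =>
        rw [Multiset.card_cons, Multiset.map_cons, Multiset.prod_cons, Multiset.map_cons,
          Multiset.prod_cons, ← ih, pow_succ]
        simp only [Function.comp_apply, eval_sub, eval_X, eval_C]
        have : w - τ * a = (-τ) * (a - w / τ) := by
          field_simp
          ring
        rw [this]
        ring
    exact h6 _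
  rw [h1]
  have h6 := Polynomial.roots_multiset_prod_X_sub_C (B.charpoly.roots.map fun l => τ * l)
  rw [Multiset.map_map] at h6
  exact h6

variable {E : Type} [NormedAddCommGroup E] [InnerProductSpace ℝ E] [FiniteDimensional ℝ E]

theorem idx_smul_le (A : E →L[ℝ] E) {τ : ℝ} (hτ : 1 ≤ τ) : idx A ≤ idx (τ • A) := by
  have b := Module.finBasis ℝ E
  have h1 : (cp (τ • A)).roots = (cp A).roots.map fun l => (τ : ℂ) * l := by
    rw [cp_matrix b, cp_matrix b]
    have h2 : LinearMap.toMatrix b b ((τ • A : E →L[ℝ] E) : E →ₗ[ℝ] E) =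
        τ • LinearMap.toMatrix b b (A : E →ₗ[ℝ] E) := map_smul _ _ _
    have h3 : (τ • LinearMap.toMatrix b b (A : E →ₗ[ℝ] E)).map (algebraMap ℝ ℂ) =
        (τ : ℂ) • (LinearMap.toMatrix b b (A : E →ₗ[ℝ] E)).map (algebraMap ℝ ℂ) := by
      ext i j
      simp
    rw [h2, h3]
    exact roots_smul _ (by
      have : τ ≠ 0 := by linarith
      exact_mod_cast this)
  unfold idx
  rw [h1, Multiset.filter_map, Multiset.card_map]
  apply Multiset.card_le_card
  apply Multiset.monotone_filter_right
  intro z hz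
  show 1 < ‖(τ : ℂ) * z‖
  rw [norm_mul, Complex.norm_real, Real.norm_of_nonneg (by linarith)]
  nlinarith

theorem idx_le (A : E →L[ℝ] E) : idx A ≤ Module.finrank ℝ E := by
  unfold idx
  rw [← cp_card_roots A]
  exact Multiset.card_le_card (Multiset.filter_le _ _)

theorem finrank_SI {ι : Type} [Fintype ι] (b : OrthonormalBasis ι ℝ E) (I : Finset ι) :
    Module.finrank ℝ (SI b (I : Set ι)) = I.card := by
  classical
  have hn : Fintype.card ι = Module.finrank ℝ E := by
    rw [Module.finrank_eq_card_basis b.toBasis]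
  have h1 : I.card ≤ Module.finrank ℝ (SI b (I : Set ι)) := by
    have hli : LinearIndependent ℝ (fun i : I => b i) :=
      b.orthonormal.linearIndependent.comp _ Subtype.val_injective
    have h2 := finrank_span_eq_card hli
    rw [Fintype.card_coe] at h2
    rw [← h2]
    apply Submodule.finrank_mono
    rw [Submodule.span_le]
    rintro _ ⟨i, rfl⟩
    exact basis_mem_SI b i.2
  have h2 : Iᶜ.card ≤ Module.finrank ℝ (SI b (I : Set ι))ᗮ := by
    have hli : LinearIndependent ℝ (fun i : (Iᶜ : Finset ι) => b i) :=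
      b.orthonormal.linearIndependent.comp _ Subtype.val_injective
    have h2 := finrank_span_eq_card hli
    rw [Fintype.card_coe] at h2
    rw [← h2]
    apply Submodule.finrank_mono
    rw [Submodule.span_le]
    rintro _ ⟨i, rfl⟩
    rw [SetLike.mem_coe, Submodule.mem_orthogonal]
    intro u hu
    rw [real_inner_comm]
    exact hu i (Finset.mem_compl.1 i.2)
  have h3 := Submodule.finrank_add_finrank_orthogonal (SI b (I : Set ι))
  have h4 := Finset.card_add_card_compl I
  omega

theorem free_window' {n : ℕ} (q : Fin n → ℝ) (K : ℝ) (hK : 1 < K) : ∃ l : ℕ, l ≤ n ∧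
    ∀ i, ¬ (K ^ (2 * l) < q i ∧ q i < K ^ (2 * l + 2)) := by
  obtain ⟨l, hl, h⟩ := free_window (Fin.cons 1 q : Fin (n + 1) → ℝ) K hK 0 rfl true
  refine ⟨l, by omega, fun i => ?_⟩
  have := h i.succ
  simpa using this

theorem idx_robust {δ : ℝ} {W R : E →L[ℝ] E} (h : ∀ R : E →L[ℝ] E,
    ‖R - ContinuousLinearMap.id ℝ E‖ ≤ δ → NoOne (R ∘L W))
    (hR : ‖R - ContinuousLinearMap.id ℝ E‖ ≤ δ) : idx (R ∘L W) = idx W := by
  obtain ⟨T, hT⟩ : ∃ T : ℝ → E →L[ℝ] E, T = fun t => (ContinuousLinearMap.id ℝ E +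
    t • (R - ContinuousLinearMap.id ℝ E)) ∘L W := ⟨_, rfl⟩
  have hTc : Continuous T := by
    rw [hT]
    exact (continuous_const.add (continuous_id.smul continuous_const)).clm_comp continuous_const
  have h4 := idx_path (T := T) zero_le_one hTc.continuousOn (fun t ht => by
    rw [hT]
    refine h _ ?_
    rw [add_sub_cancel_left, norm_smul, Real.norm_of_nonneg ht.1]
    calc t * ‖R - ContinuousLinearMap.id ℝ E‖ ≤ 1 * δ := by
          gcongr
          exact ht.2
      _ = δ := one_mul _)
  have h6 : T 0 = W := by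
    rw [hT]
    simp
  have h7 : T 1 = R ∘L W := by
    rw [hT]
    simp
  rw [h6, h7] at h4
  exact h4.symm

/-- **The splitting of a matrix with robustly no eigenvalue of modulus one.** -/
theorem robust (E : Type) [NormedAddCommGroup E] [InnerProductSpace ℝ E]
    [FiniteDimensional ℝ E] {δ : ℝ} (hδ : 0 < δ) (hδ1 : δ ≤ 1) : ∃ C ≥ 1, ∀ W : E →L[ℝ] E,
    (∀ R : E →L[ℝ] E, ‖R - ContinuousLinearMap.id ℝ E‖ ≤ δ → NoOne (R ∘L W)) →
    ∃ S : Submodule ℝ E, idx W + Module.finrank ℝ S = Module.finrank ℝ E ∧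
      (∀ v ∈ S, ‖W v‖ ≤ C * ‖v‖) ∧ ∀ v ∈ Sᗮ, ‖v‖ ≤ C * ‖W v‖ := by
  classical
  obtain ⟨K₀, hK₀, hgap⟩ := gap_lemma E hδ hδ1
  obtain ⟨K, hKd⟩ : ∃ K, K = max K₀ 2 := ⟨_, rfl⟩
  have hK0 : K₀ ≤ K := by rw [hKd]; exact le_max_left _ _
  have hK2 : 2 ≤ K := by rw [hKd]; exact le_max_right _ _
  have hK1 : 1 < K := by linarith
  have hKp : 0 < K := by linarith
  set n := Module.finrank ℝ E with hn
  refine ⟨K ^ (2 * n + 2), one_le_pow₀ hK1.le, fun W hW => ?_⟩
  set C := K ^ (2 * n + 2) with hC
  have hC1 : 1 ≤ C := one_le_pow₀ hK1.le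
  have hCp : 0 < C := by linarith
  obtain ⟨b, σ, hσ, hMσ⟩ := singular E W
  have hpowle : ∀ m, m ≤ 2 * n + 2 → K ^ m ≤ C := fun m hm => pow_le_pow_right₀ hK1.le hm
  -- general gap statement
  have main : ∀ s : ℝ, 0 < s → (∀ i, s * σ i ≤ K⁻¹ ∨ K ≤ s * σ i) →
      ∃ R : E →L[ℝ] E, ‖R - ContinuousLinearMap.id ℝ E‖ ≤ δ ∧
        idx (s • (R ∘L W)) + (Finset.univ.filter fun i => s * σ i ≤ K⁻¹).card = n := by
    intro s hs hgs
    have hI : SI b ((Finset.univ.filter fun i => s * σ i ≤ K⁻¹ : Finset _) : Set _) =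
        SI b {i | s * σ i ≤ K⁻¹} := by
      congr 1
      ext i
      simp
    have hY1 : ∀ v ∈ SI b {i | s * σ i ≤ K⁻¹}, K * ‖(s • W) v‖ ≤ ‖v‖ := by
      intro v hv
      have h3 := SI_up b hσ hMσ (I := {i | s * σ i ≤ K⁻¹}) (s := K⁻¹ * s⁻¹) (by positivity) (by
        intro i hi
        have hi' : s * σ i ≤ K⁻¹ := hi
        rw [← div_eq_mul_inv, le_div_iff₀ hs]
        linarith) v hv
      show K * ‖s • W v‖ ≤ ‖v‖
      rw [norm_smul, Real.norm_of_nonneg hs.le]
      calc K * (s * ‖W v‖) ≤ K * (s * (K⁻¹ * s⁻¹ * ‖v‖)) := by gcongr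
        _ = ‖v‖ := by field_simp
    have hY2 : ∀ v ∈ (SI b {i | s * σ i ≤ K⁻¹})ᗮ, K * ‖v‖ ≤ ‖(s • W) v‖ := by
      intro v hv
      have h3 := SI_low b hMσ (I := {i | s * σ i ≤ K⁻¹}) (s := K * s⁻¹) (by positivity) (by
        intro i hi
        have hi' : K ≤ s * σ i := (hgs i).resolve_left hi
        rw [← div_eq_mul_inv, div_le_iff₀ hs]
        linarith) v hv
      show K * ‖v‖ ≤ ‖s • W v‖
      rw [norm_smul, Real.norm_of_nonneg hs.le]
      calc K * ‖v‖ = s * (K * s⁻¹ * ‖v‖) := by field_simp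
        _ ≤ s * ‖W v‖ := by gcongr
    obtain ⟨R, hR, hidx⟩ := hgap K hK0 (s • W) _ hY1 hY2
    refine ⟨R, hR, ?_⟩
    have e1 : s • (R ∘L W) = R ∘L (s • W) := by
      ext v
      simp
    rw [← finrank_SI b, hI, e1]
    exact hidx
  -- upper part
  have hup : (Finset.univ.filter fun i => C < σ i).card ≤ idx W := by
    obtain ⟨l, hl, hfree⟩ := free_window' σ K hK1
    have hτ : 0 < K ^ (2 * l + 1) := by positivity
    have e2 : K ^ (2 * l + 1) = K ^ (2 * l) * K := pow_succ _ _
    have e3 : K ^ (2 * l + 2) = K ^ (2 * l + 1) * K := pow_succ _ _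
    obtain ⟨R, hR, hi⟩ := main (K ^ (2 * l + 1))⁻¹ (by positivity) (by
      intro i
      by_contra hcon
      push Not at hcon
      obtain ⟨c1, c2⟩ := hcon
      apply hfree i
      constructor
      · rw [← div_eq_inv_mul, lt_div_iff₀ hτ, e2] at c1
        have : K⁻¹ * (K ^ (2 * l) * K) = K ^ (2 * l) := by field_simp
        rw [this] at c1
        exact c1
      · rw [← div_eq_inv_mul, div_lt_iff₀ hτ] at c2
        rw [e3]
        linarith)
    have h1 : idx ((K ^ (2 * l + 1))⁻¹ • (R ∘L W)) ≤ idx W := by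
      have h2 := idx_smul_le ((K ^ (2 * l + 1))⁻¹ • (R ∘L W)) (τ := K ^ (2 * l + 1))
        (one_le_pow₀ hK1.le)
      rw [smul_smul, mul_inv_cancel₀ hτ.ne', one_smul, idx_robust hW hR] at h2
      exact h2
    have h2 : Disjoint (Finset.univ.filter fun i => C < σ i)
        (Finset.univ.filter fun i => (K ^ (2 * l + 1))⁻¹ * σ i ≤ K⁻¹) := by
      rw [Finset.disjoint_left]
      intro i hi hi'
      have h3 := (Finset.mem_filter.1 hi).2
      have h4 := (Finset.mem_filter.1 hi').2
      rw [← div_eq_inv_mul, div_le_iff₀ hτ, e2] at h4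
      have : K⁻¹ * (K ^ (2 * l) * K) = K ^ (2 * l) := by field_simp
      rw [this] at h4
      have h5 := hpowle (2 * l) (by omega)
      linarith
    have h3 := Finset.card_union_of_disjoint h2
    have h4 := Finset.card_le_univ ((Finset.univ.filter fun i => C < σ i) ∪
        (Finset.univ.filter fun i => (K ^ (2 * l + 1))⁻¹ * σ i ≤ K⁻¹))
    rw [Fintype.card_fin] at h4
    omega
  -- lower part
  have hlow : (Finset.univ.filter fun i => σ i < C⁻¹).card + idx W ≤ n := by
    obtain ⟨l, hl, hfree⟩ := free_window' (fun i => (σ i)⁻¹) K hK1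
    have hτ : 0 < K ^ (2 * l + 1) := by positivity
    have e2 : K ^ (2 * l + 1) = K ^ (2 * l) * K := pow_succ _ _
    have e3 : K ^ (2 * l + 2) = K ^ (2 * l + 1) * K := pow_succ _ _
    obtain ⟨R, hR, hi⟩ := main (K ^ (2 * l + 1)) hτ (by
      intro i
      by_contra hcon
      push Not at hcon
      obtain ⟨c1, c2⟩ := hcon
      have hip : 0 < σ i := by
        by_contra h
        have : σ i = 0 := le_antisymm (not_lt.1 h) (hσ i)
        rw [this, mul_zero] at c1
        have : 0 < K⁻¹ := by positivity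
        linarith
      apply hfree i
      constructor
      · rw [lt_inv_comm₀ (by positivity) hip]
        rw [e2] at c2
        have h5 : σ i * K ^ (2 * l) < 1 := by
          have : K * (σ i * K ^ (2 * l)) < K * 1 := by linarith
          exact lt_of_mul_lt_mul_left this hKp.le
        rw [inv_eq_one_div, lt_div_iff₀ (by positivity)]
        exact h5
      · rw [inv_lt_comm₀ hip (by positivity), e3, mul_inv]
        rw [← div_eq_inv_mul, div_lt_iff₀ hτ]
        linarith)
    have h1 : idx W ≤ idx (K ^ (2 * l + 1) • (R ∘L W)) := by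
      have h2 := idx_smul_le (R ∘L W) (τ := K ^ (2 * l + 1)) (one_le_pow₀ hK1.le)
      rw [idx_robust hW hR] at h2
      exact h2
    have h2 : (Finset.univ.filter fun i => σ i < C⁻¹) ⊆
        (Finset.univ.filter fun i => K ^ (2 * l + 1) * σ i ≤ K⁻¹) := by
      intro i hi
      have h3 := (Finset.mem_filter.1 hi).2
      refine Finset.mem_filter.2 ⟨Finset.mem_univ _, ?_⟩
      have h4 := hpowle (2 * l + 2) (by omega)
      rw [e3] at h4
      calc K ^ (2 * l + 1) * σ i ≤ K ^ (2 * l + 1) * C⁻¹ := by gcongr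
        _ ≤ K⁻¹ := by
          rw [← div_eq_mul_inv, div_le_iff₀ hCp, ← div_eq_inv_mul, le_div_iff₀ hKp]
          exact h4
    have h3 := Finset.card_le_card h2
    omega
  have hidxn : idx W ≤ n := idx_le W
  -- the subset
  obtain ⟨I, hI1, hI2, hI3⟩ := Finset.exists_subsuperset_card_eq
    (s := Finset.univ.filter fun i => σ i < C⁻¹) (t := Finset.univ.filter fun i => σ i ≤ C)
    (n := n - idx W) (by
      intro i hi
      have h3 := (Finset.mem_filter.1 hi).2
      refine Finset.mem_filter.2 ⟨Finset.mem_univ _, ?_⟩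
      have h4 : C⁻¹ ≤ 1 := inv_le_one_of_one_le₀ hC1
      linarith) (by omega) (by
      have h4 : (Finset.univ.filter fun i => σ i ≤ C) = (Finset.univ.filter fun i => C < σ i)ᶜ := by
        ext i
        simp
      rw [h4, Finset.card_compl, Fintype.card_fin]
      omega)
  refine ⟨SI b (I : Set _), ?_, fun v hv => ?_, fun v hv => ?_⟩
  · rw [finrank_SI, hI3]
    omega
  · refine SI_up b hσ hMσ (I := (I : Set _)) (s := C) hCp.le (fun i hi => ?_) v hv
    exact (Finset.mem_filter.1 (hI2 hi)).2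
  · have h3 := SI_low b hMσ (I := (I : Set _)) (s := C⁻¹) (by positivity) (fun i hi => by
      by_contra hcon
      exact hi (hI1 (Finset.mem_filter.2 ⟨Finset.mem_univ _, not_le.1 hcon⟩))) v hv
    calc ‖v‖ = C * (C⁻¹ * ‖v‖) := by field_simp
      _ ≤ C * ‖W v‖ := by gcongr

end Pool.Agent.H245.SK
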