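import Pool.Agent.H245.SK.S4
import Pool.Agent.H245.SH.Y6

/-!
# Closed words with a scalar for every block: boundedness along loops
-/

set_option autoImplicit false
set_option linter.unusedSectionVars false

open Filter Set Metric
open scoped Topology

namespace Pool.Agent.H245.SK

open Pool.Agent.H245.SH

universe u

variable {X : Type u} {E : Type} [NormedAddCommGroup E] [InnerProductSpace ℝ E]
  [FiniteDimensional ℝ E]

/-- a dominated splitting and a splitting by singular values with the same dimensions -/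
theorem split_bound {B₁ B₂ S : Submodule ℝ E} {A : E →L[ℝ] E} {κ K K₁ : ℝ} (hκ0 : 0 < κ)
    (hK1 : 1 ≤ K) (hK₁1 : 1 ≤ K₁) (hcompl : IsCompl B₁ B₂)
    (hang : ∀ v ∈ B₁, ∀ w ∈ B₂, ‖v‖ ≤ K₁ * ‖v + w‖ ∧ ‖w‖ ≤ K₁ * ‖v + w‖)
    (hang' : ∀ v ∈ B₁, ∀ w ∈ B₂, ‖A v‖ ≤ K₁ * ‖A (v + w)‖ ∧ ‖A w‖ ≤ K₁ * ‖A (v + w)‖)
    (hdom : ∀ v ∈ B₁, ∀ w ∈ B₂, ‖A v‖ * ‖w‖ ≤ K * ‖A w‖ * ‖v‖)
    (hS1 : ∀ v ∈ S, ‖A v‖ ≤ κ * ‖v‖) (hS2 : ∀ v ∈ Sᗮ, ‖v‖ ≤ κ * ‖A v‖)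
    (hSs : Module.finrank ℝ S = Module.finrank ℝ B₁) :
    (∀ v ∈ B₁, ‖A v‖ ≤ 2 * K * K₁ * κ * ‖v‖) ∧ ∀ w ∈ B₂, ‖w‖ ≤ 2 * K * K₁ * κ * ‖A w‖ := by
  have hsum := Submodule.finrank_add_eq_of_isCompl hcompl
  have hSo := Submodule.finrank_add_finrank_orthogonal S
  constructor
  · intro v hv
    by_cases hv0 : v = 0
    · rw [hv0, map_zero, norm_zero, mul_zero]
    have hvn : 0 < ‖v‖ := norm_pos_iff.2 hv0
    -- a vector of `S` in the span of `v` and the unstable space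
    obtain ⟨a, w, hw, hne, hmem⟩ : ∃ (a : ℝ) (w : E), w ∈ B₂ ∧ a • v + w ≠ 0 ∧
        a • v + w ∈ S := by
      have h1 : Module.finrank ℝ ((ℝ ∙ v) ⊔ B₂ : Submodule ℝ E) =
          1 + Module.finrank ℝ B₂ := by
        have h2 := Submodule.finrank_sup_add_finrank_inf_eq (ℝ ∙ v) B₂
        have h3 : (ℝ ∙ v) ⊓ B₂ = ⊥ := by
          rw [← disjoint_iff]
          exact hcompl.disjoint.mono_left ((Submodule.span_singleton_le_iff_mem _ _).2 hv)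
        rw [h3, finrank_bot, add_zero, finrank_span_singleton hv0] at h2
        exact h2
      have h4 : ¬ Disjoint S ((ℝ ∙ v) ⊔ B₂) := by
        intro hd
        have h5 := Submodule.finrank_add_finrank_le_of_disjoint hd
        omega
      rw [Submodule.disjoint_def] at h4
      push Not at h4
      obtain ⟨z, hzS, hz, hz0⟩ := h4
      obtain ⟨y, hy, w, hw, hyw⟩ := Submodule.mem_sup.1 hz
      obtain ⟨a, rfl⟩ := Submodule.mem_span_singleton.1 hy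
      exact ⟨a, w, hw, by rw [hyw]; exact hz0, by rw [hyw]; exact hzS⟩
    have hav : a • v ∈ B₁ := Submodule.smul_mem _ _ hv
    have h1 := hS1 _ hmem
    obtain ⟨h2, h3⟩ := hang' _ hav _ hw
    have h4 : ‖a • v + w‖ ≤ ‖a • v‖ + ‖w‖ := norm_add_le _ _
    have h5 : ‖A (a • v)‖ ≤ K₁ * (κ * (‖a • v‖ + ‖w‖)) :=
      h2.trans (by gcongr; exact h1.trans (by gcongr))
    have h6 : ‖A w‖ ≤ K₁ * (κ * (‖a • v‖ + ‖w‖)) :=
      h3.trans (by gcongr; exact h1.trans (by gcongr))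
    rcases le_total ‖w‖ ‖a • v‖ with h7 | h7
    · have ha : a ≠ 0 := by
        intro h0
        rw [h0, zero_smul, norm_zero] at h7
        have : w = 0 := norm_le_zero_iff.1 h7
        rw [h0, this] at hne
        simp at hne
      have ha' : 0 < ‖a‖ := norm_pos_iff.2 ha
      rw [map_smul, norm_smul, norm_smul] at h5
      rw [norm_smul] at h7
      have h8 : ‖a‖ * ‖A v‖ ≤ ‖a‖ * (2 * K₁ * κ * ‖v‖) := by
        calc ‖a‖ * ‖A v‖ ≤ K₁ * (κ * (‖a‖ * ‖v‖ + ‖w‖)) := h5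
          _ ≤ K₁ * (κ * (‖a‖ * ‖v‖ + ‖a‖ * ‖v‖)) := by gcongr
          _ = _ := by ring
      have h9 := le_of_mul_le_mul_left h8 ha'
      refine h9.trans ?_
      have : 2 * K₁ * κ * ‖v‖ ≤ K * (2 * K₁ * κ * ‖v‖) := by
        have h10 : 0 ≤ 2 * K₁ * κ * ‖v‖ := by positivity
        nlinarith
      calc _ ≤ _ := this
        _ = _ := by ring
    · have hw0 : 0 < ‖w‖ := by
        by_contra h0
        have h8 : ‖w‖ = 0 := le_antisymm (not_lt.1 h0) (norm_nonneg _)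
        have h9 : ‖a • v‖ = 0 := le_antisymm (h7.trans h8.le) (norm_nonneg _)
        rw [norm_eq_zero] at h8 h9
        rw [h8, h9] at hne
        simp at hne
      have h8 := hdom v hv w hw
      have h9 : ‖A v‖ * ‖w‖ ≤ (2 * K * K₁ * κ * ‖v‖) * ‖w‖ := by
        calc ‖A v‖ * ‖w‖ ≤ K * ‖A w‖ * ‖v‖ := h8
          _ ≤ K * (K₁ * (κ * (‖w‖ + ‖w‖))) * ‖v‖ := by
            gcongr
            exact h6.trans (by gcongr)
          _ = _ := by ring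
      exact le_of_mul_le_mul_right h9 hw0
  · intro w hw
    by_cases hw0 : w = 0
    · rw [hw0, map_zero, norm_zero, mul_zero]
    have hwn : 0 < ‖w‖ := norm_pos_iff.2 hw0
    obtain ⟨a, v, hv, hne, hmem⟩ : ∃ (a : ℝ) (v : E), v ∈ B₁ ∧ v + a • w ≠ 0 ∧
        v + a • w ∈ Sᗮ := by
      have h1 : Module.finrank ℝ ((ℝ ∙ w) ⊔ B₁ : Submodule ℝ E) =
          1 + Module.finrank ℝ B₁ := by
        have h2 := Submodule.finrank_sup_add_finrank_inf_eq (ℝ ∙ w) B₁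
        have h3 : (ℝ ∙ w) ⊓ B₁ = ⊥ := by
          rw [← disjoint_iff]
          exact hcompl.symm.disjoint.mono_left ((Submodule.span_singleton_le_iff_mem _ _).2 hw)
        rw [h3, finrank_bot, add_zero, finrank_span_singleton hw0] at h2
        exact h2
      have h4 : ¬ Disjoint Sᗮ ((ℝ ∙ w) ⊔ B₁) := by
        intro hd
        have h5 := Submodule.finrank_add_finrank_le_of_disjoint hd
        omega
      rw [Submodule.disjoint_def] at h4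
      push Not at h4
      obtain ⟨z, hzS, hz, hz0⟩ := h4
      obtain ⟨y, hy, v, hv, hyv⟩ := Submodule.mem_sup.1 hz
      obtain ⟨a, rfl⟩ := Submodule.mem_span_singleton.1 hy
      exact ⟨a, v, hv, by rw [add_comm, hyv]; exact hz0, by rw [add_comm, hyv]; exact hzS⟩
    have haw : a • w ∈ B₂ := Submodule.smul_mem _ _ hw
    have h1 := hS2 _ hmem
    obtain ⟨h2, h3⟩ := hang _ hv _ haw
    have hzn : 0 < ‖v + a • w‖ := norm_pos_iff.2 hne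
    have h4 : ‖A (v + a • w)‖ ≤ ‖A v‖ + ‖a‖ * ‖A w‖ := by
      rw [map_add, map_smul]
      refine (norm_add_le _ _).trans ?_
      rw [norm_smul]
    have h5 := hdom v hv w hw
    -- `‖w‖ ‖A z‖ ≤ 2 K K₁ ‖A w‖ ‖z‖`
    have h6 : ‖A (v + a • w)‖ * ‖w‖ ≤ 2 * K * K₁ * ‖A w‖ * ‖v + a • w‖ := by
      calc ‖A (v + a • w)‖ * ‖w‖ ≤ (‖A v‖ + ‖a‖ * ‖A w‖) * ‖w‖ := by gcongr
        _ = ‖A v‖ * ‖w‖ + ‖a‖ * ‖w‖ * ‖A w‖ := by ring
        _ ≤ K * ‖A w‖ * ‖v‖ + ‖a • w‖ * ‖A w‖ := by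
          rw [norm_smul]
          gcongr
        _ ≤ K * ‖A w‖ * (K₁ * ‖v + a • w‖) + K₁ * ‖v + a • w‖ * ‖A w‖ := by gcongr
        _ ≤ K * ‖A w‖ * (K₁ * ‖v + a • w‖) + K * (K₁ * ‖v + a • w‖ * ‖A w‖) := by
          have h10 : 0 ≤ K₁ * ‖v + a • w‖ * ‖A w‖ := by positivity
          nlinarith
        _ = _ := by ring
    have h7 : ‖v + a • w‖ * ‖w‖ ≤ ‖v + a • w‖ * (2 * K * K₁ * κ * ‖A w‖) := by
      calc ‖v + a • w‖ * ‖w‖ ≤ κ * ‖A (v + a • w)‖ * ‖w‖ := by gcongr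
        _ = κ * (‖A (v + a • w)‖ * ‖w‖) := by ring
        _ ≤ κ * (2 * K * K₁ * ‖A w‖ * ‖v + a • w‖) := by gcongr
        _ = _ := by ring
    exact le_of_mul_le_mul_left h7 hzn

/-- The closed words at normal positions. -/
structure ClN (c : Coc X E) (δ ρ : ℝ) (N₁ : ℕ) (NP : X → Prop) (near : X → X → Prop) : Prop where
  one : ∀ x n, NP x → c.f^[n] x = x → N₁ ≤ n → Loop δ ρ (c.word x (ids E) n)
  two : ∀ x y p l, NP x → NP y → c.f^[p] x = y → c.f^[l] y = x → N₁ ≤ p → N₁ ≤ l →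
    ∀ e₁ e₂, Near δ e₁ → Near δ e₂ → ∀ i j, 1 ≤ i → HL δ ρ (i + 1 + j)
      (c.word x (ids E) (p + l) ^ j * (c.word y (ids E) l * e₂ * c.word x (ids E) p * e₁) *
        c.word x (ids E) (p + l) ^ i)
  three : ∀ x y n n', NP x → NP y → c.f^[n] x = x → c.f^[n'] x = y → N₁ ≤ n → N₁ ≤ n' →
    near x y → HL δ ρ 1 (c.word x (ids E) n') ∧
      (∀ k l, 1 ≤ k + l → HL δ ρ (l + k) (c.word x (ids E) n ^ k * c.word x (ids E) n' ^ l)) ∧
      ∀ k l, 1 ≤ k + l → HL δ ρ (k + l) (c.word x (ids E) n' ^ l * c.word x (ids E) n ^ k)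

variable {c : Coc X E} {δ ρ : ℝ} {N₁ K₀ : ℕ} {NP : X → Prop} {near : X → X → Prop}

theorem ClN.toCl (h : ClN c δ ρ N₁ NP near) (hδ : 0 ≤ δ) (hnr : ∀ x, ∃ a ≤ K₀, NP (c.f^[a] x)) :
    c.Cl (δ / (c.Λ ^ K₀) ^ 2) ρ ((c.Λ ^ K₀) ^ 2 * 1) (N₁ + K₀) (fun _ _ => False) := by
  choose nr hnr1 hnr2 using hnr
  have h1 := c.cl_of_np (NP := NP) (nr := nr) (K₀ := K₀) hnr1 hnr2 (δ := δ) (ρ := ρ) (CJ := 1) hδ
    zero_le_one (N₁ := N₁) (near' := fun _ _ => False) h.one h.two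
    (fun _ _ _ _ _ _ _ _ _ _ hf => hf.elim)
  exact ⟨h1.one, h1.two, fun _ _ _ _ _ _ hf => hf.elim⟩

/-- **Boundedness along loops.** -/
theorem ClN.bounded (h : ClN c δ ρ N₁ NP near) (hδ : 0 < δ) (hδ1 : δ ≤ 1) (hρ : 1 < ρ)
    (hnr : ∀ x, ∃ a ≤ K₀, NP (c.f^[a] x)) : ∃ C₄ ≥ 1, ∀ (x : X) (n : ℕ), NP x → 1 ≤ n →
      c.f^[n] x = x → ∀ m, NP (c.f^[m] x) → near x (c.f^[m] x) →
      (∀ v ∈ c.Bd x, ‖c.word x (ids E) m v‖ ≤ C₄ * ‖v‖) ∧
      ∀ w ∈ c.inv.Bd x, ‖w‖ ≤ C₄ * ‖c.word x (ids E) m w‖ := by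
  have hcl := h.toCl hδ.le hnr
  obtain ⟨κ, hκ, hrob⟩ := robust E hδ hδ1
  have hΛ := c.one_le
  have hids : ∀ i, Near (1 : ℝ) (ids E i) := fun i => near_refl zero_le_one
  have hB : 1 ≤ c.Λ ^ K₀ := one_le_pow₀ hΛ
  have hB2 : 1 ≤ (c.Λ ^ K₀) ^ 2 := one_le_pow₀ hB
  obtain ⟨δ', hδ'⟩ : ∃ δ', δ' = δ / (c.Λ ^ K₀) ^ 2 := ⟨_, rfl⟩
  have hδ'0 : 0 < δ' := by rw [hδ']; positivity
  have hδ'1 : δ' ≤ 1 := by
    rw [hδ']
    exact (div_le_one (by positivity)).2 (hδ1.trans hB2)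
  rw [← hδ'] at hcl
  obtain ⟨N, hN⟩ : ∃ N, N = N₁ + K₀ := ⟨_, rfl⟩
  obtain ⟨K, hK⟩ : ∃ K : ℝ, K = 64 / δ' ^ 2 := ⟨_, rfl⟩
  obtain ⟨K₁, hK₁⟩ : ∃ K₁ : ℝ, K₁ = 1 + 4 / δ' := ⟨_, rfl⟩
  have hK1 : 1 ≤ K := by
    rw [hK, one_le_div (by positivity)]
    nlinarith
  have hK₁1 : 1 ≤ K₁ := by
    rw [hK₁]
    have : 0 < 4 / δ' := by positivity
    linarith
  have hρ0 : 0 < ρ := by linarith
  have hb1 : (1 : ℝ) ≤ (2 * c.Λ) ^ N := one_le_pow₀ (by linarith)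
  have hCC : 0 ≤ 2 * K * K₁ * κ := by positivity
  refine ⟨(2 * c.Λ) ^ N + 2 * K * K₁ * κ, by linarith, ?_⟩
  intro x n hnp hn hx m hnpm hnear
  by_cases hm : m < N
  · have h1 : (2 * c.Λ) ^ m ≤ (2 * c.Λ) ^ N := pow_le_pow_right₀ (by linarith) hm.le
    have h3 : (2 * c.Λ) ^ m ≤ (2 * c.Λ) ^ N + 2 * K * K₁ * κ := by linarith
    exact ⟨fun v _ => (c.word_bd x le_rfl hids m v).trans (by gcongr),
      fun w _ => (c.word_low x le_rfl hids m w).trans (by gcongr)⟩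
  · push Not at hm
    obtain ⟨n₁, hn₁, hn₁N, hx₁⟩ : ∃ n₁, 1 ≤ n₁ ∧ N₁ ≤ n₁ ∧ c.f^[n₁] x = x := by
      have : N₁ + 1 ≤ n * (N₁ + 1) := Nat.le_mul_of_pos_left _ hn
      exact ⟨n * (N₁ + 1), by omega, by omega, c.iter_mul hx _⟩
    obtain ⟨hHL, hk1, hk2⟩ := h.three x _ n₁ m hnp hnpm hx₁ rfl hn₁N (by omega) hnear
    have hidx := index_eq hδ hδ1 hρ hk1 hk2
    have hfin := finrank_bd hδ hδ1 hρ (h.one x n₁ hnp hx₁ hn₁N)
    rw [← c.Bd_eq hn₁ hx₁, hidx] at hfin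
    obtain ⟨A, hA⟩ : ∃ A : E →L[ℝ] E, A = (c.word x (ids E) m : E →L[ℝ] E) := ⟨_, rfl⟩
    rw [← hA] at hfin
    have hno : ∀ R : E →L[ℝ] E, ‖R - ContinuousLinearMap.id ℝ E‖ ≤ δ → NoOne (R ∘L A) := by
      intro R hR
      have h1 := hHL R hR 1 (by
        rw [pow_one]
        exact inv_le_one_of_one_le₀ hρ.le) (by rw [pow_one]; exact hρ.le)
      rw [one_smul] at h1
      rw [hA]
      exact h1
    obtain ⟨S, hSd, hS1, hS2⟩ := hrob A hno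
    have hSs : Module.finrank ℝ S = Module.finrank ℝ (c.Bd x) := by omega
    have hcompl := hcl.compl hδ'0 hδ'1 hρ hn hx
    have hAv : ∀ v, A v = c.word x (ids E) m v := fun v => by rw [hA]; rfl
    have hx2 : c.f^[n] (c.f^[m] x) = c.f^[m] x := by
      rw [← Function.iterate_add_apply, add_comm n m, Function.iterate_add_apply, hx]
    obtain ⟨r1, r2⟩ := split_bound (A := A) (κ := κ) (K := K) (K₁ := K₁) (by linarith) hK1 hK₁1 hcompl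
      (fun v hv w hw => by
        rw [hK₁]
        exact hcl.angle hδ'0 hδ'1 hρ hn hx hv hw)
      (fun v hv w hw => by
        rw [hK₁, map_add, hAv, hAv]
        exact hcl.angle hδ'0 hδ'1 hρ hn hx2 ((c.word_mem_Bd m).2 hv) ((c.word_mem_inv_Bd m).2 hw))
      (fun v hv w hw => by
        rw [hK, hAv, hAv]
        exact hcl.dom hδ'0 hδ'1 hρ hn hx (by omega) hv hw) hS1 hS2 hSs
    refine ⟨fun v hv => ?_, fun w hw => ?_⟩
    · rw [← hAv]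
      refine (r1 v hv).trans ?_
      gcongr
      linarith
    · rw [← hAv]
      refine (r2 w hw).trans ?_
      gcongr
      linarith

end Pool.Agent.H245.SK
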