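import Pool.Agent.H245.SK.S5
import Pool.Agent.H245.SH.X1

/-!
# From boundedness to uniform hyperbolicity
-/

set_option autoImplicit false
set_option linter.unusedSectionVars false

open Filter Set Metric
open scoped Topology

namespace Pool.Agent.H245.SK

open Pool.Agent.H245.SH

universe u

variable {X : Type u} {E : Type} [NormedAddCommGroup E] [InnerProductSpace ℝ E]
  [FiniteDimensional ℝ E]

theorem loops_bounded (d : Coc X E) {B : X → Submodule ℝ E}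
    (hB : ∀ x, ∀ v ∈ B x, d.A x v ∈ B (d.f x)) {K : ℕ}
    (col : X → Fin K) {C₄ : ℝ} (hC₄ : 1 ≤ C₄)
    (hloop : ∀ x, ∀ m, col x = col (d.f^[m] x) → ∀ v ∈ B x,
      ‖d.word x (ids E) m v‖ ≤ C₄ * ‖v‖) (x : X) (m : ℕ) (v : E)
    (hv : v ∈ B x) : ‖d.word x (ids E) m v‖ ≤ (C₄ * d.Λ) ^ K * ‖v‖ := by
  classical
  have hΛ := d.one_le
  have hD1 : 1 ≤ C₄ * d.Λ := by nlinarith
  have hBi : ∀ (x : X), ∀ v ∈ B x, ∀ i, d.word x (ids E) i v ∈ B (d.f^[i] x) := by
    intro x v hv i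
    induction i with
    | zero => exact hv
    | succ i ih =>
      rw [Function.iterate_succ_apply', Coc.word_ids_succ']
      exact hB _ _ ih
  have key : ∀ (k : ℕ) (x : X) (m : ℕ),
      ((Finset.range (m + 1)).image fun i => col (d.f^[i] x)).card ≤ k → ∀ v ∈ B x,
      ‖d.word x (ids E) m v‖ ≤ (C₄ * d.Λ) ^ k * ‖v‖ := by
    intro k
    induction k with
    | zero =>
      intro x m hk v hv
      exfalso
      have h1 : col x ∈ (Finset.range (m + 1)).image fun i => col (d.f^[i] x) :=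
        Finset.mem_image.2 ⟨0, Finset.mem_range.2 (by omega), rfl⟩
      have h2 := Finset.card_pos.2 ⟨_, h1⟩
      omega
    | succ k ih =>
      intro x m hk v hv
      obtain ⟨t, ht⟩ : ∃ t, t = Nat.findGreatest (fun i => col (d.f^[i] x) = col x) m := ⟨_, rfl⟩
      have htm : t ≤ m := by rw [ht]; exact Nat.findGreatest_le m
      have htc : col (d.f^[t] x) = col x := by
        rw [ht]
        exact Nat.findGreatest_spec (P := fun i => col (d.f^[i] x) = col x) (Nat.zero_le m) rfl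
      have htg : ∀ i, t < i → i ≤ m → col (d.f^[i] x) ≠ col x := by
        intro i hi him
        rw [ht] at hi
        exact Nat.findGreatest_is_greatest hi him
      have h1 := hloop x t htc.symm v hv
      rcases Nat.eq_or_lt_of_le htm with h | h
      · rw [← h]
        refine h1.trans ?_
        gcongr
        calc C₄ ≤ C₄ * d.Λ := by nlinarith
          _ = (C₄ * d.Λ) ^ 1 := (pow_one _).symm
          _ ≤ _ := pow_le_pow_right₀ hD1 (by omega)
      · obtain ⟨j, rfl⟩ : ∃ j, m = t + 1 + j := ⟨m - (t + 1), by omega⟩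
        have h2 := ih (d.f^[t + 1] x) j (by
          have h3 : ((Finset.range (j + 1)).image fun i => col (d.f^[i] (d.f^[t + 1] x))) ⊆
              ((Finset.range (t + 1 + j + 1)).image fun i => col (d.f^[i] x)).erase (col x) := by
            intro y hy
            obtain ⟨i, hi, hiy⟩ := Finset.mem_image.1 hy
            rw [Finset.mem_range] at hi
            rw [← Function.iterate_add_apply] at hiy
            refine Finset.mem_erase.2 ⟨?_, Finset.mem_image.2 ⟨i + (t + 1), ?_, hiy⟩⟩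
            · rw [← hiy]
              exact htg _ (by omega) (by omega)
            · exact Finset.mem_range.2 (by omega)
          have h4 : col x ∈ (Finset.range (t + 1 + j + 1)).image fun i => col (d.f^[i] x) :=
            Finset.mem_image.2 ⟨0, Finset.mem_range.2 (by omega), rfl⟩
          have h5 := Finset.card_le_card h3
          rw [Finset.card_erase_of_mem h4] at h5
          omega) _ (hBi x v hv (t + 1))
        rw [Coc.word_ids_add]
        refine h2.trans ?_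
        have h6 : ‖d.word x (ids E) (t + 1) v‖ ≤ d.Λ * (C₄ * ‖v‖) := by
          rw [Coc.word_ids_succ']
          exact (d.bd _ _).trans (by gcongr)
        calc _ ≤ (C₄ * d.Λ) ^ k * (d.Λ * (C₄ * ‖v‖)) := by gcongr
          _ = (C₄ * d.Λ) ^ (k + 1) * ‖v‖ := by
            rw [pow_succ]
            ring
  exact key K x m ((Finset.card_le_univ _).trans (by rw [Fintype.card_fin])) v hv

/-- from halving to exponential contraction -/
theorem exp_of_half (d : Coc X E) {B : X → Submodule ℝ E}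
    (hB : ∀ x, ∀ v ∈ B x, ∀ i, d.word x (ids E) i v ∈ B (d.f^[i] x)) {C : ℝ} (hC : 1 ≤ C)
    (hbd : ∀ x, ∀ v ∈ B x, ∀ m, ‖d.word x (ids E) m v‖ ≤ C * ‖v‖) {T : ℕ} (hT : 1 ≤ T)
    (hhalf : ∀ x, ∀ v ∈ B x, ‖d.word x (ids E) T v‖ ≤ 1 / 2 * ‖v‖) :
    ∃ C₇ ≥ 1, ∃ q : ℝ, 0 < q ∧ q < 1 ∧ ∀ x, ∀ v ∈ B x, ∀ n,
      ‖d.word x (ids E) n v‖ ≤ C₇ * q ^ n * ‖v‖ := by
  obtain ⟨q, hq⟩ : ∃ q : ℝ, q = (1 / 2 : ℝ) ^ ((T : ℝ)⁻¹) := ⟨_, rfl⟩
  have hq0 : 0 < q := by rw [hq]; positivity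
  have hqT : q ^ T = 1 / 2 := by
    rw [hq]
    exact Real.rpow_inv_natCast_pow (by norm_num) (by omega)
  have hq1 : q < 1 := by
    by_contra hcon
    have := one_le_pow₀ (not_lt.1 hcon) (n := T)
    rw [hqT] at this
    norm_num at this
  refine ⟨2 * C, by linarith, q, hq0, hq1, fun x v hv n => ?_⟩
  have hk : ∀ k : ℕ, ‖d.word x (ids E) (T * k) v‖ ≤ (1 / 2) ^ k * ‖v‖ := by
    intro k
    induction k with
    | zero => simp [d.word_zero]
    | succ k ih =>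
      rw [mul_add, mul_one, Coc.word_ids_add]
      calc _ ≤ 1 / 2 * ‖d.word x (ids E) (T * k) v‖ := hhalf _ _ (hB x v hv _)
        _ ≤ 1 / 2 * ((1 / 2) ^ k * ‖v‖) := by gcongr
        _ = _ := by rw [pow_succ]; ring
  have h1 : n = T * (n / T) + n % T := (Nat.div_add_mod n T).symm
  obtain ⟨k, hkk⟩ : ∃ k, k = n / T := ⟨_, rfl⟩
  obtain ⟨r, hr⟩ : ∃ r, r = n % T := ⟨_, rfl⟩
  rw [← hkk, ← hr] at h1
  have hrT : r < T := by rw [hr]; exact Nat.mod_lt _ (by omega)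
  rw [h1, Coc.word_ids_add]
  have h2 := hbd _ _ (hB x v hv (T * k)) r
  have h3 : (1 / 2 : ℝ) ^ k ≤ 2 * q ^ (T * k + r) := by
    rw [← hqT, ← pow_mul, pow_add]
    have h4 : q ^ T ≤ q ^ r := pow_le_pow_of_le_one hq0.le hq1.le hrT.le
    rw [hqT] at h4
    have h5 : 0 < q ^ (T * k) := by positivity
    nlinarith
  calc _ ≤ C * ‖d.word x (ids E) (T * k) v‖ := h2
    _ ≤ C * ((1 / 2) ^ k * ‖v‖) := by gcongr; exact hk k
    _ ≤ C * (2 * q ^ (T * k + r) * ‖v‖) := by gcongr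
    _ = _ := by ring

/-- **From boundedness to contraction.** -/
theorem star_contract (d : Coc X E) {B : X → Submodule ℝ E}
    (hB : ∀ x, ∀ v ∈ B x, ∀ i, d.word x (ids E) i v ∈ B (d.f^[i] x)) {C : ℝ} (hC : 1 ≤ C)
    (hbd : ∀ x, ∀ v ∈ B x, ∀ m, ‖d.word x (ids E) m v‖ ≤ C * ‖v‖) {NP : X → Prop} {K₀ : ℕ}
    (hnr : ∀ x, ∃ a ≤ K₀, NP (d.f^[a] x)) {K : ℕ} (col : X → Fin K) {δ ρ : ℝ} (hδ : 0 < δ)
    (hρ : 1 < ρ) {N₁ : ℕ} (hstar : ∀ x m, NP x → NP (d.f^[m] x) → N₁ ≤ m →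
      col x = col (d.f^[m] x) → ∀ s, ρ⁻¹ ≤ s → s ≤ ρ → ∀ v,
        δ * ‖v‖ ≤ ‖s • d.word x (ids E) m v - v‖) :
    ∃ C₇ ≥ 1, ∃ q : ℝ, 0 < q ∧ q < 1 ∧ ∀ x, ∀ v ∈ B x, ∀ n,
      ‖d.word x (ids E) n v‖ ≤ C₇ * q ^ n * ‖v‖ := by
  classical
  have hC0 : 0 < C := by linarith
  have hρ0 : 0 < ρ := by linarith
  have hlog : 0 < Real.log ρ := Real.log_pos hρ
  -- the colours of the directions
  obtain ⟨t, ht, hcov⟩ := Metric.totallyBounded_iff.1
    (isCompact_closedBall (0 : E) 1).totallyBounded (δ / 4) (by positivity)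
  have hcov' : ∀ u : E, ‖u‖ ≤ 1 → ∃ y : t, dist u y < δ / 4 := by
    intro u hu
    obtain ⟨y, hy, hxy⟩ := Set.mem_iUnion₂.1 (hcov (by
      rw [mem_closedBall, dist_zero_right]
      exact hu))
    exact ⟨⟨y, hy⟩, hxy⟩
  choose g hg using hcov'
  have : Finite t := ht
  have : Fintype t := Fintype.ofFinite t
  -- the number of factors
  obtain ⟨L, hL⟩ := pow_unbounded_of_one_lt (2 * C ^ 2) hρ
  obtain ⟨J, hJ⟩ : ∃ J, J = K * (Fintype.card t * L) := ⟨_, rfl⟩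
  refine exp_of_half d hB hC hbd (T := J * (N₁ + K₀) + K₀ + 1) (by omega) fun x v hv => ?_
  by_cases hv0 : v = 0
  · rw [hv0, map_zero, norm_zero, mul_zero]
  have hvn : 0 < ‖v‖ := norm_pos_iff.2 hv0
  -- the times
  have htm : ∀ j : ℕ, ∃ a ≤ K₀, NP (d.f^[j * (N₁ + K₀) + a] x) := by
    intro j
    obtain ⟨a, ha, h1⟩ := hnr (d.f^[j * (N₁ + K₀)] x)
    refine ⟨a, ha, ?_⟩
    rw [add_comm, Function.iterate_add_apply]
    exact h1
  choose a ha hNP using htm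
  obtain ⟨τ, hτ⟩ : ∃ τ : ℕ → ℕ, τ = fun j => j * (N₁ + K₀) + a j := ⟨_, rfl⟩
  have hτNP : ∀ j, NP (d.f^[τ j] x) := fun j => by rw [hτ]; exact hNP j
  have hτlt : ∀ i j, i < j → τ i + N₁ ≤ τ j := by
    intro i j hij
    rw [hτ]
    simp only
    have h1 := ha i
    have h2 : (i + 1) * (N₁ + K₀) ≤ j * (N₁ + K₀) := Nat.mul_le_mul_right _ hij
    have h3 : (i + 1) * (N₁ + K₀) = i * (N₁ + K₀) + (N₁ + K₀) := by ring
    omega
  have hτJ : ∀ j, j ≤ J → τ j ≤ J * (N₁ + K₀) + K₀ + 1 := by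
    intro j hj
    rw [hτ]
    simp only
    have h1 := ha j
    have h2 : j * (N₁ + K₀) ≤ J * (N₁ + K₀) := Nat.mul_le_mul_right _ hj
    omega
  obtain ⟨V, hV⟩ : ∃ V : ℕ → E, V = fun j => d.word x (ids E) (τ j) v := ⟨_, rfl⟩
  have hVB : ∀ j, V j ∈ B (d.f^[τ j] x) := fun j => by rw [hV]; exact hB x v hv _
  have hV0 : ∀ j, 0 < ‖V j‖ := by
    intro j
    rw [norm_pos_iff]
    intro h0
    apply hv0
    rw [hV] at h0
    exact (d.word x (ids E) (τ j)).injective (h0.trans (map_zero _).symm)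
  have hVC : ∀ j, ‖V j‖ ≤ C * ‖v‖ := fun j => by rw [hV]; exact hbd x v hv _
  have hstep : ∀ i j, i < j → d.f^[τ j - τ i] (d.f^[τ i] x) = d.f^[τ j] x ∧
      V j = d.word (d.f^[τ i] x) (ids E) (τ j - τ i) (V i) := by
    intro i j hij
    have h1 := hτlt i j hij
    constructor
    · rw [← Function.iterate_add_apply]
      congr 1
      omega
    · rw [hV]
      simp only
      rw [← Coc.word_ids_add]
      congr 2
      omega
  -- the levels
  obtain ⟨lv, hlv⟩ : ∃ lv : ℕ → ℝ, lv = fun j => Real.log (C * ‖v‖ / ‖V j‖) / Real.log ρ := ⟨_, rfl⟩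
  have hlv0 : ∀ j, 0 ≤ lv j := by
    intro j
    rw [hlv]
    apply div_nonneg _ hlog.le
    apply Real.log_nonneg
    rw [one_le_div (hV0 j)]
    exact hVC j
  obtain ⟨j, hjJ, hj⟩ : ∃ j, j ≤ J ∧ (L : ℝ) ≤ lv j := by
    by_contra hcon
    push Not at hcon
    have hfl : ∀ j : Fin (J + 1), ⌊lv j⌋₊ < L := fun j =>
      (Nat.floor_lt (hlv0 j)).2 (hcon j (Nat.lt_succ_iff.1 j.2))
    have hun : ∀ j, ‖(‖V j‖⁻¹ • V j)‖ = 1 := by
      intro j
      rw [norm_smul, norm_inv, norm_norm, inv_mul_cancel₀ (hV0 j).ne']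
    let φ : Fin (J + 1) → Fin K × (t × Fin L) := fun j =>
      (col (d.f^[τ j] x), (g (‖V j‖⁻¹ • V j) (hun j).le, ⟨⌊lv j⌋₊, hfl j⟩))
    obtain ⟨i, j, hij, hφ⟩ : ∃ i j : Fin (J + 1), i < j ∧ φ i = φ j := by
      have hcard : Fintype.card (Fin K × (t × Fin L)) < Fintype.card (Fin (J + 1)) := by
        rw [Fintype.card_prod, Fintype.card_prod, Fintype.card_fin, Fintype.card_fin,
          Fintype.card_fin, hJ]
        exact Nat.lt_succ_self _
      obtain ⟨i, j, hne, hφ⟩ := Fintype.exists_ne_map_eq_of_card_lt φ hcard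
      rcases lt_or_gt_of_ne hne with h | h
      · exact ⟨i, j, h, hφ⟩
      · exact ⟨j, i, h, hφ.symm⟩
    have e1 : col (d.f^[τ i] x) = col (d.f^[τ j] x) := congrArg Prod.fst hφ
    have e2 : g (‖V i‖⁻¹ • V i) (hun i).le = g (‖V j‖⁻¹ • V j) (hun j).le :=
      congrArg (fun p => p.2.1) hφ
    have e3 : ⌊lv i⌋₊ = ⌊lv j⌋₊ := congrArg (fun p => (p.2.2 : ℕ)) hφ
    have hij' : (i : ℕ) < j := hij
    obtain ⟨s1, s2⟩ := hstep i j hij'
    have hτij := hτlt i j hij'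
    -- the directions are close
    have h1 : ‖(‖V j‖⁻¹ • V j) - ‖V i‖⁻¹ • V i‖ < δ / 2 := by
      have h2 := hg _ (hun i).le
      have h3 := hg _ (hun j).le
      rw [e2] at h2
      rw [← dist_eq_norm]
      calc _ ≤ dist (‖V j‖⁻¹ • V j) (g (‖V j‖⁻¹ • V j) (hun j).le : E) +
            dist (‖V i‖⁻¹ • V i) (g (‖V j‖⁻¹ • V j) (hun j).le : E) := dist_triangle_right _ _ _
        _ < δ / 2 := by linarith
    -- the lengths are close
    have h4 : |lv i - lv j| < 1 := by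
      have a1 := Nat.floor_le (hlv0 i)
      have a2 := Nat.lt_floor_add_one (lv i)
      have a3 := Nat.floor_le (hlv0 j)
      have a4 := Nat.lt_floor_add_one (lv j)
      rw [e3] at a1 a2
      rw [abs_lt]
      constructor <;> linarith
    have h5 : lv i - lv j = Real.log (‖V j‖ / ‖V i‖) / Real.log ρ := by
      rw [hlv]
      simp only
      have hCv : C * ‖v‖ ≠ 0 := by positivity
      rw [Real.log_div hCv (hV0 i).ne', Real.log_div hCv (hV0 j).ne',
        Real.log_div (hV0 j).ne' (hV0 i).ne']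
      ring
    rw [h5, abs_lt, lt_div_iff₀ hlog, div_lt_iff₀ hlog] at h4
    obtain ⟨h6, h7⟩ := h4
    have hr0 : 0 < ‖V j‖ / ‖V i‖ := div_pos (hV0 j) (hV0 i)
    have h8 : ‖V j‖ / ‖V i‖ < ρ := by
      rw [one_mul] at h7
      exact (Real.log_lt_log_iff hr0 hρ0).1 h7
    have h9 : ρ⁻¹ < ‖V j‖ / ‖V i‖ := by
      rw [neg_mul, one_mul, ← Real.log_inv] at h6
      exact (Real.log_lt_log_iff (by positivity) hr0).1 h6
    have h10 := hstar (d.f^[τ i] x) (τ j - τ i) (hτNP i) (by rw [s1]; exact hτNP j) (by omega)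
      (by rw [s1]; exact e1) (‖V i‖ / ‖V j‖) (by
        rw [inv_le_comm₀ hρ0 (div_pos (hV0 i) (hV0 j)), inv_div]
        exact h8.le) (by
        rw [← inv_div]
        rw [inv_le_comm₀ hr0 hρ0]
        exact h9.le) (‖V i‖⁻¹ • V i)
    rw [map_smul, ← s2, hun, smul_smul] at h10
    have h11 : ‖V i‖ / ‖V j‖ * ‖V i‖⁻¹ = ‖V j‖⁻¹ := by
      have := (hV0 i).ne'
      field_simp
    rw [h11] at h10
    linarith
  -- conclusion
  have h1 : (L : ℝ) * Real.log ρ ≤ Real.log (C * ‖v‖ / ‖V j‖) := by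
    rw [hlv] at hj
    simp only at hj
    rwa [le_div_iff₀ hlog] at hj
  have h2 : ρ ^ L ≤ C * ‖v‖ / ‖V j‖ := by
    have h3 : 0 < C * ‖v‖ / ‖V j‖ := div_pos (by positivity) (hV0 j)
    rw [← Real.log_pow] at h1
    exact (Real.log_le_log_iff (by positivity) h3).1 h1
  rw [le_div_iff₀ (hV0 j)] at h2
  have h3 := hτJ j hjJ
  obtain ⟨T, hT⟩ : ∃ T, T = J * (N₁ + K₀) + K₀ + 1 := ⟨_, rfl⟩
  rw [← hT] at h3 ⊢
  have h4 : d.word x (ids E) T v = d.word (d.f^[τ j] x) (ids E) (T - τ j) (V j) := by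
    rw [hV]
    simp only
    rw [← Coc.word_ids_add]
    congr 2
    omega
  rw [h4]
  have h5 := hbd _ _ (hVB j) (T - τ j)
  have h6 := hV0 j
  have h7 : 2 * C ^ 2 * ‖V j‖ ≤ C * ‖v‖ := by
    calc 2 * C ^ 2 * ‖V j‖ ≤ ρ ^ L * ‖V j‖ := by gcongr
      _ ≤ _ := h2
  have h8 : 2 * C * ‖V j‖ ≤ ‖v‖ := by
    have : C * (2 * C * ‖V j‖) ≤ C * ‖v‖ := by
      calc C * (2 * C * ‖V j‖) = 2 * C ^ 2 * ‖V j‖ := by ring
        _ ≤ _ := h7
    exact le_of_mul_le_mul_left this hC0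
  linarith

end Pool.Agent.H245.SK
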