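import Pool.Agent.H245.SK.S3
import Pool.Agent.H245.SH.Y9

/-!
# Axiom A and cycles from the star condition with a scalar for every block
-/

set_option autoImplicit false
set_option linter.unusedSectionVars false

open scoped Manifold ContDiff Topology NNReal
open Filter Set Metric

universe u v w

namespace Pool.Agent.H245.SK

open Pool.Agent.H718R2.G Pool.Agent.W564.SC Pool.Agent.TH80.OMS Pool.Agent.Y271.CP
  Pool.Agent.Y504.CO Pool.Agent.H721R2 Pool.Agent.H245.SH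

variable {m : ℕ} {M : Type v} [MetricSpace M] [CompactSpace M] [ChartedSpace (V m) M]
  [IsManifold (𝓡 m) ∞ M]

/-- the lower bound along closed pseudo-orbits with one jump -/
theorem jump_lowerB (A : FAtlas m M) {f : M → M} {c : Coc M (V m)} (hc : IsDc A f c) {N₀ T : ℕ}
    {ε ρ : ℝ} (hε : 0 < ε) (hρ : 1 < ρ) (h : KStarB (T + 1) A f N₀ ε ρ) {x : M} {p : ℕ}
    (hp : N₀ ≤ p) (hx : dist (f^[p + 1] x) x < ε) (v : V m) :
    min 1 ε / 8 * ‖v‖ ≤ ‖Dm A f (f^[p] x) x (c.word x (ids (V m)) p v) - v‖ := by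
  by_contra hcon
  rw [not_le] at hcon
  have hm0 : 0 < min 1 ε := lt_min one_pos hε
  have hm1 : min 1 ε ≤ 1 := min_le_left _ _
  have hm2 : min 1 ε ≤ ε := min_le_right _ _
  have hcon' : ‖v - Dm A f (f^[p] x) x (c.word x (ids (V m)) p v)‖ < (min 1 ε / 2) / 4 * ‖v‖ := by
    rw [norm_sub_rev]
    calc _ < min 1 ε / 8 * ‖v‖ := hcon
      _ = _ := by ring
  obtain ⟨e, he, hev⟩ := Coc.exists_near_map (δ := min 1 ε / 2) (by positivity) (by linarith) hcon'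
  have hv0 : v ≠ 0 := by
    rintro rfl
    rw [norm_zero, mul_zero] at hcon
    exact absurd hcon (not_lt.2 (norm_nonneg _))
  have hno := h (fun _ => f^[p + 1] x) (fun _ => x) (fun _ => (e : V m →L[ℝ] V m))
    (fun _ => hx) (fun _ => (near_norm (by positivity) he).trans_lt (by linarith)) [(0, p)]
    (by simp) (fun q hq => by rw [List.mem_singleton.1 hq]; exact hp) x (by
      rw [val_cons]
      exact ⟨rfl, val_nil _ _ _⟩) (by rw [endp_cons, endp_nil]) 1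
    (inv_le_one_of_one_le₀ (one_le_pow₀ hρ.le)) (one_le_pow₀ hρ.le)
  rw [one_smul] at hno
  apply hv0
  apply noOne_fix hno
  rw [lin_cons hc, lin_nil]
  exact hev

/-- **The periodic points are dense in the nonwandering set.** -/
theorem omega_subB {r : ℕ∞} (hr : 1 ≤ r) (f : DiffM m M r)
    (H : ∀ A : FAtlas m M, ∃ (c : Coc M (V m)) (N₀ : ℕ) (ε κ : ℝ), IsDc A f c ∧ 0 < ε ∧ 0 < κ ∧
      ∀ (x : M) (p : ℕ), N₀ ≤ p → dist (f^[p + 1] x) x < ε → ∀ v : V m,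
        κ * ‖v‖ ≤ ‖Dm A f (f^[p] x) x (c.word x (ids (V m)) p v) - v‖) :
    Pool.Agent.H728R2.OS.Omega f.toHomeomorph ⊆
      closure (Pool.Agent.H728R2.OS.Per f.toHomeomorph) := by
  intro x hx
  by_contra hxc
  set Pc := closure (Pool.Agent.H728R2.OS.Per f.toHomeomorph) with hPc
  obtain ⟨A, G, hG, hjx⟩ := exists_fatlas_at m x
  obtain ⟨c, N₀, ε, κ, hc, hε, hκ0, hst⟩ := H A
  set χ := A.χ (A.jx x) with hχ
  have hxs : x ∈ χ.source := A.src x
  have hxt : χ x ∈ χ.target := χ.map_source hxs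
  -- a good neighbourhood
  have hO : G ∩ Pcᶜ ∩ ball x (ε / 2) ∈ 𝓝 x :=
    inter_mem (inter_mem hG (isClosed_closure.isOpen_compl.mem_nhds hxc))
      (ball_mem_nhds x (by positivity))
  obtain ⟨s₀, hs₀, hball⟩ : ∃ s₀ > 0, ∀ v, ‖v - χ x‖ ≤ 2 * s₀ → v ∈ χ.target ∧
      χ.symm v ∈ G ∧ χ.symm v ∉ Pc ∧ dist (χ.symm v) x < ε / 2 := by
    have h1 : ContinuousAt χ.symm (χ x) := χ.continuousAt_symm hxt
    have h2 : χ.symm ⁻¹' (G ∩ Pcᶜ ∩ ball x (ε / 2)) ∈ 𝓝 (χ x) := by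
      apply h1.preimage_mem_nhds
      rw [χ.left_inv hxs]
      exact hO
    obtain ⟨s, hs, hsub⟩ := Metric.nhds_basis_closedBall.mem_iff.1
      (inter_mem h2 (χ.open_target.mem_nhds hxt))
    refine ⟨s / 2, by positivity, fun v hv => ?_⟩
    have h3 : v ∈ closedBall (χ x) s := by
      rw [mem_closedBall, dist_eq_norm]
      linarith
    obtain ⟨⟨⟨h4, h5⟩, h6⟩, h7⟩ := hsub h3
    exact ⟨h7, h4, h5, h6⟩
  set s₁ := min (s₀ / 8) (κ * s₀ / 16) with hs₁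
  have hs₁0 : 0 < s₁ := by positivity
  have hs₁a : s₁ ≤ s₀ / 8 := min_le_left _ _
  have hs₁b : s₁ ≤ κ * s₀ / 16 := min_le_right _ _
  -- the returns
  have hnp : ∀ i, 0 < i → f^[i] x ≠ x := fun i hi h => hxc (subset_closure ⟨i, hi, h⟩)
  have hret : ∀ i, ∃ U ∈ 𝓝 x, 0 < i → Disjoint (f^[i] '' U) U := by
    intro i
    rcases Nat.eq_zero_or_pos i with rfl | hi
    · exact ⟨univ, univ_mem, fun h => absurd h (lt_irrefl 0)⟩
    · obtain ⟨V₁, V₂, h1, h2, h3, h4, h5⟩ := t2_separation (hnp i hi)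
      refine ⟨f^[i] ⁻¹' V₁ ∩ V₂, inter_mem ((f.continuous.iterate i).continuousAt.preimage_mem_nhds
        (h1.mem_nhds h3)) (h2.mem_nhds h4), fun _ => ?_⟩
      refine h5.mono ?_ inter_subset_right
      rintro _ ⟨y, hy, rfl⟩
      exact hy.1
  choose U' hU' hUd using hret
  have hU1 : (χ.source ∩ χ ⁻¹' ball (χ x) s₁) ∩ ⋂ i ∈ Finset.range (N₀ + 1), U' i ∈ 𝓝 x := by
    refine inter_mem ?_ ?_
    · exact (χ.isOpen_inter_preimage isOpen_ball).mem_nhds ⟨hxs, mem_ball_self hs₁0⟩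
    · exact (Finset.iInter_mem_sets _).2 fun i _ => hU' i
  obtain ⟨n, hn, y, ⟨ξ, hξ, hξy⟩, hy⟩ := hx _ hU1
  have hiter : ∀ (j : ℕ) (z : M), f.toHomeomorph^[j] z = f^[j] z := fun j z => rfl
  have hξy' : f^[n] ξ = y := hξy
  have hnN : N₀ + 1 ≤ n := by
    by_contra hcon
    have h1 : n ∈ Finset.range (N₀ + 1) := by
      rw [Finset.mem_range]
      omega
    have h2 : ξ ∈ U' n := Set.mem_iInter₂.1 hξ.2 n h1
    have h3 : y ∈ U' n := Set.mem_iInter₂.1 hy.2 n h1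
    exact Set.disjoint_left.1 (hUd n hn) ⟨ξ, h2, hξy'⟩ h3
  obtain ⟨p, rfl⟩ : ∃ p, n = p + 1 := ⟨n - 1, by omega⟩
  have hp : N₀ ≤ p := by omega
  -- the map in the chart
  set g : V m → M := fun v => f^[p + 1] (χ.symm v) with hg
  set φ : V m → V m := fun v => χ (g v) - v with hφ
  set v₀ := χ ξ with hv₀
  have hv₀n : ‖v₀ - χ x‖ < s₁ := by
    have := hξ.1.2
    rwa [mem_preimage, mem_ball, dist_eq_norm] at this
  have hyn : ‖χ y - χ x‖ < s₁ := by
    have := hy.1.2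
    rwa [mem_preimage, mem_ball, dist_eq_norm] at this
  have hgv₀ : g v₀ = y := by
    rw [hg]
    simp only
    rw [hv₀, χ.left_inv hξ.1.1, hξy']
  have hφv₀ : ‖φ v₀‖ < 2 * s₁ := by
    rw [hφ]
    simp only
    rw [hgv₀]
    have e1 : χ y - v₀ = (χ y - χ x) - (v₀ - χ x) := by abel
    rw [e1]
    refine (norm_sub_le _ _).trans_lt ?_
    linarith
  set CB : Set M := χ.symm '' closedBall (χ x) (2 * s₀) with hCB
  have hCBsub : closedBall (χ x) (2 * s₀) ⊆ χ.target := fun v hv => by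
    rw [mem_closedBall, dist_eq_norm] at hv
    exact (hball v hv).1
  have hCBc : IsClosed CB :=
    ((isCompact_closedBall (χ x) (2 * s₀)).image_of_continuousOn
      (χ.continuousOn_symm.mono hCBsub)).isClosed
  have hCB_iff : ∀ z, z ∈ CB → z ∈ χ.source ∧ ‖χ z - χ x‖ ≤ 2 * s₀ := by
    rintro z ⟨v, hv, rfl⟩
    rw [χ.right_inv (hCBsub hv)]
    refine ⟨χ.map_target (hCBsub hv), ?_⟩
    rwa [mem_closedBall, dist_eq_norm] at hv
  have hCB_iff' : ∀ z, z ∈ χ.source → ‖χ z - χ x‖ ≤ 2 * s₀ → z ∈ CB := by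
    intro z hz hz'
    exact ⟨χ z, by rwa [mem_closedBall, dist_eq_norm], χ.left_inv hz⟩
  set s := s₀ / 2 with hs
  have hsub0 : ∀ v ∈ closedBall v₀ s, ‖v - χ x‖ ≤ s₀ := by
    intro v hv
    rw [mem_closedBall, dist_eq_norm] at hv
    have e1 : v - χ x = (v - v₀) + (v₀ - χ x) := by abel
    rw [e1]
    refine (norm_add_le _ _).trans ?_
    linarith
  have hgcont : ContinuousOn g (closedBall v₀ s) := by
    apply (f.continuous.iterate (p + 1)).comp_continuousOn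
    apply χ.continuousOn_symm.mono
    intro v hv
    exact (hball v ((hsub0 v hv).trans (by linarith))).1
  set K : Set (V m) := closedBall v₀ s ∩ g ⁻¹' CB with hK
  have hKc : IsCompact K :=
    (isCompact_closedBall v₀ s).of_isClosed_subset
      (hgcont.preimage_isClosed_of_isClosed isClosed_closedBall hCBc) inter_subset_left
  have hv₀K : v₀ ∈ K := by
    refine ⟨mem_closedBall_self (by positivity), ?_⟩
    show g v₀ ∈ CB
    rw [hgv₀]
    exact hCB_iff' y hy.1.1 (by linarith)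
  have hφc : ContinuousOn φ K := by
    apply ContinuousOn.sub _ continuousOn_id
    apply χ.continuousOn.comp (hgcont.mono inter_subset_left)
    intro v hv
    exact (hCB_iff _ hv.2).1
  obtain ⟨v, hv, hv0⟩ := ls_zero (φ := φ) (K := K) (v₀ := v₀) (κ := κ) (s := s) hκ0 hKc hv₀K hφc (by
    intro v hv hv1 hv2
    obtain ⟨h1, h2⟩ := hCB_iff _ hv.2
    have h3 := hsub0 v hv.1
    obtain ⟨h4, h5, h6, h7⟩ := hball v (h3.trans (by linarith))
    have h8 : ‖χ (g v) - χ x‖ < 2 * s₀ := by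
      have e1 : χ (g v) - χ x = φ v + (v - v₀) + (v₀ - χ x) := by
        rw [hφ]
        simp only
        abel
      rw [e1]
      refine (norm_add₃_le).trans_lt ?_
      linarith
    obtain ⟨h9, h10, h11, h12⟩ := hball (χ (g v)) h2
    rw [χ.left_inv h1] at h12
    refine ⟨inter_mem (closedBall_mem_nhds_of_mem (by
      rw [mem_ball, dist_eq_norm]
      exact hv2)) ?_, ?_⟩
    · have h13 : ContinuousAt g v := by
        apply (f.continuous.iterate (p + 1)).continuousAt.comp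
        exact χ.continuousAt_symm h4
      have h14 : χ.source ∩ χ ⁻¹' ball (χ x) (2 * s₀) ∈ 𝓝 (g v) :=
        (χ.isOpen_inter_preimage isOpen_ball).mem_nhds ⟨h1, by
          rw [mem_preimage, mem_ball, dist_eq_norm]
          exact h8⟩
      refine mem_of_superset (h13.preimage_mem_nhds h14) ?_
      rintro w ⟨hw1, hw2⟩
      rw [mem_preimage, mem_ball, dist_eq_norm] at hw2
      exact hCB_iff' _ hw1 hw2.le
    · set ξ' := χ.symm v with hξ'
      have hjξ : A.jx ξ' = A.jx x := hjx _ h5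
      have hχξ : χ ξ' = v := χ.right_inv h4
      have hgv : g v = f^[p + 1] ξ' := rfl
      have h13 := jump_deriv A hr f hc ξ' ξ' p (by
        rw [hjξ]
        exact h1)
      rw [hjξ, ← hχ, hχξ] at h13
      have hdist : dist (f^[p + 1] ξ') ξ' < ε := by
        have h14 := dist_triangle_right (f^[p + 1] ξ') ξ' x
        rw [← hgv] at h14 ⊢
        linarith
      refine ⟨_, h13.sub (hasFDerivAt_id v), fun w => ?_⟩
      exact hst ξ' p hp hdist w) (by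
    calc 2 / κ * ‖φ v₀‖ < 2 / κ * (2 * s₁) := by gcongr
      _ ≤ 2 / κ * (2 * (κ * s₀ / 16)) := by gcongr
      _ = s₀ / 4 := by field_simp; ring
      _ < s := by rw [hs]; linarith)
  obtain ⟨h1, h2⟩ := hCB_iff _ hv.2
  have h3 := hsub0 v hv.1
  obtain ⟨h4, h5, h6, h7⟩ := hball v (h3.trans (by linarith))
  apply h6
  apply subset_closure
  refine ⟨p + 1, Nat.succ_pos p, ?_⟩
  have h8 : χ (g v) = v := sub_eq_zero.1 hv0
  have h9 : g v = χ.symm v := by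
    rw [← χ.left_inv h1, h8]
  exact h9


/-- the closed pseudo-orbits of a diffeomorphism -/
theorem exists_dat {r : ℕ∞} (hr : 2 ≤ r) (f : DiffM m M r)
    (H : ∀ (T : ℕ) (A : FAtlas m M), ∃ (N₀ : ℕ) (ε ρ : ℝ), 0 < ε ∧ 1 < ρ ∧ KStarB T A f N₀ ε ρ)
    (A : FAtlas m M) {ι : Type} [Finite ι] (nx : ι ≃ ι) :
    ∃ (c : Coc M (V m)) (G : ℕ) (η : ℝ) (d : Coc (PX (f.toHomeomorph : M → M) nx G η) (V m)),
      (∀ x, c.f x = f.toHomeomorph x) ∧ (∀ x v, c.A x v = Dm A f x (f x) v) ∧ 0 < η ∧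
      IsPc A d ∧ IsDc A (f.toHomeomorph : M → M) c ∧ ∃ C₇ ≥ 1, ∃ q : ℝ, 0 < q ∧ q < 1 ∧
      ∀ x : PX (f.toHomeomorph : M → M) nx G η, IsCompl (d.Bd x) (d.inv.Bd x) ∧
      (∀ v ∈ d.Bd x, ∀ n, ‖d.word x (ids (V m)) n v‖ ≤ C₇ * q ^ n * ‖v‖) ∧
      ∀ w ∈ d.inv.Bd x, ∀ n, ‖d.inv.word x (ids (V m)) n w‖ ≤ C₇ * q ^ n * ‖w‖ := by
  have : Fintype ι := Fintype.ofFinite ι
  obtain ⟨c, ε₁, hcf, hcA, hε₁, hDm⟩ := exists_dc A hr f
  obtain ⟨N₀, ε, ρ, hε, hρ, hst⟩ := H (Fintype.card ι + 5) A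
  obtain ⟨η, hη⟩ : ∃ η, η = min ε ε₁ := ⟨_, rfl⟩
  have hη0 : 0 < η := by rw [hη]; exact lt_min hε hε₁
  have hηε : η ≤ ε := by rw [hη]; exact min_le_left _ _
  have hηε₁ : η ≤ ε₁ := by rw [hη]; exact min_le_right _ _
  obtain ⟨δ, hδ, hδ1, hδε⟩ : ∃ δ : ℝ, 0 < δ ∧ δ ≤ 1 ∧ δ < ε :=
    ⟨min 1 (ε / 2), by positivity, min_le_left _ _, (min_le_right _ _).trans_lt (by linarith)⟩
  have hc : IsDc A (f.toHomeomorph : M → M) c := ⟨hcf, hcA⟩
  obtain ⟨d, hd, hdΛ⟩ := exists_pc A (f := (f.toHomeomorph : M → M)) c.one_le hDm nx (2 * N₀ + 1)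
    hη0 hηε₁
  have D : DatB A d c N₀ ε ρ δ := ⟨hd, hc, le_rfl, hst, hρ, hδ, hδε, hη0, hηε⟩
  exact ⟨c, 2 * N₀ + 1, η, d, hcf, hcA, hη0, hd, hc, D.uniform hδ1⟩

/-- **Axiom A from the star condition.** -/
theorem axiomA_of_kstarB {r : ℕ∞} (hr : 2 ≤ r) (f : DiffM m M r)
    (H : ∀ (T : ℕ) (A : FAtlas m M), ∃ (N₀ : ℕ) (ε ρ : ℝ), 0 < ε ∧ 1 < ρ ∧ KStarB T A f N₀ ε ρ) :
    Q263.HS.AxiomA (V m) f.toHomeomorph := by
  have hr1 : (1 : ℕ∞) ≤ r := le_trans (by norm_num) hr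
  have hdense : Pool.Agent.H728R2.OS.Omega f.toHomeomorph ⊆
      closure (Pool.Agent.H728R2.OS.Per f.toHomeomorph) := by
    apply omega_subB hr1
    intro A
    obtain ⟨c, ε₁, hcf, hcA, -, -⟩ := exists_dc A hr f
    obtain ⟨N₀, ε, ρ, hε, hρ, hst⟩ := H 1 A
    exact ⟨c, N₀, ε, min 1 ε / 8, ⟨hcf, hcA⟩, hε, by positivity,
      fun x p hp hx v => jump_lowerB A ⟨hcf, hcA⟩ hε hρ hst hp hx v⟩
  have heq : Pool.Agent.H728R2.OS.Omega f.toHomeomorph =
      closure (Pool.Agent.H728R2.OS.Per f.toHomeomorph) :=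
    Subset.antisymm hdense (closure_minimal Q263.HS.per_omega Q263.HS.omega_closed)
  refine ⟨?_, hdense⟩
  rw [heq]
  obtain ⟨A⟩ := exists_fatlas m M
  obtain ⟨c, G, η, d, hcf, hcA, hη0, hd, hc, C₇, hC₇, q, hq0, hq1, hu⟩ :=
    exists_dat hr f H A (Equiv.refl Unit)
  have hit : ∀ (x : M) (n : ℕ), c.f^[n] x = f.toHomeomorph^[n] x := by
    intro x n
    induction n with
    | zero => rfl
    | succ n ih => rw [Function.iterate_succ_apply', Function.iterate_succ_apply', ih, hcf]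
  refine closure_hyp A hr1 f c hcf hcA (fun x => ?_) hq0 hq1 hC₇
    (fun x hx => br_split hd hc hq0 hq1 hC₇ hu (per_br (Equiv.refl Unit) G hη0 hx))
  constructor
  · rintro ⟨n, hn, hx⟩
    refine ⟨n, hn, ?_⟩
    rw [← hit] at hx ⊢
    apply c.f.injective
    rw [← Function.iterate_succ_apply' (f := (c.f : M → M)), Function.iterate_succ_apply]
    exact hx
  · rintro ⟨n, hn, hx⟩
    refine ⟨n, hn, ?_⟩
    rw [← hit] at hx ⊢
    rw [← Function.iterate_succ_apply (f := (c.f : M → M)), Function.iterate_succ_apply', hx]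

/-- **The points on cycles are limits of periodic points.** -/
theorem cyc_memB {r : ℕ∞} (hr : 2 ≤ r) (f : DiffM m M r)
    (H : ∀ (T : ℕ) (A : FAtlas m M), ∃ (N₀ : ℕ) (ε ρ : ℝ), 0 < ε ∧ 1 < ρ ∧ KStarB T A f N₀ ε ρ)
    {ι : Type} [Finite ι] {nx : ι ≃ ι} {w : ι → M} (hw : CycP f.toHomeomorph nx w) (i₀ : ι) :
    w i₀ ∈ closure (Pool.Agent.H728R2.OS.Per f.toHomeomorph) := by
  have hr1 : (1 : ℕ∞) ≤ r := le_trans (by norm_num) hr
  have : Nonempty (ι × Bool) := ⟨(i₀, true)⟩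
  obtain ⟨A⟩ := exists_fatlas m M
  obtain ⟨c, G, η, d, hcf, hcA, hη0, hd, hc, C₇, hC₇, q, hq0, hq1, hu⟩ :=
    exists_dat hr f H A (nx2 nx)
  have hinj : Function.Injective (f.toHomeomorph : M → M) := f.toHomeomorph.injective
  have hBR : ∀ x, c.f x ∈ BR (f.toHomeomorph : M → M) (nx2 nx) G η ↔
      x ∈ BR (f.toHomeomorph : M → M) (nx2 nx) G η := fun x => by
    rw [hcf]
    exact br_inv hinj x
  have hhyp := closure_hyp A hr1 f c hcf hcA hBR hq0 hq1 hC₇ (fun x hx =>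
    br_split hd hc hq0 hq1 hC₇ hu hx)
  have hiter : ∀ (n : ℕ) (x : M), f.toHomeomorph^[n] x ∈ BR (f.toHomeomorph : M → M) (nx2 nx) G η ↔
      x ∈ BR (f.toHomeomorph : M → M) (nx2 nx) G η := by
    intro n
    induction n with
    | zero => exact fun x => Iff.rfl
    | succ n ih =>
      intro x
      rw [Function.iterate_succ_apply', br_inv hinj, ih]
  have hwBR : ∀ i, w i ∈ BR (f.toHomeomorph : M → M) (nx2 nx) G η := by
    intro i L
    obtain ⟨x, h1, h2, h3, -⟩ := exists_px hw G hη0 L i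
    exact ⟨x, h1, h2, h3⟩
  refine per_of_chain hr1 f hhyp fun η' hη' => ?_
  obtain ⟨x, -, -, h3, h4⟩ := exists_px hw G hη' 0 i₀
  obtain ⟨n, hn, hx⟩ := x.periodic
  refine ⟨n, fun k => (PX.nxt^[k] x).pt, hn, h3, by
    show (PX.nxt^[n] x).pt = w i₀
    rw [hx, h3], fun k => subset_closure ?_, fun k _ => ?_⟩
  · have h5 : (PX.nxt^[k] x).z = x.z := (x.iter_zl k).1
    show f.toHomeomorph^[(PX.nxt^[k] x).i] ((PX.nxt^[k] x).z (PX.nxt^[k] x).j) ∈ _
    rw [hiter, h5]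
    rcases h4 (PX.nxt^[k] x).j with h6 | ⟨n', i, h6⟩
    · exact per_br (nx2 nx) G hη0 h6
    · rw [← hiter n', h6]
      exact hwBR i
  · show dist (f.toHomeomorph (PX.nxt^[k] x).pt) (PX.nxt^[k + 1] x).pt < η'
    rw [Function.iterate_succ_apply']
    exact PX.dist_nxt hη' _

end Pool.Agent.H245.SK
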