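import Pool.Agent.H245.SK.S8
import Pool.Agent.H245.SH.Y11
import Pool.Agent.H245.SH.Fin

/-!
# Products `f × h`
-/

set_option autoImplicit false
set_option linter.unusedSectionVars false

open scoped Manifold ContDiff Topology NNReal
open Filter Set Metric

universe u v w

namespace Pool.Agent.H245.SK

open Pool.Agent.H718R2.G Pool.Agent.W564.SC Pool.Agent.TH80.OMS Pool.Agent.Y271.CP
  Pool.Agent.Y504.CO Pool.Agent.H245.SH

/-- the star condition with a scalar for every block -/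
theorem exists_kstarB {m : ℕ} {M : Type v} [MetricSpace M] [CompactSpace M] [ChartedSpace (V m) M]
    [IsManifold (𝓡 m) ∞ M] {r : ℕ∞} (hr : 1 ≤ r) (f : DiffM m M r) {k n : ℕ}
    {Y : Type w} [TopologicalSpace Y] [T2Space Y] [SigmaCompactSpace Y]
    [ChartedSpace (V k) Y] [IsManifold (𝓡 k) ∞ Y] {h : Y → Y} (hc : Continuous h) {K : Set Y}
    (hh : Sp1 h K)
    {N : Type u} [TopologicalSpace N] [T2Space N] [CompactSpace N] [ChartedSpace (V n) N]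
    [IsManifold (𝓡 n) ∞ N] {Θ : M × Y → N} (F : DiffM n N r)
    (hΘ : IsLocalDiffeomorph ((𝓡 m).prod (𝓡 k)) (𝓡 n) ∞ Θ)
    (hinj : Function.Injective Θ)
    (hF : ∀ x, ∀ y ∈ K, F (Θ (x, y)) = Θ (f x, h y)) (hst : CStar n N r F)
    (T : ℕ) (A : FAtlas m M) :
    ∃ (N₀ : ℕ) (ε ρ : ℝ), 0 < ε ∧ 1 < ρ ∧ KStarB T A f N₀ ε ρ := by
  by_cases hMe : IsEmpty M
  · exact ⟨0, 1, 2, one_pos, by norm_num, fun a b R _ _ bs _ _ x => (hMe.false x).elim⟩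
  rw [not_isEmpty_iff] at hMe
  obtain ⟨N₁, hdr₁⟩ := driver_of_sparse (sparse_of_one hc 1 hh)
  have hYe := hdr₁.nonempty
  obtain ⟨N₀, hdr⟩ := driver_of_sparse (sparse_of_one hc T hh)
  obtain ⟨E, hE⟩ := exists_gemb (I' := 𝓡 k) hΘ hinj
  obtain ⟨ε, hε, h⟩ := kick_star0 A hr f E F hdr (by rw [hE]; exact hF) hst
  obtain ⟨ε', ρ, h1, h2, h3⟩ := kstarB_of hε h
  exact ⟨N₀, ε', ρ, h1, h2, h3⟩

/-- **The factor `f` of `f × h` satisfies Axiom A and has no cycles.** -/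
theorem u3_of_kstarB {m : ℕ} {M : Type v} [MetricSpace M] [CompactSpace M] [ChartedSpace (V m) M]
    [IsManifold (𝓡 m) ∞ M] {r : ℕ∞} (hr : 2 ≤ r) (f : DiffM m M r)
    (H : ∀ (T : ℕ) (A : FAtlas m M), ∃ (N₀ : ℕ) (ε ρ : ℝ), 0 < ε ∧ 1 < ρ ∧ KStarB T A f N₀ ε ρ) :
    Q263.HS.AxiomA (V m) f.toHomeomorph ∧ Pool.Agent.H728R2.OS.NoCycle f.toHomeomorph := by
  have h1 : Q263.HS.AxiomA (V m) f.toHomeomorph := axiomA_of_kstarB hr f H
  refine ⟨h1, noCycle_of_cyc h1.2 fun n w hw i => ?_⟩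
  exact closure_minimal Q263.HS.per_omega Q263.HS.omega_closed (cyc_memB hr f H hw i)

/-- the points on cycles are limits of periodic points -/
def CycPer {X : Type v} [MetricSpace X] (f : X ≃ₜ X) : Prop :=
  ∀ (l : ℕ) (w : Fin (l + 2) → X), CycP f (Equiv.addRight (1 : Fin (l + 2))) w → ∀ i,
    w i ∈ closure (Pool.Agent.H728R2.OS.Per f)

theorem cycPer_of_chain {X : Type v} [MetricSpace X] {f : X ≃ₜ X}
    (h : Pool.Agent.H728R2.OS.ChainRec f ⊆ closure (Pool.Agent.H728R2.OS.Per f)) : CycPer f :=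
  fun _ _ hw i => h (hw.chain i)

theorem u3_of_cycPer {n : ℕ} {N : Type u} [MetricSpace N] [CompactSpace N]
    [ChartedSpace (V n) N] [IsManifold (𝓡 n) ∞ N] {F : N ≃ₜ N}
    (h : Q263.HS.AxiomA (V n) F) (hc : CycPer F) : Pool.Agent.H728R2.OS.NoCycle F :=
  noCycle_of_cyc h.2 fun l w hw i =>
    closure_minimal Q263.HS.per_omega Q263.HS.omega_closed (hc l w hw i)

theorem iter_prod {X : Type u} {Z : Type v} {W : Type w} {F : W → W} {f : X → X} {g : Z → Z}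
    {Θ : X × Z → W} (hF : ∀ x y, F (Θ (x, y)) = Θ (f x, g y)) (l : ℕ) : ∀ (a : X) (y : Z),
      F^[l] (Θ (a, y)) = Θ (f^[l] a, g^[l] y) := by
  induction l with
  | zero => exact fun a y => rfl
  | succ l ih =>
    intro a y
    rw [Function.iterate_succ_apply, Function.iterate_succ_apply, Function.iterate_succ_apply, hF,
      ih]

/-- **Products of diffeomorphisms with Axiom A satisfy Axiom A.** -/
theorem axiomA_prod2 {m k n : ℕ} {M : Type v} [MetricSpace M] [CompactSpace M]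
    [ChartedSpace (V m) M] [IsManifold (𝓡 m) ∞ M] {Y : Type w} [MetricSpace Y]
    [ChartedSpace (V k) Y] [IsManifold (𝓡 k) ∞ Y] {N : Type u} [MetricSpace N] [CompactSpace N]
    [ChartedSpace (V n) N] [IsManifold (𝓡 n) ∞ N] {r : ℕ∞} (hr : 1 ≤ r) (f : DiffM m M r)
    (g : DiffM k Y r) (F : DiffM n N r) {Θ : M × Y → N}
    (hΘ : IsLocalDiffeomorph ((𝓡 m).prod (𝓡 k)) (𝓡 n) ∞ Θ)
    (hinj : Function.Injective Θ) (hsurj : Function.Surjective Θ)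
    (hF : ∀ x y, F (Θ (x, y)) = Θ (f x, g y))
    (h₁ : Q263.HS.AxiomA (V m) f.toHomeomorph) (h₂ : Q263.HS.AxiomA (V k) g.toHomeomorph) :
    Q263.HS.AxiomA (V n) F.toHomeomorph ∧
      (CycPer f.toHomeomorph → CycPer g.toHomeomorph → CycPer F.toHomeomorph) := by
  have hr1 : ((1 : ℕ∞) : WithTop ℕ∞) ≤ ((r : ℕ∞) : WithTop ℕ∞) := by exact_mod_cast hr
  have hf1 : ContMDiff 𝓘(ℝ, V m) 𝓘(ℝ, V m) 1 (f.toHomeomorph : M → M) := f.contMDiff.of_le hr1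
  have hf1' : ContMDiff 𝓘(ℝ, V m) 𝓘(ℝ, V m) 1 (f.toHomeomorph.symm : M → M) :=
    f.symm.contMDiff.of_le hr1
  have hH1 : ContMDiff 𝓘(ℝ, V k) 𝓘(ℝ, V k) 1 (g.toHomeomorph : Y → Y) := g.contMDiff.of_le hr1
  have hH1' : ContMDiff 𝓘(ℝ, V k) 𝓘(ℝ, V k) 1 (g.toHomeomorph.symm : Y → Y) :=
    g.symm.contMDiff.of_le hr1
  have hF1 : ContMDiff 𝓘(ℝ, V n) 𝓘(ℝ, V n) 1 (F.toHomeomorph : N → N) := F.contMDiff.of_le hr1
  have hF1' : ContMDiff 𝓘(ℝ, V n) 𝓘(ℝ, V n) 1 (F.toHomeomorph.symm : N → N) :=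
    F.symm.contMDiff.of_le hr1
  -- the inverse map
  obtain ⟨Ψ, hleft, hright, hΨ⟩ : ∃ Ψ : N → M × Y, (∀ p, Ψ (Θ p) = p) ∧
      (∀ z, Θ (Ψ z) = z) ∧ ContMDiff (𝓡 n) ((𝓡 m).prod (𝓡 k)) ∞ Ψ := by
    by_cases hN : IsEmpty N
    · exact ⟨fun z => (hN.false z).elim, fun p => (hN.false (Θ p)).elim,
        fun z => (hN.false z).elim, fun z => (hN.false z).elim⟩
    rw [not_isEmpty_iff] at hN
    obtain ⟨z⟩ := hN
    obtain ⟨⟨x₀, y₀⟩, -⟩ := hsurj z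
    have : Nonempty M := ⟨x₀⟩
    have : Nonempty Y := ⟨y₀⟩
    obtain ⟨E, hE⟩ := exists_gemb (I' := 𝓡 k) hΘ hinj
    have hright : ∀ z, E.Θ (E.Ψ z) = z := by
      intro z
      obtain ⟨q, hq⟩ := hsurj z
      rw [← hE] at hq
      rw [← hq, E.left]
    refine ⟨E.Ψ, fun p => by rw [← hE]; exact E.left p, fun z => by rw [← hE]; exact hright z,
      fun z => ?_⟩
    have := E.smooth' (E.Ψ z)
    rwa [hright z] at this
  let Θ' : ProdDiffeo m k n M Y N :=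
    { toFun := Θ
      invFun := Ψ
      left_inv := hleft
      right_inv := hright
      contMDiff_toFun := hΘ.contMDiff
      contMDiff_invFun := hΨ }
  have hF' : ∀ x y, F.toHomeomorph (Θ' (x, y)) = Θ' (f.toHomeomorph x, g.toHomeomorph y) := hF
  have hyp := hyp_prod hf1 hf1' hH1 hH1' hF1 hF1' hF' h₁.1 h₂.1
  have c₁ : Continuous (pr₁ Θ') := (pr₁_smooth Θ').continuous
  have c₂ : Continuous (pr₂ Θ') := (pr₂_smooth Θ').continuous
  have hF₁ : ∀ z, pr₁ Θ' (F.toHomeomorph z) = f.toHomeomorph (pr₁ Θ' z) := fun z => pr₁_F hF' z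
  have hF₂ : ∀ z, pr₂ Θ' (F.toHomeomorph z) = g.toHomeomorph (pr₂ Θ' z) := fun z => pr₂_F hF' z
  have hsub : Pool.Agent.H728R2.OS.Omega F.toHomeomorph ⊆
      {z | pr₁ Θ' z ∈ Pool.Agent.H728R2.OS.Omega f.toHomeomorph ∧
        pr₂ Θ' z ∈ Pool.Agent.H728R2.OS.Omega g.toHomeomorph} := fun z hz =>
    ⟨omega_proj c₁ hF₁ hz, omega_proj c₂ hF₂ hz⟩
  have hmem : ∀ z : N, pr₁ Θ' z ∈ closure (Pool.Agent.H728R2.OS.Per f.toHomeomorph) →
      pr₂ Θ' z ∈ closure (Pool.Agent.H728R2.OS.Per g.toHomeomorph) →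
      z ∈ closure (Pool.Agent.H728R2.OS.Per F.toHomeomorph) := by
    intro z h1 h2
    have hmem : (pr₁ Θ' z, pr₂ Θ' z) ∈ closure (Pool.Agent.H728R2.OS.Per f.toHomeomorph ×ˢ
        Pool.Agent.H728R2.OS.Per g.toHomeomorph) := by
      rw [closure_prod_eq]
      exact ⟨h1, h2⟩
    have hcont : Continuous Θ := hΘ.contMDiff.continuous
    have h4 : z = Θ (pr₁ Θ' z, pr₂ Θ' z) := (hright z).symm
    rw [h4]
    refine closure_mono ?_ (image_closure_subset_closure_image hcont (mem_image_of_mem Θ hmem))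
    rintro _ ⟨⟨a, y⟩, ⟨⟨n₁, hn₁, ha⟩, ⟨n₂, hn₂, hy⟩⟩, rfl⟩
    refine ⟨n₁ * n₂, by positivity, ?_⟩
    have hit := iter_prod (F := F.toHomeomorph) (f := f.toHomeomorph) (g := g.toHomeomorph)
      (Θ := Θ) hF (n₁ * n₂) a y
    rw [hit]
    have e₁ : f.toHomeomorph^[n₁ * n₂] a = a := fix_mul ha _
    have e₂ : g.toHomeomorph^[n₁ * n₂] y = y := fix_mul' hy n₁
    rw [e₁, e₂]
  have hdense : Pool.Agent.H728R2.OS.Omega F.toHomeomorph ⊆
      closure (Pool.Agent.H728R2.OS.Per F.toHomeomorph) := fun z hz =>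
    hmem z (h₁.2 (hsub hz).1) (h₂.2 (hsub hz).2)
  refine ⟨⟨isHyp_mono hyp hsub Q263.HS.omega_closed (Q263.HS.omega_image _ hdense), hdense⟩,
    fun hc₁ hc₂ l W hW i => ?_⟩
  exact hmem _ (hc₁ l _ (hW.proj c₁ hF₁) i) (hc₂ l _ (hW.proj c₂ hF₂) i)

end Pool.Agent.H245.SK
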