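import Pool.Agent.H245.SK.S10
import Pool.Agent.H245.SH.V1

/-!
# The star condition from periodic orbits which follow a sequence of symbols several times
-/

set_option autoImplicit false
set_option linter.unusedSectionVars false

open scoped Manifold ContDiff Topology NNReal
open Filter Set Metric Polynomial

universe u v w

namespace Pool.Agent.H245.SK

open Pool.Agent.H718R2.G Pool.Agent.W564.SC Pool.Agent.TH80.OMS Pool.Agent.Y271.CP
  Pool.Agent.Y504.CO Pool.Agent.H245.SH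

section lin

variable {E : Type} [NormedAddCommGroup E] [InnerProductSpace ℝ E] [FiniteDimensional ℝ E]

theorem cp_pow_roots (A : E →L[ℝ] E) {k : ℕ} (hk : 1 ≤ k) :
    (cp (A ^ k)).roots = (cp A).roots.map fun l => l ^ k := by
  have b := Module.finBasis ℝ E
  have h1 : LinearMap.toMatrix b b ((A ^ k : E →L[ℝ] E) : E →ₗ[ℝ] E) =
      (LinearMap.toMatrix b b (A : E →ₗ[ℝ] E)) ^ k := by
    have h0 : ((A ^ k : E →L[ℝ] E) : E →ₗ[ℝ] E) = (A : E →ₗ[ℝ] E) ^ k :=
      ContinuousLinearMap.toLinearMap_pow A k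
    rw [h0]
    exact (LinearMap.toMatrix_pow b (A : E →ₗ[ℝ] E) k).symm
  rw [cp_matrix b, cp_matrix b, h1]
  have h3 : ((LinearMap.toMatrix b b (A : E →ₗ[ℝ] E)) ^ k).map (algebraMap ℝ ℂ) =
      ((LinearMap.toMatrix b b (A : E →ₗ[ℝ] E)).map (algebraMap ℝ ℂ)) ^ k :=
    map_pow (RingHom.mapMatrix (algebraMap ℝ ℂ)) _ k
  rw [h3]
  exact roots_pow _ hk

theorem noOne_of_pow (A : E →L[ℝ] E) {k : ℕ} (hk : 1 ≤ k) (h : NoOne (A ^ k)) : NoOne A := by
  intro μ hμ h1
  refine h (μ ^ k) ?_ (by rw [norm_pow, h1, one_pow])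
  have h3 : μ ^ k ∈ (cp (A ^ k)).roots := by
    rw [cp_pow_roots A hk]
    exact Multiset.mem_map_of_mem _ ((mem_roots (cp_ne_zero A)).2 hμ)
  exact (mem_roots (cp_ne_zero _)).1 h3

end lin

/-- repetition of a list -/
def rep {α : Type} (k : ℕ) (l : List α) : List α := (List.replicate k l).flatten

theorem rep_zero {α : Type} (l : List α) : rep 0 l = [] := rfl

theorem rep_succ {α : Type} (k : ℕ) (l : List α) : rep (k + 1) l = l ++ rep k l := by
  unfold rep
  rw [List.replicate_succ, List.flatten_cons]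

theorem rep_length {α : Type} (k : ℕ) (l : List α) : (rep k l).length = k * l.length := by
  induction k with
  | zero => simp [rep]
  | succ k ih => rw [rep_succ, List.length_append, ih]; ring

theorem rep_getD {α : Type} (k : ℕ) (l : List α) (a : α) : ∀ j, j < k * l.length →
    (rep k l).getD j a = l.getD (j % l.length) a := by
  induction k with
  | zero => intro j hj; omega
  | succ k ih =>
    intro j hj
    rw [rep_succ]
    rcases Nat.lt_or_ge j l.length with h | h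
    · rw [List.getD_append _ _ _ _ h, Nat.mod_eq_of_lt h]
    · rw [List.getD_append_right _ _ _ _ h, ih _ (by
        rw [Nat.succ_mul] at hj
        omega)]
      conv_rhs => rw [Nat.mod_eq_sub_mod h]

section

variable {T : ℕ}

theorem rep_sym (k : ℕ) (bs : List (Fin T × ℕ)) : sym (rep k bs) = rep k (sym bs) := by
  induction k with
  | zero => rfl
  | succ k ih => rw [rep_succ, rep_succ, sym_append, ih]

/-- `h` has periodic orbits in `K` which follow all periodic sequences of symbols with jumps far from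
each other -/
def DriverK {Y : Type w} [TopologicalSpace Y] (T N₀ : ℕ) (h : Y → Y) (K : Set Y) : Prop :=
  ∃ W : Fin (T + 1) → Set Y, (∀ i, IsCompact (W i)) ∧ (∀ i j, i ≠ j → Disjoint (W i) (W j)) ∧
    ∀ (l : ℕ) (c : ℕ → Fin (T + 1)), 1 ≤ l → (∀ i, c (i + l) = c i) →
      (∀ i j, i < j → c i ≠ 0 → c j ≠ 0 → i + N₀ < j) →
      ∃ (y : Y) (κ : ℕ), 1 ≤ κ ∧ h^[κ * l] y = y ∧ ∀ i, h^[i] y ∈ K ∧ h^[i] y ∈ W (c i)

/-- periodic orbits for sequences of blocks -/
theorem driverK_fol {Y : Type w} {h : Y → Y} {K : Set Y} {N₀ : ℕ} {W : Fin (T + 1) → Set Y}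
    (hW : ∀ (l : ℕ) (c : ℕ → Fin (T + 1)), 1 ≤ l → (∀ i, c (i + l) = c i) →
      (∀ i j, i < j → c i ≠ 0 → c j ≠ 0 → i + N₀ < j) →
      ∃ (y : Y) (κ : ℕ), 1 ≤ κ ∧ h^[κ * l] y = y ∧ ∀ i, h^[i] y ∈ K ∧ h^[i] y ∈ W (c i))
    {bs : List (Fin T × ℕ)} (hbs : bs ≠ []) (hN : ∀ q ∈ bs, N₀ ≤ q.2) :
    ∃ (κ : ℕ) (y : Y), 1 ≤ κ ∧ h^[(sym (rep κ bs)).length] y = y ∧ Fol h K W y (sym (rep κ bs)) := by
  obtain ⟨l, hl⟩ : ∃ l, l = (sym bs).length := ⟨_, rfl⟩
  have hl1 : 1 ≤ l := by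
    obtain ⟨q, bs', rfl⟩ := List.exists_cons_of_ne_nil hbs
    rw [hl, sym_length]
    omega
  obtain ⟨L, hL⟩ : ∃ L, L = sym bs := ⟨_, rfl⟩
  have hgap : Gap N₀ L := by rw [hL]; exact gap_sym hN
  rw [← hL] at hl
  obtain ⟨y, κ, hκ, hy, hy'⟩ := hW l (fun i => L.getD ((i + l - 1) % l) 0) hl1 (fun i => by
    show L.getD ((i + l + l - 1) % l) 0 = L.getD ((i + l - 1) % l) 0
    rw [show i + l + l - 1 = (i + l - 1) + l by omega, Nat.add_mod_right]) (fun i j hij hi hj => by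
    by_contra hcon
    obtain ⟨h3, h4⟩ := hgap _ hj
    apply hi
    have h5 := h4 (j - i) (by omega) (by omega)
    have h6 : (i + l - 1) % l = (j + l - 1) % l - (j - i) := by
      have h7 : (j + l - 1) % l < l := Nat.mod_lt _ (by omega)
      have h8 := Nat.div_add_mod (j + l - 1) l
      have h9 : i + l - 1 = l * ((j + l - 1) / l) + ((j + l - 1) % l - (j - i)) := by omega
      rw [h9, Nat.mul_add_mod, Nat.mod_eq_of_lt (by omega)]
    rw [h6]
    exact h5)
  refine ⟨κ, y, hκ, ?_, ?_⟩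
  · rw [rep_sym, rep_length, ← hL, ← hl]
    exact hy
  · rw [rep_sym, ← hL]
    refine fol_of _ y fun j hj => ?_
    rw [rep_length, ← hl] at hj
    refine ⟨(hy' j).1, ?_⟩
    have h2 := (hy' (j + 1)).2
    rw [show j + 1 + l - 1 = j + l by omega, Nat.add_mod_right] at h2
    rw [rep_getD κ L 0 j (by rw [← hl]; exact hj), ← hl]
    exact h2

variable {m : ℕ} {M : Type v} [MetricSpace M] [CompactSpace M] [ChartedSpace (V m) M]
  [IsManifold (𝓡 m) ∞ M]

theorem rep_path (A : FAtlas m M) (f : M → M) (a b : Fin T → M) (R : Fin T → V m →L[ℝ] V m)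
    {x : M} {bs : List (Fin T × ℕ)} (h1 : Val f a b x (sym bs)) (h2 : endp f b x (sym bs) = x)
    (k : ℕ) : Val f a b x (sym (rep k bs)) ∧ endp f b x (sym (rep k bs)) = x ∧
      lin A f b R x (sym (rep k bs)) = (lin A f b R x (sym bs)) ^ k := by
  induction k with
  | zero =>
    refine ⟨trivial, rfl, ?_⟩
    rw [pow_zero]
    rfl
  | succ k ih =>
    obtain ⟨i1, i2, i3⟩ := ih
    rw [rep_succ, sym_append]
    refine ⟨val_append _ _ _ _ _ _ h1 (by rw [h2]; exact i1), ?_, ?_⟩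
    · rw [endp_append, h2, i2]
    · rw [lin_append, h2, i3, pow_succ]
      rfl

/-- **The star condition.** -/
theorem kick_starK (A : FAtlas m M) {r : ℕ∞} (hr : 1 ≤ r) (f : DiffM m M r) {k n N₀ : ℕ}
    {Y : Type w} [TopologicalSpace Y] [T2Space Y] [SigmaCompactSpace Y]
    [ChartedSpace (V k) Y] [IsManifold (𝓡 k) ∞ Y] [Nonempty M] [Nonempty Y] {h : Y → Y} {K : Set Y}
    {N : Type u} [TopologicalSpace N] [T2Space N] [CompactSpace N] [ChartedSpace (V n) N]
    [IsManifold (𝓡 n) ∞ N] (E : GEmb m n (𝓡 k) M Y N) (G : DiffM n N r)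
    (hdr : DriverK T N₀ h K)
    (hG : ∀ x, ∀ y ∈ K, G (E.Θ (x, y)) = E.Θ (f x, h y)) (hst : CStar n N r G) :
    ∃ ε : ℝ, 0 < ε ∧ ∀ (a b : Fin T → M) (R : Fin T → V m →L[ℝ] V m),
      (∀ t, dist (a t) (b t) < ε) → (∀ t, ‖R t - ContinuousLinearMap.id ℝ (V m)‖ < ε) →
      ∀ bs : List (Fin T × ℕ), bs ≠ [] → (∀ q ∈ bs, N₀ ≤ q.2) → ∀ x, Val f a b x (sym bs) →
        endp f b x (sym bs) = x → NoOne (lin A f b R x (sym bs)) := by
  obtain ⟨bb, hbs, hb1, hb0, hb2⟩ := exists_bumps A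
  obtain ⟨F, F', κF, hκF, hF, hlin⟩ := aff_family m
  obtain ⟨W, hWc, hWd, hW⟩ := hdr
  obtain ⟨U, hU, hGU, hhyp⟩ := hst
  obtain ⟨κ₀, hκ₀, hpert⟩ := exists_pert A hF E hr f G hG hWc hWd U hU hGU
    (E.Θ (Classical.arbitrary M, Classical.arbitrary Y))
  -- constants
  obtain ⟨C, hC⟩ : ∃ C : ℝ, C = ‖((affE m).symm : Aff m →L[ℝ] V (m + m * m))‖ + 1 := ⟨_, rfl⟩
  have hC1 : 1 ≤ C := by
    have := norm_nonneg ((affE m).symm : Aff m →L[ℝ] V (m + m * m))
    linarith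
  have hsp : ∀ w : Aff m, ‖sp m w‖ ≤ C * ‖w‖ := by
    intro w
    have h1 := ((affE m).symm : Aff m →L[ℝ] V (m + m * m)).le_opNorm w
    refine h1.trans ?_
    gcongr
    linarith
  obtain ⟨κ₁, hκ₁⟩ : ∃ κ₁, κ₁ = min κF κ₀ := ⟨_, rfl⟩
  have hκ₁0 : 0 < κ₁ := by rw [hκ₁]; exact lt_min hκF hκ₀
  have hκ₁F : κ₁ ≤ κF := by rw [hκ₁]; exact min_le_left _ _
  have hκ₁0' : κ₁ ≤ κ₀ := by rw [hκ₁]; exact min_le_right _ _
  obtain ⟨κ, hκ⟩ : ∃ κ, κ = min (κ₁ / (4 * C)) (1 / 16) := ⟨_, rfl⟩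
  have hκ0 : 0 < κ := by rw [hκ]; positivity
  have hκa : κ ≤ κ₁ / (4 * C) := by rw [hκ]; exact min_le_left _ _
  have hκb : κ ≤ 1 / 16 := by rw [hκ]; exact min_le_right _ _
  obtain ⟨ε₀, hε₀, hclose⟩ := exists_close A hκ0
  refine ⟨min ε₀ κ, lt_min hε₀ hκ0, ?_⟩
  intro a b R hab hR
  -- the kicks
  obtain ⟨w, hw⟩ : ∃ w : Fin T → Aff m, w = fun t => (A.χ (A.jx (b t)) (b t) -
    A.χ (A.jx (b t)) (a t) - (R t - ContinuousLinearMap.id ℝ (V m)) (A.χ (A.jx (b t)) (a t)),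
    R t - ContinuousLinearMap.id ℝ (V m)) := ⟨_, rfl⟩
  have hcl : ∀ t, a t ∈ (A.χ (A.jx (b t))).source ∧
      ‖A.χ (A.jx (b t)) (a t) - A.χ (A.jx (b t)) (b t)‖ < κ := fun t =>
    hclose _ _ _ ((hab t).trans_le (min_le_left _ _)) (A.src _) (A.core _).le
  have h8 : ∀ t, ‖A.χ (A.jx (b t)) (a t)‖ ≤ 1 / 8 := by
    intro t
    have h1 := (hcl t).2
    have h2 := A.core (b t)
    have h3 : A.χ (A.jx (b t)) (a t) = (A.χ (A.jx (b t)) (a t) - A.χ (A.jx (b t)) (b t)) +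
      A.χ (A.jx (b t)) (b t) := by abel
    rw [h3]
    refine (norm_add_le _ _).trans ?_
    linarith
  have hwn : ∀ t, ‖sp m (w t)‖ < κ₁ := by
    intro t
    have hRt : ‖R t - ContinuousLinearMap.id ℝ (V m)‖ ≤ κ :=
      ((hR t).trans_le (min_le_right _ _)).le
    have h1 : ‖w t‖ ≤ 2 * κ := by
      rw [hw, Prod.norm_def, max_le_iff]
      refine ⟨?_, by linarith⟩
      refine (norm_sub_le _ _).trans ?_
      have h2 : ‖A.χ (A.jx (b t)) (b t) - A.χ (A.jx (b t)) (a t)‖ ≤ κ := by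
        rw [norm_sub_rev]
        exact (hcl t).2.le
      have h3 : ‖(R t - ContinuousLinearMap.id ℝ (V m)) (A.χ (A.jx (b t)) (a t))‖ ≤ κ * (1 / 8) :=
        (ContinuousLinearMap.le_opNorm _ _).trans (mul_le_mul hRt (h8 t) (norm_nonneg _) hκ0.le)
      linarith
    calc _ ≤ C * ‖w t‖ := hsp _
      _ ≤ C * (2 * (κ₁ / (4 * C))) := by
        gcongr
        linarith
      _ = κ₁ / 2 := by field_simp; norm_num
      _ < κ₁ := by linarith
  have hk : Kicks A F κF bb a b R w 0 := by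
    refine ⟨fun c z => ?_, fun t => (hcl t).1, h8, fun t => (hwn t).trans_le hκ₁F, fun t => ?_,
      fun t => ?_⟩
    · rw [zero_smul, norm_zero]
      exact hκF
    · rw [hw]
      simp only
      abel
    · rw [hw]
      simp only
      abel
  obtain ⟨g, hgU, hg⟩ := hpert b w (fun t => (hwn t).trans_le hκ₁0')
  -- loops which are followed by periodic orbits
  have key : ∀ bs : List (Fin T × ℕ), bs ≠ [] → ∀ x, Val f a b x (sym bs) →
      endp f b x (sym bs) = x → ∀ y, h^[(sym bs).length] y = y → Fol h K W y (sym bs) →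
      NoOne (lin A f b R x (sym bs)) := by
    intro bs hbs0 x hV hend y hy hyF
    have hret : ∀ z, g^[(sym bs).length] (E.Θ (z, y)) =
        E.Θ (cms A F bb f b w 0 x (sym bs) z, y) := by
      intro z
      rw [pert_iter A hF bb E hg (sym bs) x z y hyF, hy]
    obtain ⟨c1, c2⟩ := chain_deriv A hκF hF hlin hb0 hr f hk (sym bs) x hV
    rw [hend] at c1 c2
    rw [fcs_zero, one_smul] at c2
    have hlen : 1 ≤ (sym bs).length := by
      obtain ⟨q, bs', rfl⟩ := List.exists_cons_of_ne_nil hbs0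
      unfold sym
      rw [List.flatMap_cons, List.length_append, List.length_append, List.length_singleton]
      omega
    refine gslice_noOne E hr g hlen hret (A.good (A.jx x)).mem (A.src x)
      (cms_cont A hF bb f.continuous b w 0 _ x).continuousAt c1 c2 (hhyp g hgU _ ?_)
    refine ⟨(sym bs).length, hlen, ?_⟩
    rw [hret, c1]
  intro bs hbs0 hbsN x hV hend
  obtain ⟨κ', y, hκ', hy, hyF⟩ := driverK_fol hW hbs0 hbsN
  obtain ⟨r1, r2, r3⟩ := rep_path A f a b R hV hend κ'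
  refine noOne_of_pow _ hκ' ?_
  rw [← r3]
  refine key (rep κ' bs) ?_ x r1 r2 y hy hyF
  intro h0
  have h1 := congrArg List.length h0
  rw [rep_length, List.length_nil] at h1
  rcases Nat.mul_eq_zero.1 h1 with h2 | h2
  · omega
  · exact hbs0 (List.length_eq_zero_iff.1 h2)

end

end Pool.Agent.H245.SK
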