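import Pool.Agent.H245.SK.Z1

/-!
# Sparse shifts with a period
-/

set_option autoImplicit false
set_option linter.unusedSectionVars false

open scoped Manifold ContDiff Topology NNReal
open Filter Set Metric

universe u v w

namespace Pool.Agent.H245.SK

open Pool.Agent.H245.SH

/-- `h` has on `K` a sparse shift (with period `π`). -/
def SpK {Y : Type w} [TopologicalSpace Y] (h : Y → Y) (K : Set Y) : Prop :=
  ∃ (π g : ℕ) (W₀ W₁ : Set Y), 1 ≤ π ∧ IsCompact W₀ ∧ IsCompact W₁ ∧ Disjoint W₀ W₁ ∧
    ∀ (l : ℕ) (S : Set ℕ), 1 ≤ l → π ∣ l → (∀ i ∈ S, π ∣ i) → (∀ i, i + l ∈ S ↔ i ∈ S) →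
      (∀ i ∈ S, ∀ j ∈ S, i < j → i + g < j) →
      ∃ (y : Y) (κ : ℕ), 1 ≤ κ ∧ h^[κ * l] y = y ∧
        ∀ i, h^[i] y ∈ K ∧ (i ∈ S → h^[i] y ∈ W₁) ∧ (i ∉ S → h^[i] y ∈ W₀)

/-- the distance of the two marks -/
def Gp (π g t d : ℕ) : ℕ := π * (g + 1 + (t * π + d))

theorem gp_dvd (π g t d : ℕ) : π ∣ Gp π g t d := Dvd.intro _ rfl

theorem gp_gt {π g t d : ℕ} (hπ : 1 ≤ π) : g < Gp π g t d := by
  unfold Gp
  have h1 : 1 * (g + 1 + (t * π + d)) ≤ π * (g + 1 + (t * π + d)) := Nat.mul_le_mul_right _ hπ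
  omega

theorem gp_le {π g t d T : ℕ} (ht : t < T) (hd : d < π) : Gp π g t d ≤ π * (g + 1 + T * π) := by
  unfold Gp
  apply Nat.mul_le_mul_left
  have h1 : (t + 1) * π ≤ T * π := Nat.mul_le_mul_right _ ht
  rw [Nat.succ_mul] at h1
  omega

theorem gp_inj {π g t d t' d' : ℕ} (hd : d < π) (hd' : d' < π)
    (h : Gp π g t d = Gp π g t' d') : t = t' ∧ d = d' := by
  unfold Gp at h
  have h1 := Nat.eq_of_mul_eq_mul_left (by omega) h
  have h2 : t * π + d = t' * π + d' := by omega
  have h3 : (t * π + d) % π = (t' * π + d') % π := by rw [h2]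
  rw [Nat.mul_add_mod_self_right, Nat.mul_add_mod_self_right, Nat.mod_eq_of_lt hd,
    Nat.mod_eq_of_lt hd'] at h3
  have h4 : t * π = t' * π := by omega
  exact ⟨Nat.eq_of_mul_eq_mul_right (by omega) h4, h3⟩

theorem res_unique {π s d d' : ℕ} (hd : d < π) (hd' : d' < π) (h : π ∣ s + d) (h' : π ∣ s + d') :
    d = d' := by
  rcases Nat.lt_trichotomy d d' with h1 | h1 | h1
  · have h2 := (Nat.dvd_sub h' h)
    rw [show s + d' - (s + d) = d' - d by omega] at h2
    have := Nat.le_of_dvd (by omega) h2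
    omega
  · exact h1
  · have h2 := (Nat.dvd_sub h h')
    rw [show s + d - (s + d') = d - d' by omega] at h2
    have := Nat.le_of_dvd (by omega) h2
    omega

theorem exists_res {π : ℕ} (hπ : 1 ≤ π) (s : ℕ) : ∃ d < π, π ∣ s + d := by
  have h1 := Nat.mod_lt s (show 0 < π by omega)
  have h2 := Nat.div_add_mod s π
  by_cases h0 : s % π = 0
  · exact ⟨0, by omega, by rw [add_zero]; exact Nat.dvd_of_mod_eq_zero h0⟩
  · refine ⟨π - s % π, by omega, ⟨s / π + 1, ?_⟩⟩
    rw [Nat.mul_succ]
    omega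

/-- **From one marker to several markers.** -/
theorem driverK_of_sp {Y : Type w} [TopologicalSpace Y] [T2Space Y] {h : Y → Y}
    (hc : Continuous h) {K : Set Y} (T : ℕ) (hr : SpK h K) : ∃ N₀, DriverK T N₀ h K := by
  classical
  obtain ⟨π, g, W₀, W₁, hπ, hW₀, hW₁, hW01, hW⟩ := hr
  -- the cylinders
  obtain ⟨n, hn⟩ : ∃ n, n = π + π * (g + 1 + T * π) + 1 := ⟨_, rfl⟩
  have hGn : ∀ t d : ℕ, t < T → d < π → d + Gp π g t d < n := by
    intro t d ht hd
    have := gp_le (g := g) ht hd
    omega
  set Ws : Bool → Set Y := fun b => if b then W₁ else W₀ with hWs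
  have hWsc : ∀ b, IsCompact (Ws b) := by
    intro b
    cases b
    · exact hW₀
    · exact hW₁
  have hWsd : ∀ b b', b ≠ b' → Disjoint (Ws b) (Ws b') := by
    intro b b' hbb
    cases b <;> cases b'
    · exact absurd rfl hbb
    · exact hW01
    · exact hW01.symm
    · exact absurd rfl hbb
  set Cy : (Fin n → Bool) → Set Y := fun w => {y | ∀ m : Fin n, h^[m] y ∈ Ws (w m)} with hCy
  have hn0 : 0 < n := by omega
  have hCyc : ∀ w, IsCompact (Cy w) := by
    intro w
    have h1 : Cy w = ⋂ m : Fin n, (h^[m]) ⁻¹' Ws (w m) := by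
      ext y
      rw [mem_iInter]
      rfl
    have h2 : IsClosed (Cy w) := by
      rw [h1]
      exact isClosed_iInter fun m => (hWsc _).isClosed.preimage (hc.iterate m)
    exact (hWsc (w ⟨0, hn0⟩)).of_isClosed_subset h2 fun y hy => hy ⟨0, hn0⟩
  have hCyd : ∀ w w', w ≠ w' → Disjoint (Cy w) (Cy w') := by
    intro w w' hne
    obtain ⟨m, hm⟩ := Function.ne_iff.1 hne
    rw [Set.disjoint_left]
    intro y hy hy'
    exact Set.disjoint_left.1 (hWsd _ _ hm) (hy m) (hy' m)
  set pt : ℕ → ℕ → Fin n → Bool := fun t d m => decide (m.1 = d ∨ m.1 = d + Gp π g t d) with hpt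
  have hpat : ∀ t t' d d' : ℕ, t < T → t' < T → d < π → d' < π → pt t d = pt t' d' → t = t' := by
    intro t t' d d' ht ht' hd hd' h1
    have h2 := congrFun h1 ⟨d + Gp π g t d, hGn t d ht hd⟩
    have h3 := congrFun h1 ⟨d, by omega⟩
    have h4 := gp_gt (g := g) (t := t) (d := d) hπ
    have h5 := gp_gt (g := g) (t := t') (d := d') hπ
    have h6 : π ≤ Gp π g t' d' := by
      unfold Gp
      exact Nat.le_mul_of_pos_right _ (by omega)
    rw [hpt] at h2 h3
    simp only [decide_eq_decide] at h2 h3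
    have h7 := h3.1 (Or.inl trivial)
    have h8 := h2.1 (Or.inr trivial)
    have h9 : d = d' := by omega
    subst h9
    exact (gp_inj (g := g) hd hd (by omega)).1
  set code : (Fin n → Bool) → Fin (T + 1) := fun w =>
    if hw : ∃ t : Fin T, ∃ d < π, w = pt t d then (Classical.choose hw).succ else 0 with hcode
  have hcode1 : ∀ (t : Fin T) (d : ℕ), d < π → code (pt t d) = t.succ := by
    intro t d hd
    have hex : ∃ t' : Fin T, ∃ d' < π, pt t d = pt t' d' := ⟨t, d, hd, rfl⟩
    rw [hcode]
    simp only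
    rw [dif_pos hex]
    obtain ⟨d', hd', h1⟩ := Classical.choose_spec hex
    have h2 := hpat _ _ _ _ t.2 (Classical.choose hex).2 hd hd' h1
    congr 1
    exact Fin.ext h2.symm
  have hcode0 : ∀ w, (∀ t : Fin T, ∀ d < π, w ≠ pt t d) → code w = 0 := by
    intro w hw
    rw [hcode]
    simp only
    rw [dif_neg]
    rintro ⟨t, d, hd, ht⟩
    exact hw t d hd ht
  refine ⟨2 * n, fun i => ⋃ w ∈ {w | code w = i}, Cy w, fun i => ?_, fun i j hij => ?_, ?_⟩
  · exact (Set.toFinite _).isCompact_biUnion fun w _ => hCyc w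
  · rw [Set.disjoint_left]
    intro y hy hy'
    obtain ⟨w, hw, hyw⟩ := Set.mem_iUnion₂.1 hy
    obtain ⟨w', hw', hyw'⟩ := Set.mem_iUnion₂.1 hy'
    by_cases hww : w = w'
    · rw [hww] at hw
      exact hij (hw.symm.trans hw')
    · exact Set.disjoint_left.1 (hCyd w w' hww) hyw hyw'
  · intro l c hl hper hgap
    obtain ⟨S, hS⟩ : ∃ S, S = n * (π * l) := ⟨_, rfl⟩
    have hπl : 1 ≤ π * l := Nat.one_le_iff_ne_zero.2 (Nat.mul_ne_zero (by omega) (by omega))
    have hST : n ≤ S := by
      rw [hS]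
      exact Nat.le_mul_of_pos_right _ (by omega)
    have hSπ : π ∣ S := by
      rw [hS]
      exact Dvd.dvd.mul_left (Dvd.intro _ rfl) _
    have hperm : ∀ q i, c (i + q * l) = c i := by
      intro q
      induction q with
      | zero => intro i; simp
      | succ q ih =>
        intro i
        rw [show i + (q + 1) * l = (i + q * l) + l by ring, hper, ih]
    have hperS : ∀ i, c (i + S) = c i := by
      intro i
      rw [hS, show n * (π * l) = (n * π) * l by ring]
      exact hperm _ i
    have hperπ : ∀ i, c (i + π * l) = c i := fun i => hperm π i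
    have hgap' : ∀ i j, c i ≠ 0 → c j ≠ 0 → j ≤ i + 2 * n → i ≤ j + 2 * n → i = j := by
      intro i j hi hj hle hle'
      rcases Nat.lt_trichotomy i j with h1 | h1 | h1
      · have := hgap i j h1 hi hj
        omega
      · exact h1
      · have := hgap j i h1 hj hi
        omega
    -- the set of times
    set P : Set ℕ := {k | ∃ (s d o : ℕ) (t : Fin T), k + S = s + d + o ∧ d < π ∧ π ∣ s + d ∧
      c s = t.succ ∧ (o = 0 ∨ o = Gp π g t d)} with hP
    have hole : ∀ {d o : ℕ} {t : Fin T}, d < π → (o = 0 ∨ o = Gp π g t d) → d + o < n := by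
      intro d o t hd ho
      have := hGn t d t.2 hd
      rcases ho with h1 | h1 <;> omega
    have hodvd : ∀ {d o : ℕ} {t : Fin T}, (o = 0 ∨ o = Gp π g t d) → π ∣ o := by
      intro d o t ho
      rcases ho with h1 | h1
      · rw [h1]
        exact dvd_zero _
      · rw [h1]
        exact gp_dvd _ _ _ _
    have hne : ∀ {s : ℕ} {t : Fin T}, c s = t.succ → c s ≠ 0 := by
      intro s t h1 h2
      rw [h1] at h2
      exact Fin.succ_ne_zero t h2
    have hPdvd : ∀ k ∈ P, π ∣ k := by
      rintro k ⟨s, d, o, t, h1, h2, h3, h4, h5⟩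
      have h6 : π ∣ k + S := by
        rw [h1]
        exact dvd_add h3 (hodvd h5)
      exact (Nat.dvd_add_left hSπ).1 h6
    have hPper : ∀ k, k + π * l ∈ P ↔ k ∈ P := by
      intro k
      constructor
      · rintro ⟨s, d, o, t, h1, h2, h3, h4, h5⟩
        have h6 := hole h2 h5
        have h7 : π * l ≤ s := by omega
        refine ⟨s - π * l, d, o, t, by omega, h2, ?_, ?_, h5⟩
        · rw [show s - π * l + d = s + d - π * l by omega]
          exact Nat.dvd_sub h3 (Dvd.intro _ rfl)
        · have h8 := hperπ (s - π * l)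
          rw [Nat.sub_add_cancel h7] at h8
          rw [← h8]
          exact h4
      · rintro ⟨s, d, o, t, h1, h2, h3, h4, h5⟩
        refine ⟨s + π * l, d, o, t, by omega, h2, ?_, by rw [hperπ]; exact h4, h5⟩
        rw [show s + π * l + d = s + d + π * l by omega]
        exact dvd_add h3 (Dvd.intro _ rfl)
    have hPgap : ∀ i ∈ P, ∀ j ∈ P, i < j → i + g < j := by
      rintro i ⟨s, d, o, t, h1, h2, h3, h4, h5⟩ j ⟨s', d', o', t', k1, k2, k3, k4, k5⟩ hij
      by_contra hcon
      have h6 := hole h2 h5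
      have h7 := hole k2 k5
      have h8 : g < n := by
        have := gp_gt (g := g) (t := t) (d := d) hπ
        have := hGn t d t.2 h2
        omega
      have h9 : s = s' := hgap' _ _ (hne h4) (hne k4) (by omega) (by omega)
      subst h9
      have h10 : d = d' := res_unique h2 k2 h3 k3
      subst h10
      have h11 : t = t' := Fin.succ_injective _ (h4.symm.trans k4)
      subst h11
      have h12 := gp_gt (g := g) (t := t) (d := d) hπ
      rcases h5 with h5 | h5 <;> rcases k5 with k5 | k5 <;> omega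
    obtain ⟨y, κ, hκ, hy, hy'⟩ := hW (π * l) P hπl (Dvd.intro _ rfl) hPdvd hPper hPgap
    refine ⟨y, κ * π, ?_, by rw [Nat.mul_assoc]; exact hy, fun k => ⟨(hy' k).1, ?_⟩⟩
    · exact Nat.one_le_iff_ne_zero.2 (Nat.mul_ne_zero (by omega) (by omega))
    -- the window
    set w : Fin n → Bool := fun m => decide (k + m ∈ P) with hw
    have hyw : h^[k] y ∈ Cy w := by
      intro m
      rw [← Function.iterate_add_apply, add_comm]
      show h^[k + m] y ∈ Ws (decide (k + m ∈ P))
      by_cases hi : k + m ∈ P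
      · rw [decide_eq_true hi]
        exact (hy' _).2.1 hi
      · rw [decide_eq_false hi]
        exact (hy' _).2.2 hi
    refine Set.mem_iUnion₂.2 ⟨w, ?_, hyw⟩
    show code w = c k
    by_cases hck : c k = 0
    · rw [hck]
      apply hcode0
      intro t d hd hwt
      have hG := hGn t d t.2 hd
      have e1 := congrFun hwt ⟨d, by omega⟩
      have e2 := congrFun hwt ⟨d + Gp π g t d, hG⟩
      rw [hw, hpt] at e1 e2
      simp only [decide_eq_decide] at e1 e2
      obtain ⟨s, d₁, o₁, t₁, h1, h2, h3, h4, h5⟩ := e1.2 (Or.inl trivial)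
      obtain ⟨s', d₂, o₂, t₂, k1, k2, k3, k4, k5⟩ := e2.2 (Or.inr trivial)
      have h6 := hole h2 h5
      have h7 := hole k2 k5
      have h9 : s = s' := hgap' _ _ (hne h4) (hne k4) (by omega) (by omega)
      subst h9
      have h10 : d₁ = d₂ := res_unique h2 k2 h3 k3
      subst h10
      have h11 : t₁ = t₂ := Fin.succ_injective _ (h4.symm.trans k4)
      subst h11
      have h12 := gp_gt (g := g) (t := t) (d := d) hπ
      have h13 := gp_gt (g := g) (t := t₁) (d := d₁) hπ
      have h14 : Gp π g t d = Gp π g t₁ d₁ ∧ o₁ = 0 := by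
        rcases h5 with h5 | h5 <;> rcases k5 with k5 | k5 <;> constructor <;> omega
      obtain ⟨h15, h16⟩ := gp_inj hd h2 h14.1
      have h17 : s = k + S := by
        have := h14.2
        omega
      rw [h17, hperS, hck] at h4
      exact Fin.succ_ne_zero _ h4.symm
    · obtain ⟨t, ht⟩ := Fin.exists_succ_eq.2 hck
      obtain ⟨d, hd, hdv⟩ := exists_res hπ k
      rw [← ht, ← hcode1 t d hd]
      congr 1
      funext m
      rw [hw, hpt]
      simp only [decide_eq_decide]
      have hkS : c (k + S) = t.succ := by rw [hperS, ← ht]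
      have hdvS : π ∣ k + S + d := by
        rw [show k + S + d = k + d + S by omega]
        exact dvd_add hdv hSπ
      constructor
      · rintro ⟨s, d₁, o₁, t₁, h1, h2, h3, h4, h5⟩
        have h6 := hole h2 h5
        have hm := m.2
        have h9 : s = k + S := hgap' _ _ (hne h4) (hne hkS) (by omega) (by omega)
        subst h9
        have h10 : d = d₁ := res_unique hd h2 hdvS h3
        subst h10
        have h11 : t = t₁ := Fin.succ_injective _ (hkS.symm.trans h4)
        subst h11
        rcases h5 with h5 | h5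
        · left
          omega
        · right
          omega
      · rintro (h1 | h1)
        · exact ⟨k + S, d, 0, t, by omega, hd, hdvS, hkS, Or.inl rfl⟩
        · exact ⟨k + S, d, Gp π g t d, t, by omega, hd, hdvS, hkS, Or.inr rfl⟩

/-- a sparse shift with period one -/
theorem spK_of_sp1 {Y : Type w} [TopologicalSpace Y] {h : Y → Y} {K : Set Y} (hr : Sp1 h K) :
    SpK h K := by
  obtain ⟨g, W₀, W₁, h1, h2, h3, h4⟩ := hr
  refine ⟨1, g, W₀, W₁, le_rfl, h1, h2, h3, fun l S hl _ _ hS hgap => ?_⟩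
  obtain ⟨y, hy, hy'⟩ := h4 l S hl hS hgap
  refine ⟨y, 1, le_rfl, by rw [one_mul]; exact hy, fun i => ?_⟩
  have e1 : h^[i] y = h^[i % l] y := by
    have h2 : i = (i % l) + l * (i / l) := (Nat.mod_add_div i l).symm
    conv_lhs => rw [h2]
    rw [Function.iterate_add_apply, Function.iterate_mul]
    congr 1
    exact Function.iterate_fixed hy _
  have hper : ∀ q k, k + q * l ∈ S ↔ k ∈ S := by
    intro q
    induction q with
    | zero => intro k; simp
    | succ q ih =>
      intro k
      rw [show k + (q + 1) * l = (k + q * l) + l by ring, hS, ih]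
  have e2 : i ∈ S ↔ i % l ∈ S := by
    have h2 : i = (i % l) + (i / l) * l := by
      rw [mul_comm]
      exact (Nat.mod_add_div i l).symm
    conv_lhs => rw [h2]
    exact hper _ _
  rw [e1, e2]
  exact hy' _ (Nat.mod_lt _ (by omega))

end Pool.Agent.H245.SK
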