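import Pool.Agent.H245.SK.Z2
import Pool.Agent.H245.SH.X7

/-!
# Pseudo-orbits near a homoclinic orbit
-/

set_option autoImplicit false
set_option linter.unusedSectionVars false

open scoped Manifold ContDiff Topology NNReal
open Filter Set Metric

universe u v w

namespace Pool.Agent.H245.SK

open Pool.Agent.H245.SH

theorem iter_fix {Y : Type w} {h : Y → Y} {p : Y} {π : ℕ} (hpp : h^[π] p = p) {i : ℕ}
    (hi : π ∣ i) : h^[i] p = p := by
  obtain ⟨k, rfl⟩ := hi
  rw [Function.iterate_mul]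
  exact Function.iterate_fixed hpp k

theorem iter_fix_add {Y : Type w} {h : Y → Y} {p : Y} {π : ℕ} (hpp : h^[π] p = p) {i : ℕ}
    (hi : π ∣ i) (n : ℕ) : h^[n + i] p = h^[n] p := by
  rw [Function.iterate_add_apply, iter_fix hpp hi]

/-- the pseudo-orbit with excursions at the times in `S` -/
theorem exists_pseudo {Y : Type w} [MetricSpace Y] (h : Y → Y) {π a l : ℕ} {p u : Y} {δ : ℝ}
    {S : Set ℕ} (hl : 1 ≤ l) (hπl : π ∣ l) (ha : π ∣ a) (ha0 : 1 ≤ a)
    (hpp : h^[π] p = p) (hS : ∀ i ∈ S, π ∣ i) (hper : ∀ i, i + l ∈ S ↔ i ∈ S)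
    (hgap : ∀ i ∈ S, ∀ j ∈ S, i < j → i + 2 * a < j) (hδ : 0 < δ) (hu1 : dist p u < δ)
    (hu2 : dist (h^[2 * a] u) p < δ) :
    ∃ q : ℕ → Y, (∀ i, q (i + l) = q i) ∧ (∀ i, dist (h (q i)) (q (i + 1)) < δ) ∧
      (∀ i ∈ S, q i = h^[a] u) ∧
      (∀ i, i ∉ S → (∃ n, q i = h^[n] p) ∨ ∃ j, j < 2 * a ∧ j ≠ a ∧ q i = h^[j] u) ∧
      ∀ i, (∃ n, q i = h^[n] p) ∨ ∃ j, j < 2 * a ∧ q i = h^[j] u := by
  classical
  obtain ⟨B, hB⟩ : ∃ B, B = a * l := ⟨_, rfl⟩
  have hBa : a ≤ B := by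
    rw [hB]
    exact Nat.le_mul_of_pos_right _ (by omega)
  have hBπ : π ∣ B := by
    rw [hB]
    exact Dvd.dvd.mul_right ha _
  have hperm : ∀ k i, i + k * l ∈ S ↔ i ∈ S := by
    intro k
    induction k with
    | zero => intro i; simp
    | succ k ih =>
      intro i
      rw [show i + (k + 1) * l = (i + k * l) + l by ring, hper, ih]
  have hperB : ∀ i, i + B ∈ S ↔ i ∈ S := by
    intro i
    rw [hB]
    exact hperm a i
  -- offsets
  obtain ⟨Of, hOf⟩ : ∃ Of : ℕ → ℕ → Prop, Of = fun i j => j < 2 * a ∧ i + B + a - j ∈ S :=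
    ⟨_, rfl⟩
  have hu : ∀ i j j', Of i j → Of i j' → j = j' := by
    intro i j j' h1 h2
    rw [hOf] at h1 h2
    obtain ⟨h3, h4⟩ := h1
    obtain ⟨h5, h6⟩ := h2
    rcases Nat.lt_trichotomy j j' with h7 | h7 | h7
    · have := hgap _ h6 _ h4 (by omega)
      omega
    · exact h7
    · have := hgap _ h4 _ h6 (by omega)
      omega
  obtain ⟨q, hq⟩ : ∃ q : ℕ → Y, q = fun i => if hi : ∃ j, Of i j then h^[Classical.choose hi] u
    else h^[i] p := ⟨_, rfl⟩
  have hq1 : ∀ i j, Of i j → q i = h^[j] u := by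
    intro i j hj
    have hex : ∃ j, Of i j := ⟨j, hj⟩
    rw [hq]
    simp only
    rw [dif_pos hex, hu i _ _ (Classical.choose_spec hex) hj]
  have hq2 : ∀ i, (∀ j, ¬ Of i j) → q i = h^[i] p := by
    intro i hi
    rw [hq]
    simp only
    rw [dif_neg]
    rintro ⟨j, hj⟩
    exact hi j hj
  have hall : ∀ i, (∃ n, q i = h^[n] p) ∨ ∃ j, j < 2 * a ∧ q i = h^[j] u := by
    intro i
    by_cases hex : ∃ j, Of i j
    · obtain ⟨j, hj⟩ := hex
      refine Or.inr ⟨j, ?_, hq1 i j hj⟩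
      rw [hOf] at hj
      exact hj.1
    · push Not at hex
      exact Or.inl ⟨i, hq2 i hex⟩
  refine ⟨q, fun i => ?_, fun i => ?_, fun i hi => ?_, fun i hi => ?_, hall⟩
  · -- periodicity
    have h1 : ∀ j, Of (i + l) j ↔ Of i j := by
      intro j
      rw [hOf]
      constructor
      · rintro ⟨h1, h2⟩
        refine ⟨h1, ?_⟩
        rw [show i + l + B + a - j = (i + B + a - j) + l by omega, hper] at h2
        exact h2
      · rintro ⟨h1, h2⟩
        refine ⟨h1, ?_⟩
        rw [show i + l + B + a - j = (i + B + a - j) + l by omega, hper]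
        exact h2
    by_cases hex : ∃ j, Of i j
    · obtain ⟨j, hj⟩ := hex
      rw [hq1 _ _ hj, hq1 _ _ ((h1 j).2 hj)]
    · push Not at hex
      rw [hq2 i hex, hq2 (i + l) fun j hj => hex j ((h1 j).1 hj)]
      exact iter_fix_add hpp hπl i
  · -- the jumps
    by_cases hex : ∃ j, Of i j
    · obtain ⟨j, hj⟩ := hex
      have hj' := hj
      rw [hOf] at hj'
      obtain ⟨h1, h2⟩ := hj'
      rw [hq1 _ _ hj]
      by_cases hj1 : j + 1 < 2 * a
      · have h3 : Of (i + 1) (j + 1) := by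
          rw [hOf]
          refine ⟨hj1, ?_⟩
          rw [show i + 1 + B + a - (j + 1) = i + B + a - j by omega]
          exact h2
        rw [hq1 _ _ h3, Function.iterate_succ_apply', dist_self]
        exact hδ
      · have h3 : j + 1 = 2 * a := by omega
        have h4 : ∀ j', ¬ Of (i + 1) j' := by
          intro j' hj'
          rw [hOf] at hj'
          obtain ⟨h5, h6⟩ := hj'
          have := hgap _ h2 _ h6 (by omega)
          omega
        have h5 : π ∣ i + 1 := by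
          have h6 := hS _ h2
          rw [show i + B + a - j = (i + 1) + (B - a) by omega] at h6
          have h7 : π ∣ B - a := Nat.dvd_sub hBπ ha
          exact (Nat.dvd_add_left h7).1 h6
        rw [hq2 _ h4, iter_fix hpp h5, ← Function.iterate_succ_apply' (f := h),
          show j.succ = 2 * a from h3]
        exact hu2
    · push Not at hex
      rw [hq2 i hex]
      by_cases hex' : ∃ j, Of (i + 1) j
      · obtain ⟨j, hj⟩ := hex'
        have hj' := hj
        rw [hOf] at hj'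
        obtain ⟨h1, h2⟩ := hj'
        have h3 : j = 0 := by
          by_contra h0
          apply hex (j - 1)
          rw [hOf]
          refine ⟨by omega, ?_⟩
          rw [show i + B + a - (j - 1) = i + 1 + B + a - j by omega]
          exact h2
        subst h3
        have h5 : π ∣ i + 1 := by
          have h6 := hS _ h2
          rw [show i + 1 + B + a - 0 = (i + 1) + (B + a) by omega] at h6
          exact (Nat.dvd_add_left (dvd_add hBπ ha)).1 h6
        rw [hq1 _ _ hj, ← Function.iterate_succ_apply' (f := h), iter_fix hpp h5]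
        exact hu1
      · push Not at hex'
        rw [hq2 _ hex', Function.iterate_succ_apply', dist_self]
        exact hδ
  · apply hq1
    rw [hOf]
    refine ⟨by omega, ?_⟩
    rw [Nat.add_sub_cancel]
    exact (hperB i).2 hi
  · rcases hall i with h1 | ⟨j, h1, h2⟩
    · exact Or.inl h1
    · by_cases hex : ∃ j, Of i j
      · obtain ⟨j', hj'⟩ := hex
        have h3 := hq1 _ _ hj'
        rw [hOf] at hj'
        obtain ⟨h4, h5⟩ := hj'
        refine Or.inr ⟨j', h4, ?_, h3⟩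
        rintro rfl
        rw [Nat.add_sub_cancel] at h5
        exact hi ((hperB i).1 h5)
      · push Not at hex
        exact Or.inl ⟨i, hq2 i hex⟩

/-- the points of a homoclinic orbit are isolated -/
theorem sep1 {Y : Type w} [MetricSpace Y] (h : Y ≃ₜ Y) {π : ℕ} (hπ : 1 ≤ π) {p z : Y}
    (hpp : h^[π] p = p) (hne : z ≠ p) (hl : Tendsto (fun n : ℕ => h^[π * n] z) atTop (𝓝 p)) :
    ∃ η : ℝ, 0 < η ∧ (∀ n, η ≤ dist (h^[n + 1] z) z) ∧ ∀ n, η ≤ dist (h^[n] p) z := by
  -- `z` is not periodic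
  have hnp : ∀ n, h^[n + 1] z ≠ z := by
    intro n hn
    have h4 : Tendsto (fun k : ℕ => h^[π * ((n + 1) * k)] z) atTop (𝓝 p) :=
      hl.comp (tendsto_id.const_mul_atTop' (by omega))
    have h3 : ∀ k : ℕ, h^[π * ((n + 1) * k)] z = z := fun k =>
      iter_fix hn ⟨π * k, by ring⟩
    simp only [h3] at h4
    exact hne (tendsto_nhds_unique tendsto_const_nhds h4)
  have hzp : ∀ n, h^[n] p ≠ z := by
    intro n hn
    have h4 : ∀ k : ℕ, h^[π * k] z = z := by
      intro k
      rw [← hn, ← Function.iterate_add_apply, add_comm]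
      exact iter_fix_add hpp ⟨k, rfl⟩ n
    simp only [h4] at hl
    exact hne (tendsto_nhds_unique tendsto_const_nhds hl)
  have h1 : ∀ ρ : Fin π, ∃ η : ℝ, 0 < η ∧ (∀ n, η ≤ dist (h^[ρ + 1] (h^[π * n] z)) z) ∧
      η ≤ dist (h^[ρ + 1] p) z := by
    intro ρ
    have h2 : Tendsto (fun n : ℕ => h^[ρ + 1] (h^[π * n] z)) atTop (𝓝 (h^[ρ + 1] p)) :=
      ((h.continuous.iterate _).tendsto p).comp hl
    obtain ⟨η, hη, h3, h4⟩ := away h2 (hzp _) fun n => by
      rw [← Function.iterate_add_apply, show (ρ : ℕ) + 1 + π * n = (ρ + π * n) + 1 by ring]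
      exact hnp _
    exact ⟨η, hη, h3, h4⟩
  choose η hη h3 h4 using h1
  obtain ⟨η₀, h5, h6⟩ : ∃ η₀ : ℝ, 0 < η₀ ∧ ∀ ρ, η₀ ≤ η ρ := by
    have h7 : ∀ᶠ e in 𝓝[>] (0 : ℝ), ∀ ρ, e ∈ Set.Ioo (0 : ℝ) (η ρ) :=
      eventually_all.2 fun ρ => Ioo_mem_nhdsGT (hη ρ)
    obtain ⟨e, he⟩ := h7.exists
    exact ⟨e, (he ⟨0, hπ⟩).1, fun ρ => (he ρ).2.le⟩
  refine ⟨η₀, h5, fun n => ?_, fun n => ?_⟩
  · have h7 := h3 ⟨n % π, Nat.mod_lt _ hπ⟩ (n / π)
    rw [← Function.iterate_add_apply] at h7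
    have h8 : n % π + 1 + π * (n / π) = n + 1 := by
      have := Nat.mod_add_div n π
      omega
    have h9 : ((⟨n % π, Nat.mod_lt _ hπ⟩ : Fin π) : ℕ) = n % π := rfl
    rw [h9, h8] at h7
    exact (h6 _).trans h7
  · -- `h^n p` with `n` replaced by `n + π - 1`
    have h7 := h4 ⟨(n + π - 1) % π, Nat.mod_lt _ hπ⟩
    have h9 : ((⟨(n + π - 1) % π, Nat.mod_lt _ hπ⟩ : Fin π) : ℕ) = (n + π - 1) % π := rfl
    rw [h9] at h7
    have h8 : h^[(n + π - 1) % π + 1] p = h^[n] p := by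
      have h10 := Nat.mod_add_div (n + π - 1) π
      have h11 : (n + π - 1) % π + 1 + π * ((n + π - 1) / π) = n + π := by omega
      rw [← iter_fix_add hpp ⟨(n + π - 1) / π, rfl⟩ ((n + π - 1) % π + 1), h11]
      exact iter_fix_add hpp dvd_rfl n
    rw [h8] at h7
    exact (h6 _).trans h7

end Pool.Agent.H245.SK
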