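import Pool.Agent.H245.SK.Z3
import Pool.Agent.H245.SH.Y9

/-!
# Sparse shifts near transverse homoclinic points
-/

set_option autoImplicit false
set_option linter.unusedSectionVars false

open scoped Manifold ContDiff Topology NNReal
open Filter Set Metric

universe u v w

namespace Pool.Agent.H245.SK

open Pool.Agent.H718R2.G Pool.Agent.H245.SH Pool.Agent.H721R2 Q263.HR

variable {k : ℕ} {Y : Type w} [MetricSpace Y] [CompactSpace Y] [ChartedSpace (V k) Y]
  [IsManifold (𝓡 k) ∞ Y]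

/-- **Shadowing of periodic pseudo-orbits in hyperbolic sets.** -/
theorem shadow_metric {F : Type} [NormedAddCommGroup F] [NormedSpace ℝ F] {e : Y → F}
    (he : Emb (V k) e) (φ : Y ≃ₜ Y)
    (hsm : ContMDiff 𝓘(ℝ, V k) 𝓘(ℝ, V k) 1 φ) (hsm' : ContMDiff 𝓘(ℝ, V k) 𝓘(ℝ, V k) 1 φ.symm)
    {Λ : Set Y} (h : Q263.HS.IsHyp (V k) φ Λ) {η : ℝ} (hη : 0 < η) :
    ∃ δ : ℝ, 0 < δ ∧ ∀ (l : ℕ) (q : ℕ → Y), 1 ≤ l → (∀ i, q (i + l) = q i) → (∀ i, q i ∈ Λ) →
      (∀ i, dist (φ (q i)) (q (i + 1)) < δ) →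
      ∃ (y : Y) (κ : ℕ), 1 ≤ κ ∧ φ^[κ * l] y = y ∧ ∀ n, dist (φ^[n] y) (q n) < η := by
  have hA : Q263.HS.IsAct (V k) (fun (_ : V 0) (x : Y) => x) :=
    ⟨fun _ => rfl, fun _ _ _ => rfl, contMDiff_snd⟩
  obtain ⟨Nm, Es, Eu, C, a, h⟩ := Q263.HS.IsHyp.trans h
  have hcomp : CompleteSpace Y := inferInstance
  obtain ⟨B, hB⟩ := Pool.Agent.Q223.HS.fl (V k) Y F e he (V 0) (fun (_ : V 0) (x : Y) => x) hA
  obtain ⟨C₁, hC₁0, hC₁⟩ := Q263.HS.low (V k) Y F e he (V 0) (fun (_ : V 0) (x : Y) => x) B hB Λ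
    h.closed (fun x hx t ht => h.free x hx t ht)
  obtain ⟨C', hT⟩ := Q263.HS.th_of_trans he φ hsm hsm' hA (fun _ _ => rfl) h hB hC₁
  have hC'1 := hT.C_pos
  obtain ⟨K, hK, hang⟩ := Q263.HS.ang (V k) Y F e he (V 0) (fun (_ : V 0) (x : Y) => x) φ Λ Es Eu
    C' a hT
  have t1 : Tendsto (fun k : ℕ => K * (C' * a ^ k)) atTop (𝓝 0) := by
    have := ((tendsto_pow_atTop_nhds_zero_of_lt_one hT.a_pos.le hT.a_lt).const_mul C').const_mul K
    simpa using this
  obtain ⟨N, hN⟩ := ((tendsto_order.mp t1).2 (1 / 16) (by norm_num)).exists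
  have hN0 : 0 < N := by
    rcases Nat.eq_zero_or_pos N with h0 | h0
    · rw [h0, pow_zero, mul_one] at hN
      nlinarith
    · exact h0
  obtain ⟨S, hS⟩ := Q263.HS.exists_sys Q263.HR.tr Pool.Agent.Q223.HS.cont he hB hA hT K hK hang N
    hN.le
  -- uniform continuity of the iterates
  have huc : ∀ m : ℕ, ∃ η₁ : ℝ, 0 < η₁ ∧ ∀ i < m, ∀ x y : Y, dist x y < η₁ →
      dist (φ^[i] x) (φ^[i] y) < η / 2 := by
    intro m
    induction m with
    | zero => exact ⟨1, one_pos, fun i hi => absurd hi (Nat.not_lt_zero i)⟩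
    | succ m ih =>
      obtain ⟨η₁, hη₁, h1⟩ := ih
      have h2 := CompactSpace.uniformContinuous_of_continuous (φ.continuous.iterate m)
      obtain ⟨η₂, hη₂, h3⟩ := Metric.uniformContinuous_iff.1 h2 (η / 2) (half_pos hη)
      refine ⟨min η₁ η₂, lt_min hη₁ hη₂, fun i hi x y hxy => ?_⟩
      rcases Nat.lt_succ_iff_lt_or_eq.1 hi with h4 | h4
      · exact h1 i h4 x y (hxy.trans_le (min_le_left _ _))
      · rw [h4]
        exact h3 (hxy.trans_le (min_le_right _ _))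
  obtain ⟨η₁, hη₁, h1⟩ := huc N
  obtain ⟨δ₀, hδ₀, hshad⟩ := S.shad S.corr η₁ hη₁
  -- the pseudo-orbits of the power
  have hch : ∀ m : ℕ, ∃ δ : ℝ, 0 < δ ∧ ∀ q : ℕ → Y, (∀ j, dist (φ (q j)) (q (j + 1)) < δ) →
      ∀ i ≤ m, ∀ j, dist (φ^[i] (q j)) (q (j + i)) < min δ₀ (η / 2) := by
    intro m
    induction m with
    | zero =>
      refine ⟨1, one_pos, fun q _ i hi j => ?_⟩
      rw [Nat.le_zero.1 hi]
      show dist (q j) (q (j + 0)) < _
      rw [add_zero, dist_self]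
      positivity
    | succ m ih =>
      obtain ⟨δ₁, hδ₁, h2⟩ := ih
      obtain ⟨δ₂, hδ₂, h3⟩ := Q263.HR.chain_aux φ.continuous (m + 1) (min δ₀ (η / 2))
        (by positivity)
      refine ⟨min δ₁ δ₂, lt_min hδ₁ hδ₂, fun q hq i hi j => ?_⟩
      rcases Nat.le_succ_iff.1 hi with h4 | h4
      · exact h2 q (fun j => (hq j).trans_le (min_le_left _ _)) i h4 j
      · rw [h4]
        exact h3 q (fun j => (hq j).trans_le (min_le_right _ _)) j
  obtain ⟨δ, hδ, h2⟩ := hch N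
  refine ⟨δ, hδ, ?_⟩
  intro l q hl hper hq hqd
  have : NeZero l := ⟨by omega⟩
  have hperm : ∀ m i, q (i + m * l) = q i := by
    intro m
    induction m with
    | zero => intro i; rw [Nat.zero_mul, add_zero]
    | succ m ih =>
      intro i
      rw [show i + (m + 1) * l = (i + m * l) + l by ring, hper, ih]
  have hmod : ∀ i, q (i % l) = q i := by
    intro i
    have h3 : i = i % l + (i / l) * l := by
      rw [mul_comm]
      exact (Nat.mod_add_div i l).symm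
    conv_rhs => rw [h3]
    exact (hperm _ _).symm
  obtain ⟨P, hP⟩ : ∃ P : ZMod l → Y, P = fun i => q i.val := ⟨_, rfl⟩
  have hPn : ∀ n : ℕ, P (n : ZMod l) = q n := by
    intro n
    rw [hP]
    simp only
    rw [ZMod.val_natCast, hmod]
  have hsurj : ∀ i : ZMod l, ∃ n : ℕ, (n : ZMod l) = i := fun i => ⟨i.val, ZMod.natCast_zmod_val i⟩
  have hgeq : ∀ x, S.g x = φ^[N] x := fun x => congrFun hS.g_eq x
  obtain ⟨y, τ, hy1, hy2, hy3⟩ := hshad (ZMod l) (Equiv.addRight (N : ZMod l)) P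
    (fun j => by
      rw [hS.Λ_eq]
      obtain ⟨n, rfl⟩ := hsurj j
      rw [hPn]
      exact hq n)
    (fun j => by
      obtain ⟨n, rfl⟩ := hsurj j
      have h4 : Equiv.addRight (N : ZMod l) (n : ZMod l) = ((n + N : ℕ) : ZMod l) := by
        rw [Nat.cast_add]
        rfl
      rw [hgeq, h4, hPn, hPn]
      exact (h2 q hqd N le_rfl n).trans_le (min_le_left _ _))
  have hy3' : ∀ n : ℕ, φ^[N] (y (n : ZMod l)) = y ((n + N : ℕ) : ZMod l) := by
    intro n
    have := hy3 (n : ZMod l)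
    rw [hgeq, hS.Φ_eq] at this
    have h4 : Equiv.addRight (N : ZMod l) (n : ZMod l) = ((n + N : ℕ) : ZMod l) := by
      rw [Nat.cast_add]
      rfl
    rw [h4] at this
    exact this
  have hit : ∀ j : ℕ, (φ^[N])^[j] (y ((0 : ℕ) : ZMod l)) = y ((N * j : ℕ) : ZMod l) := by
    intro j
    induction j with
    | zero => rfl
    | succ j ih =>
      rw [Function.iterate_succ_apply', ih, hy3', Nat.mul_succ]
  refine ⟨y ((0 : ℕ) : ZMod l), N, hN0, ?_, fun n => ?_⟩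
  · rw [Function.iterate_mul, hit]
    congr 1
    rw [Nat.cast_mul, ZMod.natCast_self, mul_zero, Nat.cast_zero]
  · have h4 : n = n % N + N * (n / N) := (Nat.mod_add_div n N).symm
    have h5 : φ^[n] (y ((0 : ℕ) : ZMod l)) = φ^[n % N] (y ((N * (n / N) : ℕ) : ZMod l)) := by
      conv_lhs => rw [h4]
      rw [Function.iterate_add_apply, Function.iterate_mul, hit]
    have h6 := hy1 ((N * (n / N) : ℕ) : ZMod l)
    rw [hPn, dist_comm] at h6
    have h7 := h1 (n % N) (Nat.mod_lt _ hN0) _ _ h6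
    have h8 := h2 q hqd (n % N) (Nat.mod_lt _ hN0).le (N * (n / N))
    rw [show N * (n / N) + n % N = n by omega] at h8
    rw [h5]
    calc _ ≤ dist (φ^[n % N] (y ((N * (n / N) : ℕ) : ZMod l))) (φ^[n % N] (q (N * (n / N)))) +
          dist (φ^[n % N] (q (N * (n / N)))) (q n) := dist_triangle _ _ _
      _ < η / 2 + η / 2 := add_lt_add h7 (h8.trans_le (min_le_right _ _))
      _ = η := by ring

/-- **Sparse shifts near transverse homoclinic points**, for an isometric embedding. -/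
theorem spK_metric {F : Type} [NormedAddCommGroup F] [NormedSpace ℝ F] {e : Y → F}
    (he : Emb (V k) e) (φ : Y ≃ₜ Y)
    (hsm : ContMDiff 𝓘(ℝ, V k) 𝓘(ℝ, V k) 1 φ) (hsm' : ContMDiff 𝓘(ℝ, V k) 𝓘(ℝ, V k) 1 φ.symm)
    {Λ : Set Y} (h : Q263.HS.IsHyp (V k) φ Λ) {p z : Y} (hp : p ∈ Λ) (hz : z ∈ Λ) {π : ℕ}
    (hπ : 1 ≤ π) (hpp : φ^[π] p = p) (hne : z ≠ p)
    (hl1 : Tendsto (fun n : ℕ => φ^[π * n] z) atTop (𝓝 p))
    (hl2 : Tendsto (fun n : ℕ => φ.symm^[π * n] z) atTop (𝓝 p)) {K : Set Y} (hK : K ∈ 𝓝ˢ Λ) :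
    SpK φ K := by
  have hinv : ∀ x ∈ Λ, φ x ∈ Λ ∧ φ.symm x ∈ Λ := by
    obtain ⟨_, _, _, _, _, h⟩ := h
    intro x hx
    have h1 := h.inv
    refine ⟨by rw [← h1]; exact mem_image_of_mem φ hx, ?_⟩
    rw [← h1] at hx
    obtain ⟨y, hy, rfl⟩ := hx
    rw [Homeomorph.symm_apply_apply]
    exact hy
  have hcl : IsClosed Λ := by
    obtain ⟨_, _, _, _, _, h⟩ := h
    exact h.closed
  have hinvn : ∀ n x, x ∈ Λ → φ^[n] x ∈ Λ := by
    intro n
    induction n with
    | zero => exact fun x hx => hx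
    | succ n ih => exact fun x hx => by rw [Function.iterate_succ_apply]; exact ih _ (hinv x hx).1
  have hinvn' : ∀ n x, x ∈ Λ → φ.symm^[n] x ∈ Λ := by
    intro n
    induction n with
    | zero => exact fun x hx => hx
    | succ n ih => exact fun x hx => by rw [Function.iterate_succ_apply]; exact ih _ (hinv x hx).2
  have hcancel : ∀ (n : ℕ) (y : Y), φ^[n] (φ.symm^[n] y) = y := fun n =>
    Function.LeftInverse.iterate φ.apply_symm_apply n
  -- the separation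
  have hpp' : φ.symm^[π] p = p := by
    have h1 := (Function.LeftInverse.iterate (φ.symm_apply_apply) π) p
    rw [hpp] at h1
    exact h1
  obtain ⟨η₁, hη₁, s1, s2⟩ := sep1 φ hπ hpp hne hl1
  obtain ⟨η₂, hη₂, s3, s4⟩ := sep1 φ.symm hπ hpp' hne hl2
  -- the neighbourhood
  obtain ⟨O, hO, hΛO, hOK⟩ := mem_nhdsSet_iff_exists.1 hK
  obtain ⟨η₃, hη₃, hthick⟩ := hcl.isCompact.exists_thickening_subset_open hO hΛO
  obtain ⟨η, hη, e1, e2, e3⟩ : ∃ η : ℝ, 0 < η ∧ 4 * η ≤ η₁ ∧ 4 * η ≤ η₂ ∧ 4 * η ≤ η₃ :=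
    ⟨min η₁ (min η₂ η₃) / 4, by positivity, by linarith [min_le_left η₁ (min η₂ η₃)], by
      linarith [min_le_right η₁ (min η₂ η₃), min_le_left η₂ η₃], by
      linarith [min_le_right η₁ (min η₂ η₃), min_le_right η₂ η₃]⟩
  obtain ⟨δ, hδ, hsh⟩ := shadow_metric he φ hsm hsm' h hη
  -- the excursion
  have h5 : ∀ᶠ n : ℕ in atTop, dist (φ^[π * n] z) p < δ ∧ dist (φ.symm^[π * n] z) p < δ :=
    ((tendsto_iff_dist_tendsto_zero.1 hl1).eventually (gt_mem_nhds hδ)).and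
      ((tendsto_iff_dist_tendsto_zero.1 hl2).eventually (gt_mem_nhds hδ))
  obtain ⟨A, ⟨h6, h7⟩, hA⟩ := (h5.and (eventually_ge_atTop 1)).exists
  obtain ⟨a, ha⟩ : ∃ a, a = π * A := ⟨_, rfl⟩
  have ha0 : 1 ≤ a := by
    rw [ha]
    exact Nat.one_le_iff_ne_zero.2 (Nat.mul_ne_zero (by omega) (by omega))
  have haπ : π ∣ a := by rw [ha]; exact Dvd.intro _ rfl
  rw [← ha] at h6 h7
  obtain ⟨u, hu⟩ : ∃ u, u = φ.symm^[a] z := ⟨_, rfl⟩
  have huz : φ^[a] u = z := by rw [hu]; exact hcancel a z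
  have hu1 : dist p u < δ := by rw [hu, dist_comm]; exact h7
  have hu2 : dist (φ^[2 * a] u) p < δ := by
    rw [two_mul, Function.iterate_add_apply, huz]
    exact h6
  have hfar : ∀ j, j < 2 * a → j ≠ a → 4 * η ≤ dist (φ^[j] u) z := by
    intro j hj hja
    rcases Nat.lt_or_ge j a with h8 | h8
    · have h9 : φ^[j] u = φ.symm^[(a - j - 1) + 1] z := by
        rw [hu]
        have h10 : a = j + ((a - j - 1) + 1) := by omega
        conv_lhs => rw [h10, Function.iterate_add_apply]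
        exact hcancel j _
      rw [h9]
      exact e2.trans (s3 _)
    · have h9 : φ^[j] u = φ^[(j - a - 1) + 1] z := by
        have h10 : j = ((j - a - 1) + 1) + a := by omega
        conv_lhs => rw [h10, Function.iterate_add_apply, huz]
      rw [h9]
      exact e1.trans (s1 _)
  refine ⟨π, 2 * a, {y | 2 * η ≤ dist y z}, closedBall z η, hπ, ?_, ?_, ?_, ?_⟩
  · exact (isClosed_le continuous_const (continuous_id.dist continuous_const)).isCompact
  · exact isClosed_closedBall.isCompact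
  · rw [Set.disjoint_left]
    intro y hy hy'
    have h8 : 2 * η ≤ dist y z := hy
    have h9 : dist y z ≤ η := hy'
    linarith
  · intro l S hl hπl hS hper hgap
    obtain ⟨q, q1, q2, q3, q4, q5⟩ := exists_pseudo φ hl hπl haπ ha0 hpp hS hper hgap hδ hu1 hu2
    have hqΛ : ∀ i, q i ∈ Λ := by
      intro i
      rcases q5 i with ⟨n, h8⟩ | ⟨j, -, h8⟩
      · rw [h8]
        exact hinvn _ _ hp
      · rw [h8, hu]
        exact hinvn _ _ (hinvn' _ _ hz)
    obtain ⟨y, κ, hκ, hy, hyq⟩ := hsh l q hl q1 hqΛ q2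
    refine ⟨y, κ, hκ, hy, fun i => ⟨?_, fun hi => ?_, fun hi => ?_⟩⟩
    · apply hOK
      apply hthick
      rw [Metric.mem_thickening_iff]
      exact ⟨q i, hqΛ i, (hyq i).trans_le (by linarith)⟩
    · have h8 := (hyq i).le
      rw [q3 i hi, huz] at h8
      exact h8
    · show 2 * η ≤ dist (φ^[i] y) z
      have h8 : 4 * η ≤ dist (q i) z := by
        rcases q4 i hi with ⟨n, h9⟩ | ⟨j, h9, h10, h11⟩
        · rw [h9]
          exact e1.trans (s2 n)
        · rw [h11]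
          exact hfar j h9 h10
      have h9 := dist_triangle_left (q i) z (φ^[i] y)
      have h10 := hyq i
      linarith

end Pool.Agent.H245.SK
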