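import Pool.Agent.H245.SK.Z4

/-!
# Expansivity of hyperbolic sets
-/

set_option autoImplicit false
set_option linter.unusedSectionVars false

open scoped Manifold ContDiff Topology NNReal
open Filter Set Metric

universe u v w

namespace Pool.Agent.H245.SK

open Pool.Agent.H718R2.G Pool.Agent.H245.SH Pool.Agent.H721R2 Q263.HR

section sys

variable {X F : Type*} [MetricSpace X] [NormedAddCommGroup F] [NormedSpace ℝ F]
  (S : Q263.HS.Sys X F (V 0))

theorem sys_H1 {η : ℝ} (hη : 0 < η) : ∃ r > 0, ∀ x ∈ S.Λ, ∀ y y', dist x y < r → dist x y' < r →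
    ∃ s ∈ S.Vs x, ∃ u ∈ S.Vu x, ‖S.e y' - S.e y - (s + u)‖ ≤ η * dist y y' := by
  obtain ⟨r, hr, h⟩ := S.H1 η hη
  refine ⟨r, hr, fun x hx y y' h1 h2 => ?_⟩
  obtain ⟨s, hs, u, hu, t, h3⟩ := h x hx y y' h1 h2
  have h4 : t = 0 := Subsingleton.elim _ _
  rw [h4, map_zero, add_zero] at h3
  exact ⟨s, hs, u, hu, h3⟩

theorem sys_angle {x : X} (hx : x ∈ S.Λ) {s u : F} (hs : s ∈ S.Vs x) (hu : u ∈ S.Vu x) :
    ‖s‖ ≤ S.K * ‖s + u‖ ∧ ‖u‖ ≤ S.K * ‖s + u‖ := by
  obtain ⟨h1, h2, -⟩ := S.angle x hx s hs u hu 0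
  rw [map_zero, add_zero] at h1 h2
  exact ⟨h1, h2⟩

/-- `g` is locally Lipschitz near `Λ` -/
theorem sys_lip : ∃ r > 0, ∃ C : ℝ, 0 ≤ C ∧ ∀ x ∈ S.Λ, ∀ y y', dist x y < r → dist x y' < r →
    dist (S.g y) (S.g y') ≤ C * dist y y' := by
  have hL := S.one_le_L
  obtain ⟨r1, hr1, H1⟩ := sys_H1 S (show (0 : ℝ) < 1 / 8 by norm_num)
  obtain ⟨r2, hr2, H2⟩ := S.H2 (1 / 8) (by norm_num)
  obtain ⟨r, hr, e1, e2⟩ : ∃ r : ℝ, 0 < r ∧ 8 * r ≤ r1 ∧ 8 * r ≤ r2 :=
    ⟨min r1 r2 / 8, by positivity, by linarith [min_le_left r1 r2], by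
      linarith [min_le_right r1 r2]⟩
  -- one step
  have step : ∀ x ∈ S.Λ, ∀ y y', dist x y < 3 * r → dist x y' < r → ∃ z,
      dist z y' ≤ dist y y' / 2 ∧ dist (S.g y) (S.g z) ≤ 2 * (S.L + 1) * dist y y' := by
    intro x hx y y' h1 h2
    obtain ⟨s, hs, u, hu, h3⟩ := H1 x hx y y' (by linarith) (by linarith)
    have hd : dist y y' < 4 * r := by
      have := dist_triangle_left y y' x
      linarith
    have h4 : ‖s + u‖ ≤ 9 / 8 * dist y y' := by
      have h5 : s + u = (S.e y' - S.e y) - (S.e y' - S.e y - (s + u)) := by abel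
      rw [h5]
      refine (norm_sub_le _ _).trans ?_
      rw [← S.isom, dist_comm y' y]
      linarith
    have hd0 := dist_nonneg (x := y) (y := y')
    obtain ⟨z, h5, h6⟩ := H2 x hx y (by linarith) s hs u hu (by linarith)
    refine ⟨z, ?_, ?_⟩
    · rw [S.isom]
      have h7 : S.e z - S.e y' = (S.e z - S.e y - (s + u)) - (S.e y' - S.e y - (s + u)) := by abel
      rw [h7]
      refine (norm_sub_le _ _).trans ?_
      linarith
    · rw [dist_comm, S.isom]
      have h7 : S.e (S.g z) - S.e (S.g y) = (S.e (S.g z) - S.e (S.g y) - S.D x (s + u)) +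
          S.D x (s + u) := by abel
      rw [h7]
      refine (norm_add_le _ _).trans ?_
      have h8 := S.boundD x hx s hs u hu
      have h9 : S.L * ‖s + u‖ ≤ S.L * (9 / 8 * dist y y') := by gcongr
      nlinarith
  refine ⟨r, hr, 4 * (S.L + 1), by positivity, ?_⟩
  intro x hx y y' h1 h2
  have hd : dist y y' < 2 * r := by
    have := dist_triangle_left y y' x
    linarith
  have hd0 := dist_nonneg (x := y) (y := y')
  have key : ∀ j : ℕ, ∃ z, dist z y' ≤ (1 / 2) ^ j * dist y y' ∧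
      dist (S.g y) (S.g z) ≤ 4 * (S.L + 1) * (1 - (1 / 2) ^ j) * dist y y' := by
    intro j
    induction j with
    | zero => exact ⟨y, by simp, by simp⟩
    | succ j ih =>
      obtain ⟨z, h3, h4⟩ := ih
      have hp : (1 / 2 : ℝ) ^ j ≤ 1 := pow_le_one₀ (by norm_num) (by norm_num)
      have h5 : dist z y' ≤ dist y y' := h3.trans (by nlinarith)
      obtain ⟨z', h6, h7⟩ := step x hx z y' (by
        have := dist_triangle_right x z y'
        linarith) h2
      refine ⟨z', ?_, ?_⟩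
      · refine h6.trans ?_
        rw [pow_succ]
        linarith
      · have h8 : 2 * (S.L + 1) * dist z y' ≤ 2 * (S.L + 1) * ((1 / 2) ^ j * dist y y') := by
          gcongr
        calc dist (S.g y) (S.g z') ≤ dist (S.g y) (S.g z) + dist (S.g z) (S.g z') :=
              dist_triangle _ _ _
          _ ≤ 4 * (S.L + 1) * (1 - (1 / 2) ^ j) * dist y y' +
              2 * (S.L + 1) * ((1 / 2) ^ j * dist y y') := by linarith
          _ = 4 * (S.L + 1) * (1 - (1 / 2) ^ (j + 1)) * dist y y' := by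
            rw [pow_succ]
            ring
  choose z h3 h4 using key
  have h5 : Tendsto z atTop (𝓝 y') := by
    rw [tendsto_iff_dist_tendsto_zero]
    refine squeeze_zero (fun _ => dist_nonneg) h3 ?_
    have : Tendsto (fun j : ℕ => (1 / 2 : ℝ) ^ j * dist y y') atTop (𝓝 (0 * dist y y')) :=
      (tendsto_pow_atTop_nhds_zero_of_lt_one (by norm_num) (by norm_num)).mul_const _
    rwa [zero_mul] at this
  have h6 : Tendsto (fun j => dist (S.g y) (S.g (z j))) atTop (𝓝 (dist (S.g y) (S.g y'))) :=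
    tendsto_const_nhds.dist ((S.gcont.tendsto _).comp h5)
  refine le_of_tendsto' h6 fun j => (h4 j).trans ?_
  have hp : (0 : ℝ) < (1 / 2) ^ j := by positivity
  have h7 : 0 ≤ 4 * (S.L + 1) * dist y y' := by positivity
  nlinarith

/-- the linear approximation -/
theorem sys_lin {η : ℝ} (hη : 0 < η) : ∃ r > 0, ∀ x ∈ S.Λ, ∀ y y', dist x y < r → dist x y' < r →
    ∃ s ∈ S.Vs x, ∃ u ∈ S.Vu x, ‖S.e y' - S.e y - (s + u)‖ ≤ η * dist y y' ∧
      ‖S.e (S.g y') - S.e (S.g y) - S.D x (s + u)‖ ≤ η * dist y y' := by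
  obtain ⟨r0, hr0, C, hC, hlip⟩ := sys_lip S
  obtain ⟨η₁, hη₁, e0, e1⟩ : ∃ η₁ : ℝ, 0 < η₁ ∧ η₁ ≤ 1 ∧ (2 + 3 * C) * η₁ ≤ η ∧ η₁ ≤ η := by
    refine ⟨min 1 (η / (2 + 3 * C)), by positivity, min_le_left _ _, ?_, ?_⟩
    · calc (2 + 3 * C) * min 1 (η / (2 + 3 * C)) ≤ (2 + 3 * C) * (η / (2 + 3 * C)) := by
            gcongr
            exact min_le_right _ _
        _ = η := by field_simp
    · refine (min_le_right _ _).trans ?_
      rw [div_le_iff₀ (by positivity)]
      nlinarith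
  obtain ⟨e1, e2⟩ := e1
  obtain ⟨r1, hr1, H1⟩ := sys_H1 S hη₁
  obtain ⟨r2, hr2, H2⟩ := S.H2 η₁ hη₁
  obtain ⟨r, hr, f0, f1, f2⟩ : ∃ r : ℝ, 0 < r ∧ 16 * r ≤ r0 ∧ 16 * r ≤ r1 ∧ 16 * r ≤ r2 :=
    ⟨min r0 (min r1 r2) / 16, by positivity, by linarith [min_le_left r0 (min r1 r2)], by
      linarith [min_le_right r0 (min r1 r2), min_le_left r1 r2], by
      linarith [min_le_right r0 (min r1 r2), min_le_right r1 r2]⟩
  refine ⟨r, hr, ?_⟩
  intro x hx y y' h1 h2
  obtain ⟨s, hs, u, hu, h3⟩ := H1 x hx y y' (by linarith) (by linarith)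
  have hd : dist y y' < 2 * r := by
    have := dist_triangle_left y y' x
    linarith
  have hd0 := dist_nonneg (x := y) (y := y')
  have h4 : ‖s + u‖ ≤ 2 * dist y y' := by
    have h5 : s + u = (S.e y' - S.e y) - (S.e y' - S.e y - (s + u)) := by abel
    rw [h5]
    refine (norm_sub_le _ _).trans ?_
    rw [← S.isom, dist_comm y' y]
    nlinarith
  obtain ⟨z, h5, h6⟩ := H2 x hx y (by linarith) s hs u hu (by linarith)
  have h7 : dist z y' ≤ 3 * η₁ * dist y y' := by
    rw [S.isom]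
    have h7 : S.e z - S.e y' = (S.e z - S.e y - (s + u)) - (S.e y' - S.e y - (s + u)) := by abel
    rw [h7]
    refine (norm_sub_le _ _).trans ?_
    nlinarith
  have h8 : dist x z < r0 := by
    have h9 : 3 * η₁ * dist y y' ≤ 3 * 1 * dist y y' := by gcongr
    have := dist_triangle_right x z y'
    linarith
  have h9 := hlip x hx z y' h8 (by linarith)
  refine ⟨s, hs, u, hu, h3.trans (by gcongr), ?_⟩
  have h10 : S.e (S.g y') - S.e (S.g y) - S.D x (s + u) =
      (S.e (S.g z) - S.e (S.g y) - S.D x (s + u)) - (S.e (S.g z) - S.e (S.g y')) := by abel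
  rw [h10]
  refine (norm_sub_le _ _).trans ?_
  rw [← S.isom]
  calc _ ≤ η₁ * ‖s + u‖ + C * dist z y' := add_le_add h6 h9
    _ ≤ η₁ * (2 * dist y y') + C * (3 * η₁ * dist y y') := by gcongr
    _ = (2 + 3 * C) * η₁ * dist y y' := by ring
    _ ≤ η * dist y y' := by gcongr

/-- **Expansivity.** -/
theorem sys_exp : ∃ r > 0, ∀ x y : ℤ → X, (∀ n, x n ∈ S.Λ) → (∀ n, S.g (x n) = x (n + 1)) →
    (∀ n, S.g (y n) = y (n + 1)) → (∀ n, dist (x n) (y n) < r) → ∀ n, x n = y n := by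
  have hK := S.one_le_K
  have hK0 : 0 < S.K := by linarith
  have hθ := S.θ_nonneg
  have hKθ := S.Kθ
  obtain ⟨η, hη⟩ : ∃ η : ℝ, η = 1 / (32 * S.K) := ⟨_, rfl⟩
  have hη0 : 0 < η := by rw [hη]; positivity
  have hηK : S.K * η = 1 / 32 := by rw [hη]; field_simp
  have hη1 : η ≤ 1 / 32 := by nlinarith
  obtain ⟨r, hr, H⟩ := sys_lin S hη0
  refine ⟨r, hr, ?_⟩
  intro x y hx hxg hyg hd
  have h1 : ∀ n, ∃ s ∈ S.Vs (x n), ∃ u ∈ S.Vu (x n),
      ‖S.e (y n) - S.e (x n) - (s + u)‖ ≤ η * dist (x n) (y n) ∧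
      ‖S.e (y (n + 1)) - S.e (x (n + 1)) - S.D (x n) (s + u)‖ ≤ η * dist (x n) (y n) := by
    intro n
    have h2 := H (x n) (hx n) (x n) (y n) (by rw [dist_self]; exact hr) (hd n)
    rw [hxg, hyg] at h2
    exact h2
  choose s hs u hu h2 h3 using h1
  -- halving
  have half : ∀ b : ℝ, 0 ≤ b → (∀ n, dist (x n) (y n) ≤ b) → ∀ n, dist (x n) (y n) ≤ b / 2 := by
    intro b hb0 hb
    have a1 : ∀ n, ‖S.e (y n) - S.e (x n) - (s n + u n)‖ ≤ η * b := fun n =>
      (h2 n).trans (by gcongr; exact hb n)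
    have a2 : ∀ n, ‖S.e (y (n + 1)) - S.e (x (n + 1)) - S.D (x n) (s n + u n)‖ ≤ η * b := fun n =>
      (h3 n).trans (by gcongr; exact hb n)
    have a3 : ∀ n, ‖s n + u n‖ ≤ (1 + η) * b := by
      intro n
      have h5 : s n + u n = (S.e (y n) - S.e (x n)) - (S.e (y n) - S.e (x n) - (s n + u n)) := by
        abel
      rw [h5]
      refine (norm_sub_le _ _).trans ?_
      rw [← S.isom, dist_comm]
      have := hb n
      have := a1 n
      linarith
    have a4 : ∀ n, ‖s n‖ ≤ S.K * ((1 + η) * b) ∧ ‖u n‖ ≤ S.K * ((1 + η) * b) := by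
      intro n
      obtain ⟨b1, b2⟩ := sys_angle S (hx n) (hs n) (hu n)
      exact ⟨b1.trans (by gcongr; exact a3 n), b2.trans (by gcongr; exact a3 n)⟩
    -- the difference at the next time
    have a5 : ∀ n, ‖s (n + 1) - S.D (x n) (s n)‖ ≤ S.K * (2 * η * b) ∧
        ‖u (n + 1) - S.D (x n) (u n)‖ ≤ S.K * (2 * η * b) := by
      intro n
      have m1 : S.D (x n) (s n) ∈ S.Vs (x (n + 1)) := by
        rw [← hxg]
        exact S.mapS _ (hx n) _ (hs n)
      have m2 : S.D (x n) (u n) ∈ S.Vu (x (n + 1)) := by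
        rw [← hxg]
        exact S.mapU _ (hx n) _ (hu n)
      obtain ⟨b1, b2⟩ := sys_angle S (hx (n + 1)) (sub_mem (hs (n + 1)) m1)
        (sub_mem (hu (n + 1)) m2)
      have b3 : ‖s (n + 1) - S.D (x n) (s n) + (u (n + 1) - S.D (x n) (u n))‖ ≤ 2 * η * b := by
        have b4 : s (n + 1) - S.D (x n) (s n) + (u (n + 1) - S.D (x n) (u n)) =
            (S.e (y (n + 1)) - S.e (x (n + 1)) - S.D (x n) (s n + u n)) -
            (S.e (y (n + 1)) - S.e (x (n + 1)) - (s (n + 1) + u (n + 1))) := by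
          rw [map_add]
          abel
        rw [b4]
        refine (norm_sub_le _ _).trans ?_
        have := a1 (n + 1)
        have := a2 n
        linarith
      exact ⟨b1.trans (by gcongr), b2.trans (by gcongr)⟩
    have hKb : S.K * (2 * η * b) = b / 16 := by
      have : S.K * (2 * η * b) = 2 * (S.K * η) * b := by ring
      rw [this, hηK]
      ring
    have hθb : S.θ * (S.K * ((1 + η) * b)) ≤ (1 + η) * b / 16 := by
      have : S.θ * (S.K * ((1 + η) * b)) = S.K * S.θ * ((1 + η) * b) := by ring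
      rw [this]
      have h0 : 0 ≤ (1 + η) * b := by positivity
      nlinarith
    have hθ1 : S.θ ≤ 1 / 16 := by nlinarith
    have a6 : ∀ n, ‖s (n + 1)‖ ≤ (1 + η) * b / 16 + b / 16 := by
      intro n
      have b1 := (a5 n).1
      rw [hKb] at b1
      have b2 := (S.contrS _ (hx n) _ (hs n)).trans
        (mul_le_mul_of_nonneg_left (a4 n).1 hθ)
      have b3 : s (n + 1) = (s (n + 1) - S.D (x n) (s n)) + S.D (x n) (s n) := by abel
      rw [b3]
      refine (norm_add_le _ _).trans ?_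
      linarith
    have a7 : ∀ n, ‖u n‖ ≤ (1 + η) * b / 16 + b / 16 := by
      intro n
      have b1 := (a5 n).2
      rw [hKb] at b1
      have b2 := S.contrU _ (hx n) _ (hu n)
      have b3 : ‖S.D (x n) (u n)‖ ≤ S.K * ((1 + η) * b) + b / 16 := by
        have b4 : S.D (x n) (u n) = u (n + 1) - (u (n + 1) - S.D (x n) (u n)) := by abel
        rw [b4]
        refine (norm_sub_le _ _).trans ?_
        have := (a4 (n + 1)).2
        linarith
      have b5 := b2.trans (mul_le_mul_of_nonneg_left b3 hθ)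
      have b6 : S.θ * (b / 16) ≤ 1 / 16 * (b / 16) := by gcongr
      nlinarith
    intro n
    have b1 := a6 (n - 1)
    rw [sub_add_cancel] at b1
    have b2 := a7 n
    have b3 := a1 n
    rw [dist_comm, S.isom]
    have b4 : S.e (y n) - S.e (x n) = (S.e (y n) - S.e (x n) - (s n + u n)) + (s n + u n) := by abel
    rw [b4]
    refine (norm_add_le _ _).trans ?_
    have b5 := norm_add_le (s n) (u n)
    have b6 : η * b ≤ 1 / 32 * b := by gcongr
    nlinarith
  have hall : ∀ j : ℕ, ∀ n, dist (x n) (y n) ≤ (1 / 2) ^ j * r := by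
    intro j
    induction j with
    | zero => exact fun n => by rw [pow_zero, one_mul]; exact (hd n).le
    | succ j ih =>
      intro n
      have := half _ (by positivity) ih n
      rw [pow_succ]
      linarith
  intro n
  have h5 : Tendsto (fun j : ℕ => (1 / 2 : ℝ) ^ j * r) atTop (𝓝 (0 * r)) :=
    (tendsto_pow_atTop_nhds_zero_of_lt_one (by norm_num) (by norm_num)).mul_const _
  rw [zero_mul] at h5
  exact dist_le_zero.1 (ge_of_tendsto' h5 fun j => hall j n)

end sys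

end Pool.Agent.H245.SK
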