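import Pool.Agent.H245.SK.Z5

/-!
# Homoclinic points of diffeomorphisms with infinitely many periodic points in a hyperbolic set
-/

set_option autoImplicit false
set_option linter.unusedSectionVars false

open scoped Manifold ContDiff Topology NNReal
open Filter Set Metric

universe u v w

namespace Pool.Agent.H245.SK

open Pool.Agent.H718R2.G Pool.Agent.H245.SH Pool.Agent.H721R2 Q263.HR

section top

variable {Y : Type w} [MetricSpace Y]

theorem zpow_nat (φ : Y ≃ₜ Y) (n : ℕ) (x : Y) :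
    ((φ.toEquiv : Equiv.Perm Y) ^ (n : ℤ)) x = φ^[n] x := by
  rw [zpow_natCast, ← Equiv.Perm.iterate_eq_pow]
  rfl

theorem zpow_neg_nat (φ : Y ≃ₜ Y) (n : ℕ) (x : Y) :
    ((φ.toEquiv : Equiv.Perm Y) ^ (-(n : ℤ))) x = φ.symm^[n] x := by
  rw [zpow_neg, ← inv_zpow, zpow_natCast, ← Equiv.Perm.iterate_eq_pow]
  rfl

theorem symm_iter (φ : Y ≃ₜ Y) {n m : ℕ} (h : n ≤ m) (y : Y) :
    φ.symm^[n] (φ^[m] y) = φ^[m - n] y := by
  have h1 := (Function.LeftInverse.iterate (φ.symm_apply_apply) n) (φ^[m - n] y)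
  rw [← Function.iterate_add_apply, show n + (m - n) = m by omega] at h1
  exact h1

/-- convergence to a periodic point -/
theorem tendsto_per [CompactSpace Y] (φ : Y ≃ₜ Y) {N : ℕ} (hN : 1 ≤ N) {p z : Y} {η r : ℝ}
    (hpp : φ^[N] p = p)
    (hexp : ∀ w, (∀ t : ℕ, dist (φ^[t] w) (φ^[t] p) < r ∧
      dist (φ.symm^[t] w) (φ.symm^[t] p) < r) → w = p) (hηr : η < r)
    (hz : ∀ i, N ≤ i → dist (φ^[i] z) (φ^[i] p) ≤ η) :
    Tendsto (fun n : ℕ => φ^[N * n] z) atTop (𝓝 p) := by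
  refine tendsto_of_subseq_tendsto fun ns hns => ?_
  obtain ⟨w, ms, hms, hw⟩ := CompactSpace.tendsto_subseq fun n => φ^[N * ns n] z
  have hlim : Tendsto (fun n => ns (ms n)) atTop atTop := hns.comp hms.tendsto_atTop
  have hwp : w = p := by
    apply hexp
    intro t
    constructor
    · have h1 : Tendsto (fun n => dist (φ^[t] (φ^[N * ns (ms n)] z)) (φ^[t] p)) atTop
          (𝓝 (dist (φ^[t] w) (φ^[t] p))) :=
        (((φ.continuous.iterate t).tendsto w).comp hw).dist tendsto_const_nhds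
      refine lt_of_le_of_lt (le_of_tendsto h1 ?_) hηr
      filter_upwards [hlim.eventually (eventually_ge_atTop 1)] with n hn
      have h2 := hz (t + N * ns (ms n)) (by
        have : N * 1 ≤ N * ns (ms n) := Nat.mul_le_mul_left _ hn
        omega)
      rw [iter_fix_add hpp ⟨ns (ms n), rfl⟩ t, Function.iterate_add_apply] at h2
      exact h2
    · have h1 : Tendsto (fun n => dist (φ.symm^[t] (φ^[N * ns (ms n)] z)) (φ.symm^[t] p)) atTop
          (𝓝 (dist (φ.symm^[t] w) (φ.symm^[t] p))) :=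
        (((φ.symm.continuous.iterate t).tendsto w).comp hw).dist tendsto_const_nhds
      refine lt_of_le_of_lt (le_of_tendsto h1 ?_) hηr
      filter_upwards [hlim.eventually (eventually_ge_atTop (t + 1))] with n hn
      have h3 : N * (t + 1) ≤ N * ns (ms n) := Nat.mul_le_mul_left _ hn
      have h4 : t ≤ N * t := Nat.le_mul_of_pos_left _ (by omega)
      rw [Nat.mul_succ] at h3
      have h2 := hz (N * ns (ms n) - t) (by omega)
      rw [symm_iter φ (by omega) z]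
      have h5 : φ.symm^[t] p = φ^[N * ns (ms n) - t] p := by
        rw [← symm_iter φ (by omega) p, iter_fix hpp ⟨ns (ms n), rfl⟩]
      rw [h5]
      exact h2
  exact ⟨ms, by rw [← hwp]; exact hw⟩

/-- the pseudo-orbit with one block of `q` -/
theorem exists_one_block (h : Y → Y) {N : ℕ} (hN : 1 ≤ N) {p q : Y} {δ : ℝ}
    (hp : h^[N] p = p) (hq : h^[N] q = q) (hδ : 0 < δ) (hpq : dist p q < δ) (m : ℕ) :
    ∃ c : ℕ → Y, (∀ i, c (i + N * (2 * m + 1)) = c i) ∧ (∀ i, dist (h (c i)) (c (i + 1)) < δ) ∧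
      (∀ i, c i = h^[i] p ∨ c i = h^[i] q) ∧ (∀ i, i / N = m → c i = h^[i] q) ∧
      ∀ i, i / N ≠ m → i / N ≤ 2 * m → c i = h^[i] p := by
  classical
  obtain ⟨c, hc⟩ : ∃ c : ℕ → Y, c = fun i => if (i / N) % (2 * m + 1) = m then h^[i] q
    else h^[i] p := ⟨_, rfl⟩
  have hor : ∀ i, c i = h^[i] p ∨ c i = h^[i] q := by
    intro i
    rw [hc]
    simp only
    split_ifs
    · exact Or.inr rfl
    · exact Or.inl rfl
  refine ⟨c, fun i => ?_, fun i => ?_, hor, fun i hi => ?_, fun i hi hi' => ?_⟩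
  · have h1 : (i + N * (2 * m + 1)) / N = i / N + (2 * m + 1) :=
      Nat.add_mul_div_left _ _ (by omega)
    rw [hc]
    simp only
    rw [h1, Nat.add_mod_right, iter_fix_add hp ⟨2 * m + 1, rfl⟩ i,
      iter_fix_add hq ⟨2 * m + 1, rfl⟩ i]
  · by_cases h1 : (i + 1) / N = i / N
    · have h2 : h (c i) = c (i + 1) := by
        rw [hc]
        simp only
        rw [h1]
        split_ifs
        · rw [Function.iterate_succ_apply']
        · rw [Function.iterate_succ_apply']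
      rw [h2, dist_self]
      exact hδ
    · have h2 : N ∣ i + 1 := by
        by_contra h3
        apply h1
        rw [Nat.succ_div_of_not_dvd h3]
      have h3 : ∀ x, x = p ∨ x = q → ∀ y, y = p ∨ y = q → dist x y < δ := by
        rintro x (rfl | rfl) y (rfl | rfl)
        · rw [dist_self]
          exact hδ
        · exact hpq
        · rw [dist_comm]
          exact hpq
        · rw [dist_self]
          exact hδ
      apply h3
      · rcases hor i with h4 | h4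
        · left
          rw [h4, ← Function.iterate_succ_apply' (f := h)]
          exact iter_fix hp h2
        · right
          rw [h4, ← Function.iterate_succ_apply' (f := h)]
          exact iter_fix hq h2
      · rcases hor (i + 1) with h4 | h4
        · left
          rw [h4]
          exact iter_fix hp h2
        · right
          rw [h4]
          exact iter_fix hq h2
  · rw [hc]
    simp only
    rw [if_pos]
    rw [hi, Nat.mod_eq_of_lt (by omega)]
  · rw [hc]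
    simp only
    rw [if_neg]
    rw [Nat.mod_eq_of_lt (by omega)]
    exact hi

/-- two periodic points near each other -/
theorem exists_close_pair [CompactSpace Y] {P : Set Y} (hP : P.Infinite) {δ : ℝ} (hδ : 0 < δ) :
    ∃ p ∈ P, ∃ q ∈ P, p ≠ q ∧ dist p q < δ := by
  obtain ⟨x, hx⟩ := hP.exists_accPt_principal
  rw [accPt_iff_nhds] at hx
  obtain ⟨p, ⟨hp1, hp2⟩, hp3⟩ := hx _ (ball_mem_nhds x (half_pos hδ))
  obtain ⟨q, ⟨hq1, hq2⟩, hq3⟩ := hx _ (ball_mem_nhds x (dist_pos.2 hp3))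
  have h1 : dist p x < δ / 2 := hp1
  have h2 : dist q x < dist p x := hq1
  refine ⟨p, hp2, q, hq2, ?_, ?_⟩
  · rintro rfl
    exact lt_irrefl _ h2
  · calc dist p q ≤ dist p x + dist q x := dist_triangle_right _ _ _
      _ < δ := by linarith

end top

variable {k : ℕ} {Y : Type w} [MetricSpace Y] [CompactSpace Y] [ChartedSpace (V k) Y]
  [IsManifold (𝓡 k) ∞ Y]

/-- hyperbolic sets are expansive -/
theorem exp_metric {F : Type} [NormedAddCommGroup F] [NormedSpace ℝ F] {e : Y → F}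
    (he : Emb (V k) e) (φ : Y ≃ₜ Y)
    (hsm : ContMDiff 𝓘(ℝ, V k) 𝓘(ℝ, V k) 1 φ) (hsm' : ContMDiff 𝓘(ℝ, V k) 𝓘(ℝ, V k) 1 φ.symm)
    {Λ : Set Y} (h : Q263.HS.IsHyp (V k) φ Λ) : ∃ r : ℝ, 0 < r ∧ ∀ p ∈ Λ, ∀ w,
      (∀ t : ℕ, dist (φ^[t] w) (φ^[t] p) < r ∧ dist (φ.symm^[t] w) (φ.symm^[t] p) < r) → w = p := by
  have hinv : ∀ x ∈ Λ, φ x ∈ Λ ∧ φ.symm x ∈ Λ := by
    obtain ⟨_, _, _, _, _, h⟩ := h
    intro x hx
    have h1 := h.inv
    refine ⟨by rw [← h1]; exact mem_image_of_mem φ hx, ?_⟩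
    rw [← h1] at hx
    obtain ⟨y, hy, rfl⟩ := hx
    rw [Homeomorph.symm_apply_apply]
    exact hy
  have hA : Q263.HS.IsAct (V k) (fun (_ : V 0) (x : Y) => x) :=
    ⟨fun _ => rfl, fun _ _ _ => rfl, contMDiff_snd⟩
  obtain ⟨Nm, Es, Eu, C, a, h⟩ := Q263.HS.IsHyp.trans h
  obtain ⟨B, hB⟩ := Pool.Agent.Q223.HS.fl (V k) Y F e he (V 0) (fun (_ : V 0) (x : Y) => x) hA
  obtain ⟨C₁, hC₁0, hC₁⟩ := Q263.HS.low (V k) Y F e he (V 0) (fun (_ : V 0) (x : Y) => x) B hB Λ
    h.closed (fun x hx t ht => h.free x hx t ht)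
  obtain ⟨C', hT⟩ := Q263.HS.th_of_trans he φ hsm hsm' hA (fun _ _ => rfl) h hB hC₁
  obtain ⟨K, hK, hang⟩ := Q263.HS.ang (V k) Y F e he (V 0) (fun (_ : V 0) (x : Y) => x) φ Λ Es Eu
    C' a hT
  have t1 : Tendsto (fun k : ℕ => K * (C' * a ^ k)) atTop (𝓝 0) := by
    have := ((tendsto_pow_atTop_nhds_zero_of_lt_one hT.a_pos.le hT.a_lt).const_mul C').const_mul K
    simpa using this
  obtain ⟨N, hN⟩ := ((tendsto_order.mp t1).2 (1 / 16) (by norm_num)).exists
  obtain ⟨S, hS⟩ := Q263.HS.exists_sys Q263.HR.tr Pool.Agent.Q223.HS.cont he hB hA hT K hK hang N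
    hN.le
  have hgeq : ∀ x, S.g x = φ^[N] x := fun x => congrFun hS.g_eq x
  obtain ⟨r, hr, H⟩ := sys_exp S
  refine ⟨r, hr, fun p hp w hw => ?_⟩
  obtain ⟨P, hP⟩ : ∃ P : Equiv.Perm Y, P = φ.toEquiv := ⟨_, rfl⟩
  have hPΛ : ∀ n : ℤ, (P ^ n) p ∈ Λ := by
    have h1 : ∀ n : ℕ, ∀ x ∈ Λ, φ^[n] x ∈ Λ ∧ φ.symm^[n] x ∈ Λ := by
      intro n
      induction n with
      | zero => exact fun x hx => ⟨hx, hx⟩
      | succ n ih =>
        intro x hx
        rw [Function.iterate_succ_apply, Function.iterate_succ_apply]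
        exact ⟨(ih _ (hinv x hx).1).1, (ih _ (hinv x hx).2).2⟩
    intro n
    obtain ⟨m, rfl | rfl⟩ := n.eq_nat_or_neg
    · rw [hP, zpow_nat]
      exact (h1 m p hp).1
    · rw [hP, zpow_neg_nat]
      exact (h1 m p hp).2
  have hstep : ∀ (x : Y) (n : ℤ), S.g ((P ^ ((N : ℤ) * n)) x) = (P ^ ((N : ℤ) * (n + 1))) x := by
    intro x n
    rw [hgeq, ← zpow_nat, ← hP, ← Equiv.Perm.mul_apply, ← zpow_add]
    congr 2
    ring
  have h2 := H (fun n => (P ^ ((N : ℤ) * n)) p) (fun n => (P ^ ((N : ℤ) * n)) w)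
    (fun n => by rw [hS.Λ_eq]; exact hPΛ _) (hstep p) (hstep w) (fun n => by
      obtain ⟨m, hm | hm⟩ := ((N : ℤ) * n).eq_nat_or_neg
      · show dist ((P ^ ((N : ℤ) * n)) p) ((P ^ ((N : ℤ) * n)) w) < r
        rw [hm, hP, zpow_nat, zpow_nat, dist_comm]
        exact (hw m).1
      · show dist ((P ^ ((N : ℤ) * n)) p) ((P ^ ((N : ℤ) * n)) w) < r
        rw [hm, hP, zpow_neg_nat, zpow_neg_nat, dist_comm]
        exact (hw m).2) 0
  simp only [mul_zero, zpow_zero, Equiv.Perm.one_apply] at h2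
  exact h2.symm

/-- **Homoclinic points.** -/
theorem homoclinic_metric {F : Type} [NormedAddCommGroup F] [NormedSpace ℝ F] {e : Y → F}
    (he : Emb (V k) e) (φ : Y ≃ₜ Y)
    (hsm : ContMDiff 𝓘(ℝ, V k) 𝓘(ℝ, V k) 1 φ) (hsm' : ContMDiff 𝓘(ℝ, V k) 𝓘(ℝ, V k) 1 φ.symm)
    {Λ : Set Y} (h : Q263.HS.IsHyp (V k) φ Λ) (hPΛ : Pool.Agent.H728R2.OS.Per φ ⊆ Λ)
    (hinf : (Pool.Agent.H728R2.OS.Per φ).Infinite) :
    ∃ (p z : Y) (N : ℕ), p ∈ Λ ∧ z ∈ Λ ∧ 1 ≤ N ∧ φ^[N] p = p ∧ z ≠ p ∧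
      Tendsto (fun n : ℕ => φ^[N * n] z) atTop (𝓝 p) ∧
      Tendsto (fun n : ℕ => φ.symm^[N * n] z) atTop (𝓝 p) := by
  have hcl : IsClosed Λ := by
    obtain ⟨_, _, _, _, _, h⟩ := h
    exact h.closed
  obtain ⟨r, hr, hexp⟩ := exp_metric he φ hsm hsm' h
  obtain ⟨δ, hδ, hsh⟩ := shadow_metric he φ hsm hsm' h (half_pos hr)
  obtain ⟨p, hp, q, hq, hne, hpq⟩ := exists_close_pair hinf hδ
  have hpΛ := hPΛ hp
  obtain ⟨n₁, hn₁, hp1⟩ := hp
  obtain ⟨n₂, hn₂, hq1⟩ := hq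
  obtain ⟨N, hN⟩ : ∃ N, N = n₁ * n₂ := ⟨_, rfl⟩
  have hN1 : 1 ≤ N := by
    rw [hN]
    exact Nat.one_le_iff_ne_zero.2 (Nat.mul_ne_zero (by omega) (by omega))
  have hpN : φ^[N] p = p := iter_fix hp1 (by rw [hN]; exact Dvd.intro _ rfl)
  have hqN : φ^[N] q = q := iter_fix hq1 (by rw [hN]; exact Dvd.intro_left _ rfl)
  have hper : ∀ x, φ^[N] x = x → ∀ i, φ^[i] x ∈ Pool.Agent.H728R2.OS.Per φ := by
    intro x hx i
    refine ⟨N, hN1, ?_⟩
    rw [← Function.iterate_add_apply, add_comm, Function.iterate_add_apply, hx]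
  -- the time of separation
  obtain ⟨j, hjN, hj⟩ : ∃ j < N, r ≤ dist (φ^[j] p) (φ^[j] q) := by
    have h1 : ∃ t : ℕ, r ≤ dist (φ^[t] q) (φ^[t] p) := by
      by_contra hcon
      push Not at hcon
      apply hne
      refine (hexp p hpΛ q fun t => ⟨hcon t, ?_⟩).symm
      have h2 : t ≤ N * t := Nat.le_mul_of_pos_left _ (by omega)
      have h3 : ∀ x, φ^[N] x = x → φ.symm^[t] x = φ^[N * t - t] x := by
        intro x hx
        rw [← symm_iter φ h2 x, iter_fix hx ⟨t, rfl⟩]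
      rw [h3 q hqN, h3 p hpN]
      exact hcon _
    obtain ⟨t, ht⟩ := h1
    refine ⟨t % N, Nat.mod_lt _ hN1, ?_⟩
    have h2 : ∀ x, φ^[N] x = x → φ^[t] x = φ^[t % N] x := by
      intro x hx
      have h3 := iter_fix_add hx ⟨t / N, rfl⟩ (t % N)
      rw [Nat.mod_add_div] at h3
      exact h3
    rw [h2 q hqN, h2 p hpN, dist_comm] at ht
    exact ht
  -- the approximations
  have happ : ∀ m : ℕ, ∃ z ∈ Λ, (∀ i, i < N → dist (φ^[i] z) (φ^[i] q) < r / 2) ∧
      (∀ i, N ≤ i → i < N * (m + 1) → dist (φ^[i] z) (φ^[i] p) < r / 2) ∧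
      ∀ i, 1 ≤ i → i ≤ N * m → dist (φ.symm^[i] z) (φ.symm^[i] p) < r / 2 := by
    intro m
    obtain ⟨c, c1, c2, c3, c4, c5⟩ := exists_one_block φ hN1 hpN hqN hδ hpq m
    obtain ⟨y, κ, hκ, hy, hyc⟩ := hsh (N * (2 * m + 1)) c
      (Nat.one_le_iff_ne_zero.2 (Nat.mul_ne_zero (by omega) (by omega))) c1 (fun i => by
        rcases c3 i with h1 | h1
        · rw [h1]
          exact hPΛ (hper p hpN i)
        · rw [h1]
          exact hPΛ (hper q hqN i)) c2
    have hdiv : ∀ i, (i + N * m) / N = i / N + m := fun i => Nat.add_mul_div_left _ _ (by omega)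
    refine ⟨φ^[N * m] y, hPΛ ⟨κ * (N * (2 * m + 1)), ?_, ?_⟩, fun i hi => ?_, fun i hi hi' => ?_,
      fun i hi hi' => ?_⟩
    · exact Nat.mul_pos (by omega) (Nat.mul_pos (by omega) (by omega))
    · rw [← Function.iterate_add_apply, add_comm, Function.iterate_add_apply, hy]
    · have h1 := hyc (i + N * m)
      rw [c4 _ (by rw [hdiv, Nat.div_eq_of_lt hi, zero_add]), iter_fix_add hqN ⟨m, rfl⟩ i,
        Function.iterate_add_apply] at h1
      exact h1
    · have h1 := hyc (i + N * m)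
      have h2 : 1 ≤ i / N := (Nat.one_le_div_iff (by omega)).2 hi
      have h3 : i / N < m + 1 := Nat.div_lt_of_lt_mul hi'
      rw [c5 _ (by rw [hdiv]; omega) (by rw [hdiv]; omega), iter_fix_add hpN ⟨m, rfl⟩ i,
        Function.iterate_add_apply] at h1
      exact h1
    · rw [symm_iter φ hi' y]
      have h1 := hyc (N * m - i)
      have h2 : (N * m - i) / N < m := Nat.div_lt_of_lt_mul (by omega)
      rw [c5 _ (by omega) (by omega)] at h1
      have h3 : φ.symm^[i] p = φ^[N * m - i] p := by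
        rw [← symm_iter φ hi' p, iter_fix hpN ⟨m, rfl⟩]
      rw [h3]
      exact h1
  choose zm hzΛ hz1 hz2 hz3 using happ
  obtain ⟨z, ms, hms, hz⟩ := CompactSpace.tendsto_subseq zm
  have hlim : Tendsto ms atTop atTop := hms.tendsto_atTop
  have hzΛ' : z ∈ Λ := hcl.mem_of_tendsto hz (Eventually.of_forall fun n => hzΛ _)
  have d1 : ∀ i, i < N → dist (φ^[i] z) (φ^[i] q) ≤ r / 2 := by
    intro i hi
    have h1 : Tendsto (fun n => dist (φ^[i] (zm (ms n))) (φ^[i] q)) atTop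
        (𝓝 (dist (φ^[i] z) (φ^[i] q))) :=
      (((φ.continuous.iterate i).tendsto z).comp hz).dist tendsto_const_nhds
    exact le_of_tendsto' h1 fun n => (hz1 (ms n) i hi).le
  have d2 : ∀ i, N ≤ i → dist (φ^[i] z) (φ^[i] p) ≤ r / 2 := by
    intro i hi
    have h1 : Tendsto (fun n => dist (φ^[i] (zm (ms n))) (φ^[i] p)) atTop
        (𝓝 (dist (φ^[i] z) (φ^[i] p))) :=
      (((φ.continuous.iterate i).tendsto z).comp hz).dist tendsto_const_nhds
    refine le_of_tendsto h1 ?_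
    filter_upwards [hlim.eventually (eventually_ge_atTop i)] with n hn
    refine (hz2 (ms n) i hi ?_).le
    have h2 : 1 * (ms n + 1) ≤ N * (ms n + 1) := Nat.mul_le_mul_right _ hN1
    omega
  have d3 : ∀ i, 1 ≤ i → dist (φ.symm^[i] z) (φ.symm^[i] p) ≤ r / 2 := by
    intro i hi
    have h1 : Tendsto (fun n => dist (φ.symm^[i] (zm (ms n))) (φ.symm^[i] p)) atTop
        (𝓝 (dist (φ.symm^[i] z) (φ.symm^[i] p))) :=
      (((φ.symm.continuous.iterate i).tendsto z).comp hz).dist tendsto_const_nhds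
    refine le_of_tendsto h1 ?_
    filter_upwards [hlim.eventually (eventually_ge_atTop i)] with n hn
    refine (hz3 (ms n) i hi ?_).le
    have h2 : 1 * ms n ≤ N * ms n := Nat.mul_le_mul_right _ hN1
    omega
  have hpN' : φ.symm^[N] p = p := by
    have h1 := (Function.LeftInverse.iterate (φ.symm_apply_apply) N) p
    rw [hpN] at h1
    exact h1
  refine ⟨p, z, N, hpΛ, hzΛ', hN1, hpN, ?_, ?_, ?_⟩
  · rintro rfl
    have h1 := d1 j hjN
    linarith
  · exact tendsto_per φ hN1 hpN (hexp p hpΛ) (half_lt_self hr) d2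
  · refine tendsto_per φ.symm hN1 hpN' (fun w hw => hexp p hpΛ w fun t => ?_) (half_lt_self hr)
      fun i hi => d3 i (by omega)
    exact ⟨(hw t).2, (hw t).1⟩

end Pool.Agent.H245.SK
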