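import Pool.Agent.H245.SK.Z6

/-!
# Products with a factor with a homoclinic point
-/

set_option autoImplicit false
set_option linter.unusedSectionVars false

open scoped Manifold ContDiff Topology NNReal
open Filter Set Metric

universe u v w

namespace Pool.Agent.H245.SK

open Pool.Agent.H718R2.G Pool.Agent.W564.SC Pool.Agent.TH80.OMS Pool.Agent.Y271.CP
  Pool.Agent.Y504.CO Pool.Agent.H245.SH

theorem spK_nonempty {Y : Type w} [TopologicalSpace Y] {h : Y → Y} {K : Set Y} (hh : SpK h K) :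
    Nonempty Y := by
  obtain ⟨π, g, W₀, W₁, hπ, -, -, -, h1⟩ := hh
  obtain ⟨y, -⟩ := h1 π ∅ hπ dvd_rfl (fun i hi => hi.elim) (fun i => by simp) (fun i hi => hi.elim)
  exact ⟨y⟩

/-- the star condition with a scalar for every block -/
theorem exists_kstarK {m : ℕ} {M : Type v} [MetricSpace M] [CompactSpace M] [ChartedSpace (V m) M]
    [IsManifold (𝓡 m) ∞ M] {r : ℕ∞} (hr : 1 ≤ r) (f : DiffM m M r) {k n : ℕ}
    {Y : Type w} [TopologicalSpace Y] [T2Space Y] [SigmaCompactSpace Y]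
    [ChartedSpace (V k) Y] [IsManifold (𝓡 k) ∞ Y] {h : Y → Y} (hc : Continuous h) {K : Set Y}
    (hh : SpK h K)
    {N : Type u} [TopologicalSpace N] [T2Space N] [CompactSpace N] [ChartedSpace (V n) N]
    [IsManifold (𝓡 n) ∞ N] {Θ : M × Y → N} (F : DiffM n N r)
    (hΘ : IsLocalDiffeomorph ((𝓡 m).prod (𝓡 k)) (𝓡 n) ∞ Θ)
    (hinj : Function.Injective Θ)
    (hF : ∀ x, ∀ y ∈ K, F (Θ (x, y)) = Θ (f x, h y)) (hst : CStar n N r F)
    (T : ℕ) (A : FAtlas m M) :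
    ∃ (N₀ : ℕ) (ε ρ : ℝ), 0 < ε ∧ 1 < ρ ∧ KStarB T A f N₀ ε ρ := by
  by_cases hMe : IsEmpty M
  · exact ⟨0, 1, 2, one_pos, by norm_num, fun a b R _ _ bs _ _ x => (hMe.false x).elim⟩
  rw [not_isEmpty_iff] at hMe
  have hYe := spK_nonempty hh
  obtain ⟨N₀, hdr⟩ := driverK_of_sp hc T hh
  obtain ⟨E, hE⟩ := exists_gemb (I' := 𝓡 k) hΘ hinj
  obtain ⟨ε, hε, h⟩ := kick_starK A hr f E F hdr (by rw [hE]; exact hF) hst
  obtain ⟨ε', ρ, h1, h2, h3⟩ := kstarB_of hε h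
  exact ⟨N₀, ε', ρ, h1, h2, h3⟩

/-- **Products with one factor with a sparse shift.** -/
theorem one_factorK {m k n : ℕ} {M : Type v} [MetricSpace M] [CompactSpace M]
    [ChartedSpace (V m) M] [IsManifold (𝓡 m) ∞ M] {Y : Type w} [TopologicalSpace Y] [T2Space Y]
    [SigmaCompactSpace Y] [ChartedSpace (V k) Y] [IsManifold (𝓡 k) ∞ Y] {N : Type u}
    [TopologicalSpace N] [T2Space N] [CompactSpace N] [ChartedSpace (V n) N]
    [IsManifold (𝓡 n) ∞ N] {r : ℕ∞} (hr : 2 ≤ r) (f : DiffM m M r)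
    {h : Y → Y} (hc : Continuous h) {K : Set Y} (hh : SpK h K) {Θ : M × Y → N}
    (hΘ : IsLocalDiffeomorph ((𝓡 m).prod (𝓡 k)) (𝓡 n) ∞ Θ) (hinj : Function.Injective Θ)
    (F : DiffM n N r) (hF : ∀ x, ∀ y ∈ K, F (Θ (x, y)) = Θ (f x, h y)) (hst : CStar n N r F) :
    Q263.HS.AxiomA (V m) f.toHomeomorph ∧ Pool.Agent.H728R2.OS.NoCycle f.toHomeomorph ∧
      CycPer f.toHomeomorph := by
  have hr1 : (1 : ℕ∞) ≤ r := le_trans (by norm_num) hr
  have H := exists_kstarK hr1 f hc hh F hΘ hinj hF hst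
  obtain ⟨h1, h2⟩ := u3_of_kstarB hr f H
  exact ⟨h1, h2, fun l w hw i => cyc_memB hr f H hw i⟩

/-- **Products with two factors with sparse shifts.** -/
theorem two_factorsK {m k n : ℕ} {M : Type v} [MetricSpace M] [CompactSpace M]
    [ChartedSpace (V m) M] [IsManifold (𝓡 m) ∞ M] {Y : Type w} [MetricSpace Y]
    [ChartedSpace (V k) Y] [IsManifold (𝓡 k) ∞ Y] {N : Type u}
    [TopologicalSpace N] [T2Space N] [CompactSpace N] [ChartedSpace (V n) N]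
    [IsManifold (𝓡 n) ∞ N] {r : ℕ∞}
    (hr : 2 ≤ r) (f : DiffM m M r) (g : DiffM k Y r) {K : Set M} (hh' : SpK f K)
    {Θ : M × Y → N}
    (hΘ : IsLocalDiffeomorph ((𝓡 m).prod (𝓡 k)) (𝓡 n) ∞ Θ) (hinj : Function.Injective Θ)
    (hsurj : Function.Surjective Θ) (F : DiffM n N r) (hF : ∀ x y, F (Θ (x, y)) = Θ (f x, g y))
    (hst : CStar n N r F) :
    Q263.HS.AxiomA (V k) g.toHomeomorph ∧ Pool.Agent.H728R2.OS.NoCycle g.toHomeomorph ∧
      CycPer g.toHomeomorph := by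
  have hM : Nonempty M := spK_nonempty hh'
  have hY := compact_factor hΘ hinj hsurj
  have hcf : Continuous (f : M → M) := f.contMDiff.continuous
  refine one_factorK hr g hcf hh' (swap_local hΘ) (hinj.comp Prod.swap_injective) F
    (fun y x _ => ?_) hst
  exact hF x y

/-- **Sparse shifts near transverse homoclinic points.** -/
theorem spK_of_homoclinic {k : ℕ} {Y : Type w} [TopologicalSpace Y] [T2Space Y] [CompactSpace Y]
    [ChartedSpace (V k) Y] [IsManifold (𝓡 k) ∞ Y] (φ : Y ≃ₜ Y)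
    (hsm : ContMDiff 𝓘(ℝ, V k) 𝓘(ℝ, V k) 1 φ) (hsm' : ContMDiff 𝓘(ℝ, V k) 𝓘(ℝ, V k) 1 φ.symm)
    {Λ : Set Y} (h : Q263.HS.IsHyp (V k) φ Λ) {p z : Y} (hp : p ∈ Λ) (hz : z ∈ Λ) {π : ℕ}
    (hπ : 1 ≤ π) (hpp : φ^[π] p = p) (hne : z ≠ p)
    (hl1 : Tendsto (fun n : ℕ => φ^[π * n] z) atTop (𝓝 p))
    (hl2 : Tendsto (fun n : ℕ => φ.symm^[π * n] z) atTop (𝓝 p)) {K : Set Y} (hK : K ∈ 𝓝ˢ Λ) :
    SpK φ K := by
  obtain ⟨m, e, he, hemb, hinj⟩ :=
    exists_embedding_euclidean_of_compact (I := 𝓘(ℝ, V k)) (M := Y)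
  let _ : MetricSpace Y := hemb.isEmbedding.comapMetricSpace e
  have hE : Q263.HR.Emb (V k) e := ⟨fun x y => dist_eq_norm (e x) (e y), he, hinj⟩
  exact spK_metric hE φ hsm hsm' h hp hz hπ hpp hne hl1 hl2 hK

/-- **Diffeomorphisms with Axiom A and infinite nonwandering set have sparse shifts.** -/
theorem spK_of_axiomA {k : ℕ} {Y : Type w} [TopologicalSpace Y] [T2Space Y] [CompactSpace Y]
    [ChartedSpace (V k) Y] [IsManifold (𝓡 k) ∞ Y] (φ : Y ≃ₜ Y)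
    (hsm : ContMDiff 𝓘(ℝ, V k) 𝓘(ℝ, V k) 1 φ) (hsm' : ContMDiff 𝓘(ℝ, V k) 𝓘(ℝ, V k) 1 φ.symm)
    (h : Q263.HS.IsHyp (V k) φ (Pool.Agent.H728R2.OS.Omega φ))
    (hd : Pool.Agent.H728R2.OS.Omega φ ⊆ closure (Pool.Agent.H728R2.OS.Per φ))
    (hinf : (Pool.Agent.H728R2.OS.Omega φ).Infinite) :
    SpK φ univ := by
  obtain ⟨m, e, he, hemb, hinj⟩ :=
    exists_embedding_euclidean_of_compact (I := 𝓘(ℝ, V k)) (M := Y)
  let _ : MetricSpace Y := hemb.isEmbedding.comapMetricSpace e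
  have hE : Q263.HR.Emb (V k) e := ⟨fun x y => dist_eq_norm (e x) (e y), he, hinj⟩
  have h1 : (Pool.Agent.H728R2.OS.Per φ).Infinite := by
    intro hfin
    apply hinf
    rw [hfin.isClosed.closure_eq] at hd
    exact hfin.subset hd
  obtain ⟨p, z, N, h2, h3, h4, h5, h6, h7, h8⟩ :=
    homoclinic_metric hE φ hsm hsm' h Q263.HS.per_omega h1
  exact spK_metric hE φ hsm hsm' h h2 h3 h4 h5 h6 h7 h8 univ_mem

/-- from the classical form of homoclinic points -/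
theorem tendsto_of_dist {Y : Type w} [MetricSpace Y] {h : Y → Y} {π : ℕ} (hπ : 1 ≤ π) {p z : Y}
    (hpp : h^[π] p = p)
    (hl : Tendsto (fun n : ℕ => dist (h^[n] z) (h^[n] p)) atTop (𝓝 0)) :
    Tendsto (fun n : ℕ => h^[π * n] z) atTop (𝓝 p) := by
  rw [tendsto_iff_dist_tendsto_zero]
  have h1 : Tendsto (fun n : ℕ => dist (h^[π * n] z) (h^[π * n] p)) atTop (𝓝 0) :=
    hl.comp (tendsto_id.const_mul_atTop' (by omega))
  refine h1.congr fun n => ?_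
  rw [iter_fix hpp ⟨n, rfl⟩]

end Pool.Agent.H245.SK
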